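import Mathlib
import Pool.Agent.H452R3.CHI.Up11

set_option autoImplicit false
set_option linter.unusedSectionVars false

/-! The upper bound for the chromatic number of the uniform random graph. -/

namespace Pool.Agent.W133

open Finset MeasureTheory Filter Topology Pool.Agent.H452R3.CHI

open scoped Classical in
theorem Pr_unif {n : ℕ} (A : SimpleGraph (Fin n) → Prop) :
    Pr (fun _ _ : Fin n => Real.log 2) A =
      ((univ.filter (fun G : SimpleGraph (Fin n) => A G)).card : ℝ) /
        Fintype.card (SimpleGraph (Fin n)) := by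
  have hexp : Real.exp (-Real.log 2) = 1 / 2 := by
    rw [Real.exp_neg, Real.exp_log (by norm_num)]
    norm_num
  have hwt : ∀ G : SimpleGraph (Fin n), wt (fun _ _ : Fin n => Real.log 2) G =
      wt (fun _ _ : Fin n => Real.log 2) (⊥ : SimpleGraph (Fin n)) := by
    intro G
    unfold wt
    apply Finset.prod_congr rfl
    intro i _
    apply Finset.prod_congr rfl
    intro j _
    rw [hexp]
    norm_num
  set c := wt (fun _ _ : Fin n => Real.log 2) (⊥ : SimpleGraph (Fin n)) with hc
  have h1 := wt_sum (n := n) (fun _ _ => Real.log 2)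
  rw [Finset.sum_congr rfl (fun G _ => hwt G), Finset.sum_const, nsmul_eq_mul, card_univ] at h1
  have hN : (Fintype.card (SimpleGraph (Fin n)) : ℝ) ≠ 0 := by
    intro h0
    rw [h0, zero_mul] at h1
    exact zero_ne_one h1
  have hc2 : c = 1 / Fintype.card (SimpleGraph (Fin n)) := by
    field_simp
    linarith
  unfold Pr
  rw [← Finset.sum_filter]
  rw [Finset.sum_congr rfl (fun G _ => hwt G), Finset.sum_const, nsmul_eq_mul, hc2]
  ring

open scoped Classical in
/-- **The chromatic number of the uniform random graph is at most `(1+ε) n / (2 log₂ n)`.** -/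
theorem chi_upper (ε θ : ℝ) (hε : 0 < ε) (hθ : 0 < θ) : ∀ᶠ n : ℕ in atTop,
    ((univ.filter (fun G : SimpleGraph (Fin n) =>
      (1 + ε) * (Real.log 2 * n / (2 * Real.log n)) < (G.chromaticNumber.toNat : ℝ))).card : ℝ) /
        Fintype.card (SimpleGraph (Fin n)) ≤ θ := by
  have hlog2 : 0 < Real.log 2 := Real.log_pos (by norm_num)
  have hGJ : TaskGJ := Pool.Agent.H378R3.CHIGJ.taskGJ Pool.Agent.H449R3.CHI.taskJanson
  have hm : Measurable (Function.uncurry (fun _ _ : ℝ => Real.log 2)) := measurable_const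
  have hup := upper TVertex.taskVertex taskCount (taskJ hGJ) taskStep
    Pool.Agent.H339R3.CHI.taskCells Pool.Agent.H885R3.CHI.taskBad (fun _ _ => Real.log 2)
    (Real.log 2) (Real.log 2) hm (fun _ _ => rfl) (fun _ _ => le_rfl) (fun _ _ => le_rfl) hlog2
    ε (min θ (1 / 2)) hε (lt_min hθ (by norm_num))
  have hΦ : sInf (PhiSet (fun _ _ => Real.log 2)) = Real.log 2 :=
    le_antisymm (Phi_le _ _ hm (fun _ _ => hlog2.le) (fun _ _ => le_rfl))
      (Phi_ge _ _ _ hm (fun _ _ => hlog2.le) (fun _ _ => le_rfl) (fun _ _ => le_rfl))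
  filter_upwards [hup] with n hn
  obtain ⟨X, hX, hx⟩ := hn
  have hne : ∃ x, x ∉ X := by
    by_contra hc
    push Not at hc
    have h1 : X = Set.univ := Set.eq_univ_of_forall hc
    rw [h1] at hX
    have h2 : typ n Set.univ = 1 := by
      unfold typ
      simp
    rw [h2] at hX
    have h3 : ENNReal.ofReal (min θ (1 / 2)) < 1 := by
      rw [← ENNReal.ofReal_one]
      apply (ENNReal.ofReal_lt_ofReal_iff (by norm_num)).2
      exact lt_of_le_of_lt (min_le_right _ _) (by norm_num)
    exact absurd hX (not_le.2 h3)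
  obtain ⟨x, hxX⟩ := hne
  have h1 := hx x hxX
  rw [Pr_unif, hΦ] at h1
  exact h1.trans (min_le_left _ _)

end Pool.Agent.W133
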