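import Mathlib

set_option autoImplicit false
set_option linter.unusedSectionVars false

/-! Spaces of polynomial functions of bounded bidegree, and the count of zero patterns. -/

namespace Pool.Agent.W133

open Finset Module

variable {V : Type} [Fintype V] [DecidableEq V]

/-- monomial function -/
def mono (d : V → ℕ) : (V → ℝ) → ℝ := fun t => ∏ v, t v ^ d v

/-- exponents of bounded bidegree -/
def Exps (κ : V → Prop) [DecidablePred κ] (D1 D2 : ℕ) : Set (V → ℕ) :=
  {d | ∑ v ∈ univ.filter κ, d v ≤ D1 ∧ ∑ v ∈ univ.filter (fun v => ¬ κ v), d v ≤ D2}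

/-- polynomial functions of bounded bidegree -/
def PS (κ : V → Prop) [DecidablePred κ] (D1 D2 : ℕ) : Submodule ℝ ((V → ℝ) → ℝ) :=
  Submodule.span ℝ (mono '' Exps κ D1 D2)

variable (κ : V → Prop) [DecidablePred κ]

theorem PS_mono {D1 D2 D1' D2' : ℕ} (h1 : D1 ≤ D1') (h2 : D2 ≤ D2') : PS κ D1 D2 ≤ PS κ D1' D2' := by
  apply Submodule.span_mono
  apply Set.image_mono
  intro d hd
  exact ⟨hd.1.trans h1, hd.2.trans h2⟩

theorem PS_one : (1 : (V → ℝ) → ℝ) ∈ PS κ 0 0 := by
  apply Submodule.subset_span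
  refine ⟨0, ⟨by simp, by simp⟩, ?_⟩
  funext t
  simp [mono]

theorem PS_coord1 (v : V) (hv : κ v) : (fun t : V → ℝ => t v) ∈ PS κ 1 0 := by
  apply Submodule.subset_span
  refine ⟨Pi.single v 1, ⟨?_, ?_⟩, ?_⟩
  · rw [Finset.sum_eq_single_of_mem v (by simp [hv])]
    · simp
    · intro b _ hb
      simp [hb]
  · rw [Finset.sum_eq_zero]
    intro b hb
    have : b ≠ v := by
      rintro rfl
      simp [hv] at hb
    simp [this]
  · funext t
    unfold mono
    rw [Finset.prod_eq_single v]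
    · simp
    · intro b _ hb
      simp [hb]
    · simp

theorem PS_coord2 (v : V) (hv : ¬ κ v) : (fun t : V → ℝ => t v) ∈ PS κ 0 1 := by
  apply Submodule.subset_span
  refine ⟨Pi.single v 1, ⟨?_, ?_⟩, ?_⟩
  · rw [Finset.sum_eq_zero]
    intro b hb
    have : b ≠ v := by
      rintro rfl
      simp [hv] at hb
    simp [this]
  · rw [Finset.sum_eq_single_of_mem v (by simp [hv])]
    · simp
    · intro b _ hb
      simp [hb]
  · funext t
    unfold mono
    rw [Finset.prod_eq_single v]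
    · simp
    · intro b _ hb
      simp [hb]
    · simp

theorem PS_mul {D1 D2 D1' D2' : ℕ} {f g : (V → ℝ) → ℝ} (hf : f ∈ PS κ D1 D2)
    (hg : g ∈ PS κ D1' D2') : f * g ∈ PS κ (D1 + D1') (D2 + D2') := by
  have h := Submodule.mul_mem_mul hf hg
  unfold PS at h
  rw [Submodule.span_mul_span] at h
  refine Submodule.span_mono ?_ h
  rintro _ ⟨_, ⟨d, hd, rfl⟩, _, ⟨d', hd', rfl⟩, rfl⟩
  refine ⟨d + d', ⟨?_, ?_⟩, ?_⟩
  · simp only [Pi.add_apply, Finset.sum_add_distrib]
    exact Nat.add_le_add hd.1 hd'.1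
  · simp only [Pi.add_apply, Finset.sum_add_distrib]
    exact Nat.add_le_add hd.2 hd'.2
  · funext t
    simp only [mono, Pi.add_apply, Pi.mul_apply, pow_add, Finset.prod_mul_distrib]

theorem PS_prod {ι : Type} (s : Finset ι) (f : ι → (V → ℝ) → ℝ) (D1 D2 : ι → ℕ)
    (hf : ∀ i ∈ s, f i ∈ PS κ (D1 i) (D2 i)) :
    ∏ i ∈ s, f i ∈ PS κ (∑ i ∈ s, D1 i) (∑ i ∈ s, D2 i) := by
  classical
  induction s using Finset.induction_on with
  | empty => simpa using PS_one κ
  | insert i s hi ih =>
    rw [Finset.prod_insert hi, Finset.sum_insert hi, Finset.sum_insert hi]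
    exact PS_mul κ (hf i (mem_insert_self _ _)) (ih (fun j hj => hf j (mem_insert_of_mem hj)))

/-- the finite set of exponents -/
def ExpF (D1 D2 : ℕ) : Finset (V → ℕ) :=
  (Fintype.piFinset (fun _ : V => range (D1 + D2 + 1))).filter (fun d =>
    ∑ v ∈ univ.filter κ, d v ≤ D1 ∧ ∑ v ∈ univ.filter (fun v => ¬ κ v), d v ≤ D2)

theorem mem_ExpF (D1 D2 : ℕ) (d : V → ℕ) : d ∈ ExpF κ D1 D2 ↔ d ∈ Exps κ D1 D2 := by
  unfold ExpF Exps
  simp only [mem_filter, Fintype.mem_piFinset, mem_range, Set.mem_ofPred_eq, and_iff_right_iff_imp]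
  rintro ⟨h1, h2⟩ v
  by_cases hv : κ v
  · have := Finset.single_le_sum (f := d) (s := univ.filter κ) (fun _ _ => Nat.zero_le _)
      (show v ∈ univ.filter κ by simp [hv])
    omega
  · have := Finset.single_le_sum (f := d) (s := univ.filter (fun v => ¬ κ v))
      (fun _ _ => Nat.zero_le _) (show v ∈ univ.filter (fun v => ¬ κ v) by simp [hv])
    omega

open scoped Classical in
theorem PS_eq (D1 D2 : ℕ) : PS κ D1 D2 = Submodule.span ℝ (((ExpF κ D1 D2).image mono :
    Finset ((V → ℝ) → ℝ)) : Set ((V → ℝ) → ℝ)) := by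
  unfold PS
  congr 1
  ext f
  simp only [Set.mem_image, coe_image, mem_coe, mem_ExpF]

theorem PS_fin (D1 D2 : ℕ) : FiniteDimensional ℝ (PS κ D1 D2) := by
  rw [PS_eq]
  exact FiniteDimensional.span_finset ℝ _

theorem PS_finrank (D1 D2 : ℕ) : finrank ℝ (PS κ D1 D2) ≤ (ExpF κ D1 D2).card := by
  classical
  rw [PS_eq]
  exact (finrank_span_finset_le_card _).trans card_image_le

theorem exp_neg_two_le {u : ℝ} (h0 : 0 ≤ u) (h1 : u ≤ 1 / 2) : Real.exp (-(2 * u)) ≤ 1 - u := by
  have h2 : 1 / (1 - u) ≤ Real.exp (2 * u) := by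
    have h5 : 1 - u ≠ 0 := by linarith
    have h3 : 1 / (1 - u) = u / (1 - u) + 1 := by
      field_simp
      ring
    have h4 : u / (1 - u) ≤ 2 * u := by
      rw [div_le_iff₀ (by linarith)]
      nlinarith
    calc 1 / (1 - u) = u / (1 - u) + 1 := h3
      _ ≤ Real.exp (u / (1 - u)) := Real.add_one_le_exp _
      _ ≤ Real.exp (2 * u) := Real.exp_le_exp.2 h4
  rw [Real.exp_neg, inv_le_comm₀ (Real.exp_pos _) (by linarith), ← one_div]
  exact h2

theorem ExpF_card (D1 D2 : ℕ) (L1 L2 : ℝ) (hL1 : 2 ≤ L1) (hL2 : 2 ≤ L2) :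
    ((ExpF κ D1 D2).card : ℝ) ≤ L1 ^ (univ.filter κ).card *
      L2 ^ (univ.filter (fun v => ¬ κ v)).card * Real.exp (2 * D1 / L1 + 2 * D2 / L2) := by
  set x1 : ℝ := 1 - 1 / L1 with hx1
  set x2 : ℝ := 1 - 1 / L2 with hx2
  have hu1 : 1 / L1 ≤ 1 / 2 := one_div_le_one_div_of_le (by norm_num) hL1
  have hu2 : 1 / L2 ≤ 1 / 2 := one_div_le_one_div_of_le (by norm_num) hL2
  have hp1 : 0 < 1 / L1 := by positivity
  have hp2 : 0 < 1 / L2 := by positivity
  have hx1p : 0 < x1 := by linarith
  have hx2p : 0 < x2 := by linarith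
  have hx1l : x1 < 1 := by linarith
  have hx2l : x2 < 1 := by linarith
  have e1 : Real.exp (-(2 * (1 / L1))) ≤ x1 := exp_neg_two_le hp1.le hu1
  have e2 : Real.exp (-(2 * (1 / L2))) ≤ x2 := exp_neg_two_le hp2.le hu2
  set x : V → ℝ := fun v => if κ v then x1 else x2 with hx
  -- weight of an exponent
  have hw : ∀ d ∈ ExpF κ D1 D2, 1 ≤ Real.exp (2 * D1 / L1 + 2 * D2 / L2) * ∏ v, x v ^ d v := by
    intro d hd
    rw [mem_ExpF] at hd
    have h1 : ∏ v, x v ^ d v = x1 ^ (∑ v ∈ univ.filter κ, d v) *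
        x2 ^ (∑ v ∈ univ.filter (fun v => ¬ κ v), d v) := by
      rw [← Finset.prod_filter_mul_prod_filter_not univ κ, ← Finset.prod_pow_eq_pow_sum,
        ← Finset.prod_pow_eq_pow_sum]
      congr 1
      · apply Finset.prod_congr rfl
        intro v hv
        simp only [mem_filter, mem_univ, true_and] at hv
        simp [hx, hv]
      · apply Finset.prod_congr rfl
        intro v hv
        simp only [mem_filter, mem_univ, true_and] at hv
        simp [hx, hv]
    rw [h1]
    have h2 : x1 ^ D1 ≤ x1 ^ (∑ v ∈ univ.filter κ, d v) :=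
      pow_le_pow_of_le_one hx1p.le hx1l.le hd.1
    have h3 : x2 ^ D2 ≤ x2 ^ (∑ v ∈ univ.filter (fun v => ¬ κ v), d v) :=
      pow_le_pow_of_le_one hx2p.le hx2l.le hd.2
    have h4 : Real.exp (-(2 * D1 / L1)) ≤ x1 ^ D1 := by
      calc Real.exp (-(2 * D1 / L1)) = (Real.exp (-(2 * (1 / L1)))) ^ D1 := by
            rw [← Real.exp_nat_mul]
            congr 1
            ring
        _ ≤ x1 ^ D1 := pow_le_pow_left₀ (Real.exp_nonneg _) e1 _
    have h5 : Real.exp (-(2 * D2 / L2)) ≤ x2 ^ D2 := by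
      calc Real.exp (-(2 * D2 / L2)) = (Real.exp (-(2 * (1 / L2)))) ^ D2 := by
            rw [← Real.exp_nat_mul]
            congr 1
            ring
        _ ≤ x2 ^ D2 := pow_le_pow_left₀ (Real.exp_nonneg _) e2 _
    calc (1 : ℝ) = Real.exp (2 * D1 / L1 + 2 * D2 / L2) *
          (Real.exp (-(2 * D1 / L1)) * Real.exp (-(2 * D2 / L2))) := by
          rw [← Real.exp_add, ← Real.exp_add]
          symm
          rw [Real.exp_eq_one_iff]
          ring
      _ ≤ _ := by
          apply mul_le_mul_of_nonneg_left _ (Real.exp_nonneg _)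
          exact mul_le_mul (h4.trans h2) (h5.trans h3) (Real.exp_nonneg _) (by positivity)
  have hgeo : ∀ v, ∑ j ∈ range (D1 + D2 + 1), x v ^ j ≤ (1 - x v)⁻¹ := by
    intro v
    have h0 : 0 ≤ x v := by
      simp only [hx]
      split_ifs <;> linarith
    have h1 : x v < 1 := by
      simp only [hx]
      split_ifs <;> linarith
    have h2 := geom_sum_mul_neg (x v) (D1 + D2 + 1)
    rw [← one_div, le_div_iff₀ (by linarith), h2]
    have := pow_nonneg h0 (D1 + D2 + 1)
    linarith
  calc ((ExpF κ D1 D2).card : ℝ) = ∑ d ∈ ExpF κ D1 D2, (1 : ℝ) := by simp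
    _ ≤ ∑ d ∈ ExpF κ D1 D2, Real.exp (2 * D1 / L1 + 2 * D2 / L2) * ∏ v, x v ^ d v :=
        Finset.sum_le_sum hw
    _ ≤ ∑ d ∈ Fintype.piFinset (fun _ : V => range (D1 + D2 + 1)),
          Real.exp (2 * D1 / L1 + 2 * D2 / L2) * ∏ v, x v ^ d v := by
        apply Finset.sum_le_sum_of_subset_of_nonneg (filter_subset _ _)
        intro d _ _
        have : ∀ v, 0 ≤ x v := by
          intro v
          simp only [hx]
          split_ifs <;> linarith
        exact mul_nonneg (Real.exp_nonneg _) (Finset.prod_nonneg (fun v _ => pow_nonneg (this v) _))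
    _ = Real.exp (2 * D1 / L1 + 2 * D2 / L2) * ∏ v, ∑ j ∈ range (D1 + D2 + 1), x v ^ j := by
        rw [← Finset.mul_sum, Finset.prod_univ_sum]
    _ ≤ Real.exp (2 * D1 / L1 + 2 * D2 / L2) * ∏ v, (1 - x v)⁻¹ := by
        apply mul_le_mul_of_nonneg_left _ (Real.exp_nonneg _)
        apply Finset.prod_le_prod
        · intro v _
          apply Finset.sum_nonneg
          intro j _
          apply pow_nonneg
          simp only [hx]
          split_ifs <;> linarith
        · intro v _
          exact hgeo v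
    _ = _ := by
        rw [← Finset.prod_filter_mul_prod_filter_not univ κ]
        have f1 : ∏ v ∈ univ.filter κ, (1 - x v)⁻¹ = L1 ^ (univ.filter κ).card := by
          rw [Finset.prod_congr rfl (g := fun _ => L1), Finset.prod_const]
          intro v hv
          simp only [mem_filter, mem_univ, true_and] at hv
          simp [hx, hv, hx1]
        have f2 : ∏ v ∈ univ.filter (fun v => ¬ κ v), (1 - x v)⁻¹ =
            L2 ^ (univ.filter (fun v => ¬ κ v)).card := by
          rw [Finset.prod_congr rfl (g := fun _ => L2), Finset.prod_const]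
          intro v hv
          simp only [mem_filter, mem_univ, true_and] at hv
          simp [hx, hv, hx2]
        rw [f1, f2]
        ring

/-- **Zero pattern count.** -/
theorem pattern_count {P : Type} [DecidableEq P] (𝒩 : Finset (Finset P)) (pt : Finset P → (V → ℝ))
    (f : P → (V → ℝ) → ℝ) (hf : ∀ N ∈ 𝒩, ∀ p, f p (pt N) ≠ 0 ↔ p ∈ N) (D1 D2 S : ℕ)
    (hD : ∀ p, f p ∈ PS κ D1 D2) (hS : ∀ N ∈ 𝒩, N.card ≤ S) :
    𝒩.card ≤ (ExpF κ (S * D1) (S * D2)).card := by
  classical
  set g : 𝒩 → (V → ℝ) → ℝ := fun N => ∏ p ∈ N.1, f p with hg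
  have hgm : ∀ N : 𝒩, g N ∈ PS κ (S * D1) (S * D2) := by
    intro N
    have h1 := PS_prod κ N.1 f (fun _ => D1) (fun _ => D2) (fun p _ => hD p)
    rw [Finset.sum_const, Finset.sum_const, smul_eq_mul, smul_eq_mul] at h1
    exact PS_mono κ (Nat.mul_le_mul_right _ (hS N.1 N.2)) (Nat.mul_le_mul_right _ (hS N.1 N.2)) h1
  have hli : LinearIndependent ℝ g := by
    rw [linearIndependent_iff']
    intro s c hc i hi
    by_contra hne
    obtain ⟨N, hN, hmin⟩ := Finset.exists_min_image (s.filter (fun i => c i ≠ 0))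
      (fun i => i.1.card) ⟨i, by simp [hi, hne]⟩
    simp only [mem_filter] at hN hmin
    have h1 := congrFun hc (pt N.1)
    simp only [Finset.sum_apply, Pi.smul_apply, smul_eq_mul, Pi.zero_apply] at h1
    rw [Finset.sum_eq_single_of_mem N hN.1] at h1
    · have h2 : g N (pt N.1) ≠ 0 := by
        simp only [hg, Finset.prod_apply]
        apply Finset.prod_ne_zero_iff.2
        intro p hp
        exact (hf N.1 N.2 p).2 hp
      exact mul_ne_zero hN.2 h2 h1
    · intro N' hN' hne'
      by_cases hc' : c N' = 0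
      · rw [hc', zero_mul]
      · have h3 := hmin N' ⟨hN', hc'⟩
        have h4 : ¬ N'.1 ⊆ N.1 := by
          intro hsub
          have := Finset.eq_of_subset_of_card_le hsub h3
          exact hne' (Subtype.ext this)
        obtain ⟨p, hp, hp'⟩ := Finset.not_subset.1 h4
        have h5 : g N' (pt N.1) = 0 := by
          simp only [hg, Finset.prod_apply]
          apply Finset.prod_eq_zero hp
          by_contra hcon
          exact hp' ((hf N.1 N.2 p).1 hcon)
        rw [h5, mul_zero]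
  have h1 := finrank_span_eq_card hli
  have hfin := PS_fin κ (S * D1) (S * D2)
  have h2 : Submodule.span ℝ (Set.range g) ≤ PS κ (S * D1) (S * D2) := by
    rw [Submodule.span_le]
    rintro _ ⟨N, rfl⟩
    exact hgm N
  have h3 := Submodule.finrank_mono h2
  rw [h1, Fintype.card_coe] at h3
  exact h3.trans (PS_finrank κ _ _)

end Pool.Agent.W133
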