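import Mathlib

set_option autoImplicit false
set_option linter.unusedSectionVars false

/-! The counting inequality for touched pairs. -/

namespace Pool.Agent.W133

open Finset

theorem edge_ineq (bx1 bx2 by1 by2 cx cy zx zy n1 n2 : Prop) [Decidable bx1] [Decidable bx2]
    [Decidable by1] [Decidable by2] [Decidable cx] [Decidable cy] [Decidable zx] [Decidable zy]
    [Decidable n1] [Decidable n2] (h : cx → bx1 ∧ bx2 ∧ zx) (h' : cy → by1 ∧ by2 ∧ zy) :
    (if ((n1 ∧ (bx1 ∨ by2)) ∨ (n2 ∧ (by1 ∨ bx2))) then 1 else 0) +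
      (if n1 ∧ bx1 ∧ by2 then 1 else 0) + (if n2 ∧ by1 ∧ bx2 then 1 else 0) ≤
    (if n1 ∨ n2 then ((if cx then 1 else 0) + (if bx1 ∧ ¬ cx then 1 else 0) +
      (if bx2 ∧ ¬ cx then 1 else 0) + (if cx ∧ zy then 1 else 0)) else 0) +
    (if n2 ∨ n1 then ((if cy then 1 else 0) + (if by1 ∧ ¬ cy then 1 else 0) +
      (if by2 ∧ ¬ cy then 1 else 0) + (if cy ∧ zx then 1 else 0)) else 0) := by
  by_cases hx : cx
  · obtain ⟨a1, a2, a3⟩ := h hx
    by_cases hy : cy
    · obtain ⟨b1, b2, b3⟩ := h' hy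
      by_cases g1 : n1 <;> by_cases g2 : n2 <;> simp_all
    · by_cases g1 : n1 <;> by_cases g2 : n2 <;> by_cases g3 : by1 <;> by_cases g4 : by2 <;>
        simp_all
  · by_cases hy : cy
    · obtain ⟨b1, b2, b3⟩ := h' hy
      by_cases g1 : n1 <;> by_cases g2 : n2 <;> by_cases g3 : bx1 <;> by_cases g4 : bx2 <;>
        simp_all <;> split_ifs <;> omega
    · by_cases g1 : n1 <;> by_cases g2 : n2 <;> by_cases g3 : bx1 <;> by_cases g4 : bx2 <;>
        by_cases g5 : by1 <;> by_cases g6 : by2 <;> simp_all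

variable {U : Type} [Fintype U] [DecidableEq U]

theorem sum_tri (e : U → ℕ) (he : Function.Injective e) (f : U → U → ℕ) :
    ∑ x, ∑ y, f x y = ∑ x, f x x + ∑ x, ∑ y, (if e x < e y then f x y + f y x else 0) := by
  have h1 : ∑ x, ∑ y, (if e x < e y then f x y + f y x else 0) =
      ∑ x, ∑ y, (if e x < e y then f x y else 0) + ∑ x, ∑ y, (if e y < e x then f x y else 0) := by
    have h2 : ∑ x, ∑ y, (if e y < e x then f x y else 0) =
        ∑ x, ∑ y, (if e x < e y then f y x else 0) := by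
      rw [Finset.sum_comm]
    rw [h2, ← Finset.sum_add_distrib]
    apply Finset.sum_congr rfl
    intro x _
    rw [← Finset.sum_add_distrib]
    apply Finset.sum_congr rfl
    intro y _
    split_ifs <;> simp
  have h3 : ∑ x, f x x = ∑ x, ∑ y, (if x = y then f x y else 0) := by
    apply Finset.sum_congr rfl
    intro x _
    rw [Finset.sum_ite_eq]
    simp
  rw [h1, h3, ← Finset.sum_add_distrib, ← Finset.sum_add_distrib]
  apply Finset.sum_congr rfl
  intro x _
  rw [← Finset.sum_add_distrib, ← Finset.sum_add_distrib]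
  apply Finset.sum_congr rfl
  intro y _
  rcases lt_trichotomy (e x) (e y) with h | h | h
  · have : x ≠ y := fun hc => by rw [hc] at h; exact lt_irrefl _ h
    simp [h, this, h.not_gt]
  · have := he h
    subst this
    simp
  · have : x ≠ y := fun hc => by rw [hc] at h; exact lt_irrefl _ h
    simp [h, this, h.not_gt]

/-- closed degree in the union graph of a pattern -/
def wt (N : Finset (U × U)) (i : U) : ℕ := (univ.filter (fun j => (i, j) ∈ N ∨ (j, i) ∈ N)).card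

/-- open neighbourhood in the union graph of a pattern -/
def nb (N : Finset (U × U)) (i : U) : Finset U :=
  univ.filter (fun j => j ≠ i ∧ ((i, j) ∈ N ∨ (j, i) ∈ N))

/-- number of unordered off-diagonal pairs that occur in `T` -/
def dl (e : U → ℕ) (T : Finset (U × U)) : Finset (U × U) :=
  univ.filter (fun p => e p.1 < e p.2 ∧ (p ∈ T ∨ (p.2, p.1) ∈ T))

/-- touched part of a pattern -/
def tch (B1 B2 : Finset U) (N : Finset (U × U)) : Finset (U × U) :=
  N.filter (fun p => p.1 ∈ B1 ∨ p.2 ∈ B2)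

/-- core part of a pattern -/
def kor (B1 B2 : Finset U) (N : Finset (U × U)) : Finset (U × U) :=
  N.filter (fun p => p.1 ∈ B1 ∧ p.2 ∈ B2)

theorem wt_eq (N : Finset (U × U)) (i : U) (hi : (i, i) ∈ N) : wt N i = (nb N i).card + 1 := by
  unfold wt nb
  have : (univ.filter (fun j => (i, j) ∈ N ∨ (j, i) ∈ N)) =
      insert i (univ.filter (fun j => j ≠ i ∧ ((i, j) ∈ N ∨ (j, i) ∈ N))) := by
    ext j
    simp only [mem_filter, mem_univ, true_and, mem_insert]
    constructor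
    · intro h
      by_cases hj : j = i
      · exact Or.inl hj
      · exact Or.inr ⟨hj, h⟩
    · rintro (rfl | h)
      · exact Or.inl hi
      · exact h.2
  rw [this, card_insert_of_notMem (by simp)]

theorem count_ineq (e : U → ℕ) (he : Function.Injective e) (N : Finset (U × U))
    (hN : ∀ i, (i, i) ∈ N) (Z C B1 B2 : Finset U) (hCZ : C ⊆ Z) (hC1 : C ⊆ B1) (hC2 : C ⊆ B2) :
    (dl e (tch B1 B2 N)).card + (kor B1 B2 N).card ≤
      ∑ i ∈ C, (wt N i + (Z ∩ nb N i).card) + ∑ i ∈ B1 \ C, wt N i + ∑ i ∈ B2 \ C, wt N i := by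
  classical
  -- left side as a double sum
  have hL : (dl e (tch B1 B2 N)).card + (kor B1 B2 N).card = ∑ x, ∑ y,
      ((if e x < e y ∧ (((x, y) ∈ N ∧ (x ∈ B1 ∨ y ∈ B2)) ∨ ((y, x) ∈ N ∧ (y ∈ B1 ∨ x ∈ B2)))
        then 1 else 0) + (if (x, y) ∈ N ∧ x ∈ B1 ∧ y ∈ B2 then 1 else 0)) := by
    have e1 : (dl e (tch B1 B2 N)).card = ∑ x, ∑ y,
        (if e x < e y ∧ (((x, y) ∈ N ∧ (x ∈ B1 ∨ y ∈ B2)) ∨ ((y, x) ∈ N ∧ (y ∈ B1 ∨ x ∈ B2)))
        then 1 else 0) := by
      rw [← Finset.sum_product', card_eq_sum_ones]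
      unfold dl tch
      rw [Finset.sum_filter, ← Finset.univ_product_univ]
      apply Finset.sum_congr rfl
      rintro ⟨x, y⟩ _
      simp only [mem_filter]
    have e2 : (kor B1 B2 N).card = ∑ x, ∑ y, (if (x, y) ∈ N ∧ x ∈ B1 ∧ y ∈ B2 then 1 else 0) := by
      rw [← Finset.sum_product', card_eq_sum_ones]
      unfold kor
      rw [← Finset.sum_filter]
      apply Finset.sum_congr _ (fun _ _ => rfl)
      ext p
      simp only [mem_filter, mem_product, mem_univ, true_and]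
    rw [e1, e2, ← Finset.sum_add_distrib]
    apply Finset.sum_congr rfl
    intro x _
    rw [← Finset.sum_add_distrib]
  have hR : ∑ i ∈ C, (wt N i + (Z ∩ nb N i).card) + ∑ i ∈ B1 \ C, wt N i + ∑ i ∈ B2 \ C, wt N i =
      ∑ x, ∑ y, ((if x = y then ((if x ∈ C then 1 else 0) + (if x ∈ B1 ∧ ¬ x ∈ C then 1 else 0) +
      (if x ∈ B2 ∧ ¬ x ∈ C then 1 else 0)) else 0) + (if y ≠ x ∧ ((x, y) ∈ N ∨ (y, x) ∈ N) then
        ((if x ∈ C then 1 else 0) + (if x ∈ B1 ∧ ¬ x ∈ C then 1 else 0) +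
      (if x ∈ B2 ∧ ¬ x ∈ C then 1 else 0) + (if x ∈ C ∧ y ∈ Z then 1 else 0)) else 0)) := by
    have e1 : ∀ x, ∑ y, ((if x = y then ((if x ∈ C then 1 else 0) + (if x ∈ B1 ∧ ¬ x ∈ C then 1 else 0) +
      (if x ∈ B2 ∧ ¬ x ∈ C then 1 else 0)) else 0) + (if y ≠ x ∧ ((x, y) ∈ N ∨ (y, x) ∈ N) then
        ((if x ∈ C then 1 else 0) + (if x ∈ B1 ∧ ¬ x ∈ C then 1 else 0) +
      (if x ∈ B2 ∧ ¬ x ∈ C then 1 else 0) + (if x ∈ C ∧ y ∈ Z then 1 else 0)) else 0)) =
        (if x ∈ C then wt N x + (Z ∩ nb N x).card else 0) + (if x ∈ B1 ∧ ¬ x ∈ C then wt N x else 0)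
        + (if x ∈ B2 ∧ ¬ x ∈ C then wt N x else 0) := by
      intro x
      rw [Finset.sum_add_distrib, Finset.sum_ite_eq, if_pos (mem_univ _), ← Finset.sum_filter]
      have e2 : univ.filter (fun y => y ≠ x ∧ ((x, y) ∈ N ∨ (y, x) ∈ N)) = nb N x := rfl
      rw [e2, Finset.sum_add_distrib, Finset.sum_const, smul_eq_mul, wt_eq N x (hN x)]
      have e3 : ∑ y ∈ nb N x, (if x ∈ C ∧ y ∈ Z then 1 else 0) =
          if x ∈ C then (Z ∩ nb N x).card else 0 := by
        split_ifs with hx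
        · rw [card_eq_sum_ones, inter_comm, ← Finset.filter_mem_eq_inter, Finset.sum_filter]
          apply Finset.sum_congr rfl
          intro y _
          simp [hx]
        · simp [hx]
      rw [e3]
      split_ifs <;> ring
    rw [Finset.sum_congr rfl (fun x _ => e1 x)]
    have c5 : ∀ f g h : U → ℕ, ∑ x, (f x + g x + h x) = ∑ x, f x + ∑ x, g x + ∑ x, h x := by
      intro f g h
      rw [Finset.sum_add_distrib, Finset.sum_add_distrib]
    rw [c5]
    have c1 : ∀ (D : Finset U) (g : U → ℕ), ∑ x, (if x ∈ D then g x else 0) = ∑ x ∈ D, g x := by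
      intro D g
      rw [← Finset.sum_filter]
      congr 1
      ext x
      simp
    have c2 := c1 C (fun i => wt N i + (Z ∩ nb N i).card)
    have c3 := c1 (B1 \ C) (fun i => wt N i)
    have c4 := c1 (B2 \ C) (fun i => wt N i)
    simp only [mem_sdiff] at c3 c4
    rw [c2, c3, c4]
  rw [hL, hR]
  rw [sum_tri e he (fun x y => ((if e x < e y ∧ (((x, y) ∈ N ∧ (x ∈ B1 ∨ y ∈ B2)) ∨
    ((y, x) ∈ N ∧ (y ∈ B1 ∨ x ∈ B2))) then 1 else 0) +
    (if (x, y) ∈ N ∧ x ∈ B1 ∧ y ∈ B2 then 1 else 0)))]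
  rw [sum_tri e he (fun x y => ((if x = y then ((if x ∈ C then 1 else 0) +
      (if x ∈ B1 ∧ ¬ x ∈ C then 1 else 0) +
      (if x ∈ B2 ∧ ¬ x ∈ C then 1 else 0)) else 0) + (if y ≠ x ∧ ((x, y) ∈ N ∨ (y, x) ∈ N) then
        ((if x ∈ C then 1 else 0) + (if x ∈ B1 ∧ ¬ x ∈ C then 1 else 0) +
      (if x ∈ B2 ∧ ¬ x ∈ C then 1 else 0) + (if x ∈ C ∧ y ∈ Z then 1 else 0)) else 0)))]
  apply Nat.add_le_add
  · apply Finset.sum_le_sum
    intro x _
    by_cases h1 : x ∈ C
    · simp [h1, hC1 h1, hC2 h1]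
      split_ifs <;> omega
    · by_cases h2 : x ∈ B1 <;> by_cases h3 : x ∈ B2 <;> simp [h1, h2, h3]
      split_ifs <;> omega
  · apply Finset.sum_le_sum
    intro x _
    apply Finset.sum_le_sum
    intro y _
    by_cases hxy : e x < e y
    · have hne : x ≠ y := fun hc => by rw [hc] at hxy; exact lt_irrefl _ hxy
      have hne' : y ≠ x := hne.symm
      have hlt : ¬ e y < e x := hxy.not_gt
      have := edge_ineq (x ∈ B1) (x ∈ B2) (y ∈ B1) (y ∈ B2) (x ∈ C) (y ∈ C) (x ∈ Z) (y ∈ Z)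
        ((x, y) ∈ N) ((y, x) ∈ N) (fun h => ⟨hC1 h, hC2 h, hCZ h⟩) (fun h => ⟨hC1 h, hC2 h, hCZ h⟩)
      simp only [hxy, hlt, if_true, true_and, false_and, if_false, zero_add, hne, hne', ne_eq,
        not_false_eq_true]
      omega
    · simp only [hxy, if_false]
      exact le_rfl

end Pool.Agent.W133
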