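import Mathlib
import Pool.Agent.H478R3.Borsuk.Inter

set_option autoImplicit false
set_option linter.unusedSectionVars false

/-! Weighted matroid intersection (potentials), for rank functions on finite types. -/

namespace Pool.Agent.W133

open Finset Pool.Agent.H478R3.Borsuk

variable {α : Type} [DecidableEq α]

theorem rf_union_card {r : Finset α → ℕ} (h : IsRF r) (A B : Finset α) :
    r (A ∪ B) ≤ r A + B.card := by
  induction B using Finset.induction_on with
  | empty => simp
  | insert e B he ih =>
    rw [union_insert, card_insert_of_notMem he]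
    have := h.ins e (A ∪ B)
    omega

theorem rf_card {r : Finset α → ℕ} (h : IsRF r) (A : Finset α) : r A ≤ A.card := by
  have := rf_union_card h ∅ A
  rw [empty_union, h.empty] at this
  omega

theorem rf_indep_inter {r : Finset α → ℕ} (h : IsRF r) (S Y : Finset α) (hS : r S = S.card) :
    r (S ∩ Y) = (S ∩ Y).card := by
  have h1 := rf_union_card h (S ∩ Y) (S \ Y)
  have e0 : S ∩ Y ∪ S \ Y = S := by
    ext x
    simp only [mem_union, mem_inter, mem_sdiff]
    tauto
  rw [e0] at h1
  have h2 := rf_card h (S ∩ Y)
  have h3 := Finset.card_inter_add_card_sdiff S Y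
  omega

/-- pull back along a map -/
theorem IsRF.pull {β : Type} [DecidableEq β] {r : Finset α → ℕ} (h : IsRF r) (φ : β → α) :
    IsRF (fun S : Finset β => r (S.image φ)) where
  empty := by simp [h.empty]
  mono := fun A B hAB => h.mono _ _ (image_subset_image hAB)
  ins := by
    intro e A
    rw [image_insert]
    exact h.ins _ _
  sub := by
    intro A B
    rw [image_union]
    have h1 := h.sub (A.image φ) (B.image φ)
    have h2 := h.mono _ _ (image_inter_subset (f := φ) A B)
    omega

variable [Fintype α]

/-- strict sublevel set -/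
def lt (q : α → ℕ) (t : ℕ) : Finset α := univ.filter (fun e => q e < t)

/-- value of the minimum weight base -/
def mb (r : Finset α → ℕ) (k : ℕ) (W : ℕ) (q : α → ℕ) : ℤ :=
  ∑ t ∈ range W, ((k : ℤ) - r (lt q (t + 1)))

/-- rank function of the matroid of minimum weight bases -/
def rq (r : Finset α → ℕ) (W : ℕ) (q : α → ℕ) (X : Finset α) : ℕ :=
  ∑ t ∈ range (W + 1), (r (lt q t ∪ X.filter (fun e => q e = t)) - r (lt q t))

theorem lt_zero (q : α → ℕ) : lt q 0 = ∅ := by
  simp [lt]

theorem lt_top (q : α → ℕ) (W : ℕ) (hW : ∀ e, q e ≤ W) : lt q (W + 1) = univ := by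
  ext e
  have := hW e
  simp only [lt, mem_filter, mem_univ, true_and, iff_true]
  omega

theorem rq_isRF {r : Finset α → ℕ} (h : IsRF r) (W : ℕ) (q : α → ℕ) : IsRF (rq r W q) where
  empty := by
    unfold rq
    apply Finset.sum_eq_zero
    intro t _
    simp
  mono := by
    intro A B hAB
    unfold rq
    apply Finset.sum_le_sum
    intro t _
    have := h.mono (lt q t ∪ A.filter (fun e => q e = t)) (lt q t ∪ B.filter (fun e => q e = t))
      (union_subset_union_right (filter_subset_filter _ hAB))
    omega
  ins := by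
    intro e A
    unfold rq
    calc ∑ t ∈ range (W + 1), (r (lt q t ∪ (insert e A).filter (fun e => q e = t)) - r (lt q t))
        ≤ ∑ t ∈ range (W + 1), ((r (lt q t ∪ A.filter (fun e => q e = t)) - r (lt q t))
            + if q e = t then 1 else 0) := by
          apply Finset.sum_le_sum
          intro t _
          by_cases hq : q e = t
          · rw [filter_insert, if_pos hq, if_pos hq, union_insert]
            have := h.ins e (lt q t ∪ A.filter (fun e => q e = t))
            omega
          · rw [filter_insert, if_neg hq, if_neg hq, add_zero]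
      _ ≤ _ := by
          rw [Finset.sum_add_distrib]
          have : ∑ t ∈ range (W + 1), (if q e = t then 1 else 0) ≤ 1 := by
            rw [Finset.sum_ite_eq]
            split_ifs <;> simp
          omega
  sub := by
    intro A B
    unfold rq
    rw [← Finset.sum_add_distrib, ← Finset.sum_add_distrib]
    apply Finset.sum_le_sum
    intro t _
    have h1 := h.sub (lt q t ∪ A.filter (fun e => q e = t)) (lt q t ∪ B.filter (fun e => q e = t))
    have e1 : (lt q t ∪ A.filter (fun e => q e = t)) ∪ (lt q t ∪ B.filter (fun e => q e = t))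
        = lt q t ∪ (A ∪ B).filter (fun e => q e = t) := by
      ext x
      simp only [mem_union, mem_filter]
      tauto
    have e2 : (lt q t ∪ A.filter (fun e => q e = t)) ∩ (lt q t ∪ B.filter (fun e => q e = t))
        = lt q t ∪ (A ∩ B).filter (fun e => q e = t) := by
      ext x
      simp only [mem_union, mem_filter, mem_inter]
      tauto
    rw [e1, e2] at h1
    have g : ∀ X : Finset α, r (lt q t) ≤ r (lt q t ∪ X.filter (fun e => q e = t)) :=
      fun X => h.mono _ _ subset_union_left
    have g1 := g (A ∪ B)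
    have g2 := g (A ∩ B)
    have g3 := g A
    have g4 := g B
    omega

theorem lt_succ (q : α → ℕ) (t : ℕ) : lt q t ⊆ lt q (t + 1) := by
  intro e he
  simp only [lt, mem_filter, mem_univ, true_and] at he ⊢
  omega

/-- extending the range does not change the value -/
theorem mb_succ {r : Finset α → ℕ} {k W : ℕ} {q : α → ℕ} (hk : r univ = k) (hW : ∀ e, q e ≤ W) :
    mb r k (W + 1) q = mb r k W q := by
  unfold mb
  rw [Finset.sum_range_succ, lt_top q W hW, hk]
  simp

/-- update of potentials -/
theorem mb_update {r : Finset α → ℕ} (h : IsRF r) {k W : ℕ} {q : α → ℕ} (hk : r univ = k)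
    (hW : ∀ e, q e ≤ W) (X : Finset α) :
    mb r k (W + 1) (fun e => q e + if e ∈ X then 0 else 1) = mb r k W q + k - rq r W q X := by
  rw [← mb_succ hk hW]
  unfold mb
  have e0 : ∀ t, lt (fun e => q e + if e ∈ X then 0 else 1) (t + 1)
      = lt q t ∪ X.filter (fun e => q e = t) := by
    intro t
    ext e
    simp only [lt, mem_filter, mem_univ, true_and, mem_union]
    by_cases he : e ∈ X
    · simp only [he, if_true, true_and]
      omega
    · simp only [he, if_false, false_and, or_false]
      omega
  have e1 : (rq r W q X : ℤ) = ∑ t ∈ range (W + 1),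
      ((r (lt q t ∪ X.filter (fun e => q e = t)) : ℤ) - r (lt q t)) := by
    unfold rq
    push_cast
    apply Finset.sum_congr rfl
    intro t _
    rw [Nat.cast_sub (h.mono _ _ subset_union_left)]
  have e2 : ∑ t ∈ range (W + 1), ((r (lt q (t + 1)) : ℤ) - r (lt q t)) = k := by
    rw [Finset.sum_range_sub (fun t => (r (lt q t) : ℤ)), lt_top q W hW, lt_zero, h.empty, hk]
    simp
  have e3 : ∑ t ∈ range (W + 1), ((k : ℤ) - r (lt (fun e => q e + if e ∈ X then 0 else 1) (t + 1)))
      = ∑ t ∈ range (W + 1), ((k : ℤ) - r (lt q (t + 1)))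
        + ∑ t ∈ range (W + 1), ((r (lt q (t + 1)) : ℤ) - r (lt q t))
        - ∑ t ∈ range (W + 1), ((r (lt q t ∪ X.filter (fun e => q e = t)) : ℤ) - r (lt q t)) := by
    rw [← Finset.sum_add_distrib, ← Finset.sum_sub_distrib]
    apply Finset.sum_congr rfl
    intro t _
    rw [e0 t]
    ring
  rw [e3, e2, ← e1]

theorem filter_eq_sdiff_card (S : Finset α) (q : α → ℕ) (t : ℕ) :
    (S.card : ℤ) - ((S ∩ lt q (t + 1)).card : ℤ) = ∑ e ∈ S, if t < q e then 1 else 0 := by
  have h1 := Finset.card_inter_add_card_sdiff S (lt q (t + 1))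
  have h2 : S \ lt q (t + 1) = S.filter (fun e => t < q e) := by
    ext e
    simp only [mem_sdiff, lt, mem_filter, mem_univ, true_and]
    constructor
    · rintro ⟨a, b⟩
      exact ⟨a, by omega⟩
    · rintro ⟨a, b⟩
      exact ⟨a, by omega⟩
  rw [h2] at h1
  rw [Finset.sum_ite, Finset.sum_const_zero, add_zero, Finset.sum_const, nsmul_eq_mul, mul_one]
  omega

theorem sum_levels (S : Finset α) (q : α → ℕ) (W : ℕ) (hW : ∀ e, q e ≤ W) :
    ∑ t ∈ range W, ((S.card : ℤ) - ((S ∩ lt q (t + 1)).card : ℤ)) = ∑ e ∈ S, (q e : ℤ) := by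
  simp_rw [filter_eq_sdiff_card]
  rw [Finset.sum_comm]
  apply Finset.sum_congr rfl
  intro e _
  rw [← Finset.sum_filter, Finset.sum_const, nsmul_eq_mul, mul_one]
  have : (range W).filter (fun t => t < q e) = range (q e) := by
    ext t
    simp only [mem_filter, mem_range]
    have := hW e
    omega
  rw [this, card_range]

/-- every base costs at least `mb` -/
theorem mb_le {r : Finset α → ℕ} (h : IsRF r) {k W : ℕ} {q : α → ℕ}
    (hW : ∀ e, q e ≤ W) (S : Finset α) (hS : S.card = k) (hr : r S = k) :
    mb r k W q ≤ ∑ e ∈ S, (q e : ℤ) := by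
  rw [← sum_levels S q W hW]
  unfold mb
  apply Finset.sum_le_sum
  intro t _
  have h1 := rf_indep_inter h S (lt q (t + 1)) (by rw [hS, hr])
  have h2 := h.mono (S ∩ lt q (t + 1)) (lt q (t + 1)) inter_subset_right
  rw [hS]
  omega

/-- a base of the matroid of minimum weight bases is a base of minimum weight -/
theorem mb_eq {r : Finset α → ℕ} (h : IsRF r) {k W : ℕ} {q : α → ℕ} (hk : r univ = k)
    (hW : ∀ e, q e ≤ W) (S : Finset α) (hS : S.card = k) (hr : rq r W q S = k) :
    r S = k ∧ ∑ e ∈ S, (q e : ℤ) = mb r k W q := by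
  set St : ℕ → Finset α := fun t => S.filter (fun e => q e = t) with hSt
  have hf : ∀ t, r (lt q t ∪ St t) - r (lt q t) ≤ (St t).card := by
    intro t
    have := rf_union_card h (lt q t) (St t)
    omega
  have hcard : ∑ t ∈ range (W + 1), (St t).card = k := by
    rw [← hS]
    rw [Finset.card_eq_sum_card_fiberwise (f := q) (t := range (W + 1))]
    intro e _
    simp only [coe_range, Set.mem_Iio]
    exact Nat.lt_succ_of_le (hW e)
  have hf' : ∀ t ∈ range (W + 1), r (lt q t ∪ St t) - r (lt q t) = (St t).card := by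
    have := (Finset.sum_eq_sum_iff_of_le (s := range (W + 1)) (fun t _ => hf t)).1 (by
      rw [hcard]; exact hr)
    exact this
  have hsub : ∀ t, lt q t ∪ St t ⊆ lt q (t + 1) := by
    intro t e he
    simp only [lt, hSt, mem_union, mem_filter, mem_univ, true_and] at he ⊢
    omega
  have hg : ∀ t, r (lt q t ∪ St t) - r (lt q t) ≤ r (lt q (t + 1)) - r (lt q t) := by
    intro t
    have := h.mono _ _ (hsub t)
    omega
  have htel : ∀ w, ∑ t ∈ range w, (r (lt q (t + 1)) - r (lt q t)) = r (lt q w) := by
    intro w
    induction w with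
    | zero => simp [lt_zero, h.empty]
    | succ w ih =>
      rw [Finset.sum_range_succ, ih]
      have := h.mono _ _ (lt_succ q w)
      omega
  have hg' : ∀ t ∈ range (W + 1), r (lt q t ∪ St t) - r (lt q t) = r (lt q (t + 1)) - r (lt q t) := by
    have := (Finset.sum_eq_sum_iff_of_le (s := range (W + 1)) (fun t _ => hg t)).1 (by
      rw [htel, lt_top q W hW, hk]; exact hr)
    exact this
  have hlt : ∀ w, w ≤ W + 1 → r (lt q w) = (S ∩ lt q w).card := by
    intro w hw
    rw [← htel w]
    have e1 : ∑ t ∈ range w, (r (lt q (t + 1)) - r (lt q t)) = ∑ t ∈ range w, (St t).card := by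
      apply Finset.sum_congr rfl
      intro t ht
      have ht' : t ∈ range (W + 1) := by
        simp only [mem_range] at ht ⊢
        omega
      rw [← hg' t ht', hf' t ht']
    rw [e1, Finset.card_eq_sum_card_fiberwise (f := q) (t := range w)]
    · apply Finset.sum_congr rfl
      intro t ht
      congr 1
      ext e
      simp only [hSt, mem_filter, mem_inter, lt, mem_univ, true_and]
      simp only [mem_range] at ht
      constructor
      · rintro ⟨a, b⟩
        exact ⟨⟨a, by omega⟩, b⟩
      · rintro ⟨⟨a, _⟩, b⟩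
        exact ⟨a, b⟩
    · intro e he
      simp only [coe_inter, lt, coe_filter, mem_univ, true_and, Set.mem_inter_iff, mem_coe,
        Set.mem_ofPred_eq] at he
      simp only [coe_range, Set.mem_Iio]
      exact he.2
  constructor
  · have key : ∀ w, w ≤ W + 1 → r (lt q w) ≤ r (S ∩ lt q w) := by
      intro w
      induction w with
      | zero => intro _; simp [lt_zero]
      | succ w ih =>
        intro hw
        have h1 := ih (by omega)
        have h2 := h.sub (lt q w) (S ∩ lt q (w + 1))
        have e1 : lt q w ∪ (S ∩ lt q (w + 1)) = lt q w ∪ St w := by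
          ext e
          simp only [hSt, lt, mem_union, mem_filter, mem_inter, mem_univ, true_and]
          constructor
          · rintro (a | ⟨a, b⟩)
            · exact Or.inl a
            · rcases Nat.lt_or_ge (q e) w with c | c
              · exact Or.inl c
              · exact Or.inr ⟨a, by omega⟩
          · rintro (a | ⟨a, b⟩)
            · exact Or.inl a
            · exact Or.inr ⟨a, by omega⟩
        have e2 : lt q w ∩ (S ∩ lt q (w + 1)) = S ∩ lt q w := by
          ext e
          simp only [lt, mem_filter, mem_inter, mem_univ, true_and]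
          constructor
          · rintro ⟨a, b, _⟩
            exact ⟨b, a⟩
          · rintro ⟨a, b⟩
            exact ⟨b, a, by omega⟩
        rw [e1, e2] at h2
        have h3 := hg' w (by simp only [mem_range]; omega)
        have h4 := h.mono (lt q w) (lt q w ∪ St w) subset_union_left
        have h5 := h.mono _ _ (lt_succ q w)
        omega
    have h1 := key (W + 1) le_rfl
    rw [lt_top q W hW, hk, inter_univ] at h1
    have h2 := rf_card h S
    omega
  · rw [← sum_levels S q W hW]
    unfold mb
    apply Finset.sum_congr rfl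
    intro t ht
    simp only [mem_range] at ht
    rw [hlt (t + 1) (by omega), hS]

/-- **Weighted matroid intersection**: an optimal common base with a certificate. -/
theorem wmi (r1 r2 : Finset α → ℕ) (h1 : IsRF r1) (h2 : IsRF r2) (k : ℕ) (hk1 : r1 univ = k)
    (hk2 : r2 univ = k) (c : α → ℕ) (S0 : Finset α) (hS0 : S0.card = k) (h01 : r1 S0 = k)
    (h02 : r2 S0 = k) :
    ∃ (K W : ℕ) (q1 q2 : α → ℕ) (S : Finset α), (∀ e, q1 e + q2 e = c e + K) ∧
      (∀ e, q1 e ≤ W) ∧ (∀ e, q2 e ≤ W) ∧ S.card = k ∧ r1 S = k ∧ r2 S = k ∧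
      ∑ e ∈ S, (c e : ℤ) + K * k = mb r1 k W q1 + mb r2 k W q2 := by
  have main : ∀ (N : ℕ) (K W : ℕ) (q1 q2 : α → ℕ), (∀ e, q1 e + q2 e = c e + K) →
      (∀ e, q1 e ≤ W) → (∀ e, q2 e ≤ W) →
      ∑ e ∈ S0, (c e : ℤ) + K * k ≤ mb r1 k W q1 + mb r2 k W q2 + N →
      ∃ (K W : ℕ) (q1 q2 : α → ℕ) (S : Finset α), (∀ e, q1 e + q2 e = c e + K) ∧
        (∀ e, q1 e ≤ W) ∧ (∀ e, q2 e ≤ W) ∧ S.card = k ∧ r1 S = k ∧ r2 S = k ∧
        ∑ e ∈ S, (c e : ℤ) + K * k = mb r1 k W q1 + mb r2 k W q2 := by
    intro N
    induction N with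
    | zero =>
      intro K W q1 q2 hq hW1 hW2 hN
      refine ⟨K, W, q1, q2, S0, hq, hW1, hW2, hS0, h01, h02, ?_⟩
      have g1 := mb_le h1 hW1 S0 hS0 h01
      have g2 := mb_le h2 hW2 S0 hS0 h02
      have g3 : ∑ e ∈ S0, (q1 e : ℤ) + ∑ e ∈ S0, (q2 e : ℤ) = ∑ e ∈ S0, (c e : ℤ) + K * k := by
        rw [← Finset.sum_add_distrib, ← hS0]
        have : ∀ e ∈ S0, (q1 e : ℤ) + q2 e = c e + K := fun e _ => by exact_mod_cast hq e
        rw [Finset.sum_congr rfl this, Finset.sum_add_distrib, Finset.sum_const, nsmul_eq_mul]
        ring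
      push_cast at hN
      linarith
    | succ N ih =>
      intro K W q1 q2 hq hW1 hW2 hN
      by_cases hX : ∀ X ⊆ (univ : Finset α), k ≤ rq r1 W q1 X + rq r2 W q2 (univ \ X)
      · obtain ⟨I, _, hI1, hI2, hIk⟩ := inter (univ : Finset α).card univ (rq r1 W q1) (rq r2 W q2) rfl
          (rq_isRF h1 W q1) (rq_isRF h2 W q2) k hX
        have hle : rq r1 W q1 I ≤ k := by
          have g1 := (rq_isRF h1 W q1).mono I univ (subset_univ _)
          have g2 : rq r1 W q1 univ ≤ k := by
            have e1 := mb_update h1 hk1 hW1 (univ : Finset α)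
            have e2 : mb r1 k (W + 1) (fun e => q1 e + if e ∈ (univ : Finset α) then 0 else 1)
                = mb r1 k W q1 := by
              rw [← mb_succ hk1 hW1]
              congr 1
              funext e
              simp
            rw [e2] at e1
            omega
          omega
        have hIc : I.card = k := by omega
        obtain ⟨a1, a2⟩ := mb_eq h1 hk1 hW1 I hIc (by omega)
        obtain ⟨b1, b2⟩ := mb_eq h2 hk2 hW2 I hIc (by omega)
        refine ⟨K, W, q1, q2, I, hq, hW1, hW2, hIc, a1, b1, ?_⟩
        rw [← a2, ← b2, ← Finset.sum_add_distrib]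
        have : ∀ e ∈ I, (q1 e : ℤ) + q2 e = c e + K := fun e _ => by exact_mod_cast hq e
        rw [Finset.sum_congr rfl this, Finset.sum_add_distrib, Finset.sum_const, nsmul_eq_mul, hIc]
        ring
      · push Not at hX
        obtain ⟨X, _, hX⟩ := hX
        have u1 := mb_update h1 hk1 hW1 X
        have u2 := mb_update h2 hk2 hW2 (univ \ X)
        refine ih (K + 1) (W + 1) (fun e => q1 e + if e ∈ X then 0 else 1)
          (fun e => q2 e + if e ∈ univ \ X then 0 else 1) ?_ ?_ ?_ ?_
        · intro e
          have := hq e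
          by_cases he : e ∈ X
          · simp [he]
            omega
          · simp [he]
            omega
        · intro e
          have := hW1 e
          split_ifs <;> omega
        · intro e
          have := hW2 e
          split_ifs <;> omega
        · rw [u1, u2]
          push_cast at hN ⊢
          have hX' : ((rq r1 W q1 X : ℤ) + rq r2 W q2 (univ \ X)) + 1 ≤ k := by exact_mod_cast hX
          linarith
  obtain ⟨W, hW⟩ : ∃ W : ℕ, ∀ e, c e ≤ W := ⟨∑ e, c e, fun e =>
    Finset.single_le_sum (fun i _ => Nat.zero_le _) (mem_univ e)⟩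
  refine main (∑ e ∈ S0, (c e : ℤ) - (mb r1 k W c + mb r2 k W (fun _ => 0))).toNat 0 W c (fun _ => 0)
    (by simp) hW (by simp) ?_
  have := Int.self_le_toNat (∑ e ∈ S0, (c e : ℤ) - (mb r1 k W c + mb r2 k W (fun _ => 0)))
  push_cast
  linarith

end Pool.Agent.W133
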