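import Mathlib
import Pool.Agent.W133.WMI

set_option autoImplicit false
set_option linter.unusedSectionVars false

/-! Cheap pairs of bases of two matroids with a common part in a given set `Z`. -/

namespace Pool.Agent.W133

open Finset Pool.Agent.H478R3.Borsuk

theorem exists_base {α : Type} [DecidableEq α] {r : Finset α → ℕ} (h : IsRF r) (A : Finset α) :
    ∃ B ⊆ A, r B = B.card ∧ r B = r A := by
  induction A using Finset.induction_on with
  | empty => exact ⟨∅, subset_refl _, by simp [h.empty], rfl⟩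
  | insert e A he ih =>
    obtain ⟨B, hB, h1, h2⟩ := ih
    have heB : e ∉ B := fun h => he (hB h)
    by_cases hc : r (insert e B) = r B + 1
    · refine ⟨insert e B, insert_subset_insert e hB, ?_, ?_⟩
      · rw [card_insert_of_notMem heB, hc, h1]
      · have h3 := h.mono _ _ (insert_subset_insert e hB)
        have h4 := h.ins e A
        omega
    · refine ⟨B, hB.trans (subset_insert _ _), h1, ?_⟩
      have h3 := h.ins e B
      have h4 := h.mono B (insert e B) (subset_insert _ _)
      have h5 := h.sub A (insert e B)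
      have e1 : A ∪ insert e B = insert e A := by
        rw [union_insert, union_eq_left.2 hB]
      have e2 : A ∩ insert e B = B := by
        ext x
        simp only [mem_inter, mem_insert]
        constructor
        · rintro ⟨hx, rfl | hx'⟩
          · exact absurd hx he
          · exact hx'
        · intro hx
          exact ⟨hB hx, Or.inr hx⟩
      rw [e1, e2] at h5
      have h6 := h.mono A (insert e A) (subset_insert _ _)
      omega

theorem mb_shift {α : Type} [DecidableEq α] [Fintype α] {r : Finset α → ℕ} (h : IsRF r) {k : ℕ}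
    (hk : r univ = k) (M : ℕ) : ∀ {W : ℕ} {q : α → ℕ}, (∀ e, q e ≤ W) →
    mb r k (W + M) (fun e => q e + M) = mb r k W q + M * k := by
  induction M with
  | zero => intro W q hW; simp
  | succ M ih =>
    intro W q hW
    have h1 := ih hW
    have h2 := mb_update (q := fun e => q e + M) (W := W + M) h hk
      (fun e => by have := hW e; omega) ∅
    have h3 : rq r (W + M) (fun e => q e + M) ∅ = 0 := (rq_isRF h _ _).empty
    rw [h3, h1] at h2
    simp only [notMem_empty, if_false] at h2
    have e1 : (fun e => q e + (M + 1)) = (fun e => q e + M + 1) := by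
      funext e; ring
    rw [e1, show W + (M + 1) = W + M + 1 by ring, h2]
    push_cast
    ring

variable {U : Type} [Fintype U] [DecidableEq U]

theorem mb_bound {β : Type} [DecidableEq β] [Fintype β] {r : Finset U → ℕ} (h : IsRF r) {a : ℕ}
    (ha : r univ = a) (φ : β → U) (q : β → ℕ) (W W' α : ℕ)
    (hα : (lt q (α + W + 1)).image φ = univ) :
    mb (fun S => r (S.image φ)) a W' q ≤ α * a +
      ∑ s ∈ range W, ((a : ℤ) - r ((lt q (α + s + 1)).image φ)) := by
  set G : ℕ → ℤ := fun t => (a : ℤ) - r ((lt q (t + 1)).image φ) with hG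
  have hG0 : ∀ t, 0 ≤ G t := by
    intro t
    have := h.mono ((lt q (t + 1)).image φ) univ (subset_univ _)
    simp only [hG]
    omega
  have hGa : ∀ t, G t ≤ a := by
    intro t
    simp only [hG]
    omega
  have hmon : ∀ s t, s ≤ t → lt q s ⊆ lt q t := by
    intro s t hst e he
    simp only [lt, mem_filter, mem_univ, true_and] at he ⊢
    omega
  have hGz : ∀ t, α + W ≤ t → G t ≤ 0 := by
    intro t ht
    have h1 : lt q (α + W + 1) ⊆ lt q (t + 1) := hmon _ _ (by omega)
    have h2 := h.mono _ _ (image_subset_image (f := φ) h1)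
    rw [hα, ha] at h2
    simp only [hG]
    omega
  have e1 : mb (fun S => r (S.image φ)) a W' q ≤ ∑ t ∈ range (α + W + W'), G t := by
    unfold mb
    apply Finset.sum_le_sum_of_subset_of_nonneg
    · intro t ht
      simp only [mem_range] at ht ⊢
      omega
    · intro t _ _
      exact hG0 t
  have e2 : ∑ t ∈ range (α + W + W'), G t = ∑ t ∈ range α, G t + ∑ s ∈ range W, G (α + s)
      + ∑ t ∈ range W', G (α + W + t) := by
    rw [Finset.sum_range_add, Finset.sum_range_add]
  have e3 : ∑ t ∈ range α, G t ≤ α * a := by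
    calc ∑ t ∈ range α, G t ≤ ∑ t ∈ range α, (a : ℤ) := Finset.sum_le_sum (fun t _ => hGa t)
      _ = α * a := by rw [Finset.sum_const, card_range, nsmul_eq_mul]
  have e4 : ∑ t ∈ range W', G (α + W + t) ≤ 0 :=
    Finset.sum_nonpos (fun t _ => hGz _ (by omega))
  have e5 : ∑ s ∈ range W, G (α + s) =
      ∑ s ∈ range W, ((a : ℤ) - r ((lt q (α + s + 1)).image φ)) := rfl
  linarith

/-- **Cheap pairs of bases** with a common part inside `Z`. -/
theorem pair_bases [Nonempty U] {r1 r2 : Finset U → ℕ} (h1 : IsRF r1) (h2 : IsRF r2) {a : ℕ}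
    (ha1 : r1 univ = a) (ha2 : r2 univ = a) (w c : U → ℕ) (Z : Finset U) (W : ℕ)
    (hW : ∀ i, w i ≤ W) :
    ∃ (C B1 B2 : Finset U) (A1 A2 : ℕ → Finset U), C ⊆ Z ∧ C ⊆ B1 ∧ C ⊆ B2 ∧ B1.card = a ∧
      B2.card = a ∧ r1 B1 = a ∧ r2 B2 = a ∧ (∀ i s, w i ≤ s → i ∈ A1 s) ∧
      (∀ i s, w i ≤ s → i ∈ A2 s) ∧
      (∀ i ∈ Z, ∀ s t, i ∉ A1 s → i ∉ A2 t → s + t + 2 ≤ c i) ∧ Monotone A1 ∧ Monotone A2 ∧
      ((∑ i ∈ C, c i + ∑ i ∈ B1 \ C, w i + ∑ i ∈ B2 \ C, w i : ℕ) : ℤ) ≤
        ∑ s ∈ range W, ((a : ℤ) - r1 (A1 s)) + ∑ s ∈ range W, ((a : ℤ) - r2 (A2 s)) := by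
  classical
  let φ1 : ({i // i ∈ Z} ⊕ (U × U)) → U := Sum.elim (fun i => i.1) (fun p => p.1)
  let φ2 : ({i // i ∈ Z} ⊕ (U × U)) → U := Sum.elim (fun i => i.1) (fun p => p.2)
  let cost : ({i // i ∈ Z} ⊕ (U × U)) → ℕ := Sum.elim (fun i => c i.1) (fun p => w p.1 + w p.2)
  have hsurj1 : Function.Surjective φ1 := fun i => ⟨Sum.inr (i, i), rfl⟩
  have hsurj2 : Function.Surjective φ2 := fun i => ⟨Sum.inr (i, i), rfl⟩
  -- initial common base
  obtain ⟨D1, _, hD1, hD1'⟩ := exists_base h1 (univ : Finset U)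
  obtain ⟨D2, _, hD2, hD2'⟩ := exists_base h2 (univ : Finset U)
  have hc1 : D1.card = a := by omega
  have hc2 : D2.card = a := by omega
  let σ : D1 ≃ D2 := Finset.equivOfCardEq (by omega)
  let S0 : Finset ({i // i ∈ Z} ⊕ (U × U)) := D1.attach.image (fun i => Sum.inr (i.1, (σ i).1))
  have hinj : Function.Injective (fun i : D1 => (Sum.inr (i.1, (σ i).1) : {i // i ∈ Z} ⊕ (U × U))) := by
    intro i j hij
    simp only [Sum.inr.injEq, Prod.mk.injEq] at hij
    exact Subtype.ext hij.1
  have hS0c : S0.card = a := by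
    rw [Finset.card_image_of_injective _ hinj, card_attach, hc1]
  have hS01 : S0.image φ1 = D1 := by
    ext x
    simp only [S0, mem_image, mem_attach, true_and]
    constructor
    · rintro ⟨e, ⟨i, rfl⟩, rfl⟩
      exact i.2
    · intro hx
      exact ⟨_, ⟨⟨x, hx⟩, rfl⟩, rfl⟩
  have hS02 : S0.image φ2 = D2 := by
    ext x
    simp only [S0, mem_image, mem_attach, true_and]
    constructor
    · rintro ⟨e, ⟨i, rfl⟩, rfl⟩
      exact (σ i).2
    · intro hx
      refine ⟨_, ⟨σ.symm ⟨x, hx⟩, rfl⟩, ?_⟩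
      change (σ (σ.symm ⟨x, hx⟩)).1 = x
      rw [Equiv.apply_symm_apply]
  obtain ⟨K, W', q1, q2, S, hq, hW1, hW2, hSc, hS1, hS2, hcost⟩ := wmi
    (fun S => r1 (S.image φ1)) (fun S => r2 (S.image φ2)) (IsRF.pull h1 φ1) (IsRF.pull h2 φ2) a
    (by simp only [Finset.image_univ_of_surjective hsurj1, ha1])
    (by simp only [Finset.image_univ_of_surjective hsurj2, ha2]) cost S0 hS0c
    (by simp only [hS01]; omega) (by simp only [hS02]; omega)
  -- the two bases
  have hB1le : (S.image φ1).card ≤ a := hSc ▸ card_image_le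
  have hB2le : (S.image φ2).card ≤ a := hSc ▸ card_image_le
  have hB1ge := rf_card h1 (S.image φ1)
  have hB2ge := rf_card h2 (S.image φ2)
  have hB1c : (S.image φ1).card = a := by omega
  have hB2c : (S.image φ2).card = a := by omega
  have hinj1 : Set.InjOn φ1 ↑S := Finset.card_image_iff.1 (by rw [hB1c, hSc])
  have hinj2 : Set.InjOn φ2 ↑S := Finset.card_image_iff.1 (by rw [hB2c, hSc])
  -- offsets
  have hex : ∃ α1 α2 : ℕ, α1 + α2 = K + 2 * W ∧ (∀ i, ∃ j, q1 (Sum.inr (i, j)) + W ≤ w i + α1) ∧
      (∀ j, ∃ i, q2 (Sum.inr (i, j)) + W ≤ w j + α2) := by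
    have hj : ∀ i, ∃ j, ∀ j', q1 (Sum.inr (i, j)) ≤ q1 (Sum.inr (i, j')) := by
      intro i
      obtain ⟨j, _, hj⟩ := Finset.exists_min_image (univ : Finset U) (fun j => q1 (Sum.inr (i, j)))
        univ_nonempty
      exact ⟨j, fun j' => hj j' (mem_univ _)⟩
    choose jj hjj using hj
    obtain ⟨i0, _, hi0⟩ := Finset.exists_max_image (univ : Finset U)
      (fun i => (q1 (Sum.inr (i, jj i)) : ℤ) - w i) univ_nonempty
    have hw0 := hW i0
    refine ⟨q1 (Sum.inr (i0, jj i0)) + W - w i0, K + 2 * W - (q1 (Sum.inr (i0, jj i0)) + W - w i0),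
      ?_, ?_, ?_⟩
    · have := hq (Sum.inr (i0, jj i0))
      simp only [cost, Sum.elim_inr] at this
      have := hW (jj i0)
      omega
    · intro i
      refine ⟨jj i, ?_⟩
      have := hi0 i (mem_univ _)
      omega
    · intro j
      refine ⟨i0, ?_⟩
      have := hjj i0 j
      have h3 := hq (Sum.inr (i0, j))
      simp only [cost, Sum.elim_inr] at h3
      have := hW j
      omega
  obtain ⟨α1, α2, hα, hα1, hα2⟩ := hex
  let A1 : ℕ → Finset U := fun s => (lt (fun e => q1 e + W) (α1 + s + 1)).image φ1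
  let A2 : ℕ → Finset U := fun s => (lt (fun e => q2 e + W) (α2 + s + 1)).image φ2
  have hA1 : ∀ i s, w i ≤ s → i ∈ A1 s := by
    intro i s hs
    obtain ⟨j, hj⟩ := hα1 i
    refine mem_image.2 ⟨Sum.inr (i, j), ?_, rfl⟩
    simp only [lt, mem_filter, mem_univ, true_and]
    omega
  have hA2 : ∀ i s, w i ≤ s → i ∈ A2 s := by
    intro i s hs
    obtain ⟨j, hj⟩ := hα2 i
    refine mem_image.2 ⟨Sum.inr (j, i), ?_, rfl⟩
    simp only [lt, mem_filter, mem_univ, true_and]
    omega
  refine ⟨univ.filter (fun i => ∃ h : i ∈ Z, Sum.inl ⟨i, h⟩ ∈ S), S.image φ1, S.image φ2, A1, A2,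
    ?_, ?_, ?_, hB1c, hB2c, hS1, hS2, hA1, hA2, ?_, ?_, ?_, ?_⟩
  · intro i hi
    simp only [mem_filter, mem_univ, true_and] at hi
    exact hi.1
  · intro i hi
    simp only [mem_filter, mem_univ, true_and] at hi
    obtain ⟨hz, hi⟩ := hi
    exact mem_image.2 ⟨_, hi, rfl⟩
  · intro i hi
    simp only [mem_filter, mem_univ, true_and] at hi
    obtain ⟨hz, hi⟩ := hi
    exact mem_image.2 ⟨_, hi, rfl⟩
  · intro i hi s t hs ht
    have g1 : ¬ (q1 (Sum.inl ⟨i, hi⟩) + W < α1 + s + 1) := by
      intro hlt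
      exact hs (mem_image.2 ⟨Sum.inl ⟨i, hi⟩, by simpa [lt] using hlt, rfl⟩)
    have g2 : ¬ (q2 (Sum.inl ⟨i, hi⟩) + W < α2 + t + 1) := by
      intro hlt
      exact ht (mem_image.2 ⟨Sum.inl ⟨i, hi⟩, by simpa [lt] using hlt, rfl⟩)
    have g3 := hq (Sum.inl ⟨i, hi⟩)
    simp only [cost, Sum.elim_inl] at g3
    omega
  · intro s t hst
    refine image_subset_image ?_
    intro e he
    simp only [lt, mem_filter, mem_univ, true_and] at he ⊢
    omega
  · intro s t hst
    refine image_subset_image ?_
    intro e he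
    simp only [lt, mem_filter, mem_univ, true_and] at he ⊢
    omega
  · -- the cost
    have k1 : ∑ e ∈ S, (cost e) = ∑ i ∈ univ.filter (fun i => ∃ h : i ∈ Z, Sum.inl ⟨i, h⟩ ∈ S), c i
        + ∑ i ∈ S.image φ1 \ univ.filter (fun i => ∃ h : i ∈ Z, Sum.inl ⟨i, h⟩ ∈ S), w i
        + ∑ i ∈ S.image φ2 \ univ.filter (fun i => ∃ h : i ∈ Z, Sum.inl ⟨i, h⟩ ∈ S), w i := by
      set C := univ.filter (fun i => ∃ h : i ∈ Z, Sum.inl ⟨i, h⟩ ∈ S) with hC
      set L := S.filter (fun e => e.isLeft) with hL
      set R := S.filter (fun e => ¬ e.isLeft) with hR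
      have hCL : C = L.image φ1 := by
        ext i
        simp only [hC, hL, mem_filter, mem_univ, true_and, mem_image]
        constructor
        · rintro ⟨hz, hi⟩
          exact ⟨_, ⟨hi, rfl⟩, rfl⟩
        · rintro ⟨e, ⟨he, hl⟩, rfl⟩
          rcases e with ⟨i, hi⟩ | p
          · exact ⟨hi, he⟩
          · simp at hl
      have hCL2 : L.image φ2 = L.image φ1 := by
        apply Finset.image_congr
        intro e he
        simp only [hL, coe_filter, Set.mem_ofPred_eq] at he
        rcases e with ⟨i, hi⟩ | p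
        · rfl
        · simp at he
      have hR1 : S.image φ1 \ C = R.image φ1 := by
        ext i
        simp only [mem_sdiff, mem_image]
        constructor
        · rintro ⟨⟨e, he, rfl⟩, hn⟩
          refine ⟨e, ?_, rfl⟩
          simp only [hR, mem_filter]
          refine ⟨he, ?_⟩
          intro hl
          apply hn
          rw [hCL]
          exact mem_image.2 ⟨e, by simp [hL, he, hl], rfl⟩
        · rintro ⟨e, he, rfl⟩
          simp only [hR, mem_filter] at he
          refine ⟨⟨e, he.1, rfl⟩, ?_⟩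
          rw [hCL]
          intro hmem
          obtain ⟨e', he', heq⟩ := mem_image.1 hmem
          simp only [hL, mem_filter] at he'
          have := hinj1 he'.1 he.1 heq
          subst this
          exact he.2 he'.2
      have hR2 : S.image φ2 \ C = R.image φ2 := by
        ext i
        simp only [mem_sdiff, mem_image]
        constructor
        · rintro ⟨⟨e, he, rfl⟩, hn⟩
          refine ⟨e, ?_, rfl⟩
          simp only [hR, mem_filter]
          refine ⟨he, ?_⟩
          intro hl
          apply hn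
          rw [hCL, ← hCL2]
          exact mem_image.2 ⟨e, by simp [hL, he, hl], rfl⟩
        · rintro ⟨e, he, rfl⟩
          simp only [hR, mem_filter] at he
          refine ⟨⟨e, he.1, rfl⟩, ?_⟩
          rw [hCL, ← hCL2]
          intro hmem
          obtain ⟨e', he', heq⟩ := mem_image.1 hmem
          simp only [hL, mem_filter] at he'
          have := hinj2 he'.1 he.1 heq
          subst this
          exact he.2 he'.2
      rw [hR1, hR2, hCL]
      rw [Finset.sum_image (fun x hx y hy => hinj1 (by simp only [hL, coe_filter, Set.mem_ofPred_eq] at hx; exact hx.1)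
        (by simp only [hL, coe_filter, Set.mem_ofPred_eq] at hy; exact hy.1)),
        Finset.sum_image (fun x hx y hy => hinj1 (by simp only [hR, coe_filter, Set.mem_ofPred_eq] at hx; exact hx.1)
        (by simp only [hR, coe_filter, Set.mem_ofPred_eq] at hy; exact hy.1)),
        Finset.sum_image (fun x hx y hy => hinj2 (by simp only [hR, coe_filter, Set.mem_ofPred_eq] at hx; exact hx.1)
        (by simp only [hR, coe_filter, Set.mem_ofPred_eq] at hy; exact hy.1))]
      rw [add_assoc, ← Finset.sum_add_distrib, ← Finset.sum_filter_add_sum_filter_not S (fun e => e.isLeft)]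
      congr 1
      · apply Finset.sum_congr rfl
        intro e he
        simp only [mem_filter] at he
        rcases e with ⟨i, hi⟩ | p
        · rfl
        · simp at he
      · apply Finset.sum_congr rfl
        intro e he
        simp only [mem_filter] at he
        rcases e with ⟨i, hi⟩ | p
        · simp at he
        · rfl
    have k2 := mb_shift (IsRF.pull h1 φ1) (k := a)
      (by simp only [Finset.image_univ_of_surjective hsurj1, ha1]) W hW1
    have k3 := mb_shift (IsRF.pull h2 φ2) (k := a)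
      (by simp only [Finset.image_univ_of_surjective hsurj2, ha2]) W hW2
    have k4 := mb_bound h1 ha1 φ1 (fun e => q1 e + W) W (W' + W) α1 (by
      rw [Finset.eq_univ_iff_forall]
      intro i
      exact hA1 i W (hW i))
    have k5 := mb_bound h2 ha2 φ2 (fun e => q2 e + W) W (W' + W) α2 (by
      rw [Finset.eq_univ_iff_forall]
      intro i
      exact hA2 i W (hW i))
    rw [k2] at k4
    rw [k3] at k5
    rw [← k1]
    push_cast
    have hα' : (α1 : ℤ) * a + α2 * a = K * a + 2 * (W * a) := by
      have : ((α1 + α2 : ℕ) : ℤ) = ((K + 2 * W : ℕ) : ℤ) := by rw [hα]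
      push_cast at this
      rw [← add_mul, this]
      ring
    change _ ≤ ∑ s ∈ range W, ((a : ℤ) - r1 ((lt (fun e => q1 e + W) (α1 + s + 1)).image φ1))
      + ∑ s ∈ range W, ((a : ℤ) - r2 ((lt (fun e => q2 e + W) (α2 + s + 1)).image φ2))
    linarith

end Pool.Agent.W133
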