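import Mathlib
import Pool.Agent.W133.PairBases

set_option autoImplicit false
set_option linter.unusedSectionVars false

/-! Linear algebra for balanced matrices. -/

namespace Pool.Agent.W133

open Finset Pool.Agent.H478R3.Borsuk Module

section LR

variable {U V : Type} [DecidableEq U] [AddCommGroup V] [Module ℝ V] [FiniteDimensional ℝ V]

/-- linear rank of a subfamily -/
noncomputable def lr (v : U → V) (X : Finset U) : ℕ :=
  finrank ℝ (Submodule.span ℝ (v '' (X : Set U)))

theorem lr_isRF (v : U → V) : IsRF (lr v) where
  empty := by simp [lr]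
  mono := by
    intro A B hAB
    exact Submodule.finrank_mono (Submodule.span_mono (Set.image_mono (by exact_mod_cast hAB)))
  ins := by
    intro e A
    unfold lr
    rw [coe_insert, Set.image_insert_eq, Submodule.span_insert]
    have h1 := Submodule.finrank_add_le_finrank_add_finrank (Submodule.span ℝ {v e})
      (Submodule.span ℝ (v '' (A : Set U)))
    have h2 : finrank ℝ (Submodule.span ℝ {v e}) ≤ 1 := by
      by_cases h : v e = 0
      · rw [h, Submodule.span_zero_singleton, finrank_bot]
        omega
      · rw [finrank_span_singleton h]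
    omega
  sub := by
    intro A B
    unfold lr
    have h1 := Submodule.finrank_sup_add_finrank_inf_eq (Submodule.span ℝ (v '' (A : Set U)))
      (Submodule.span ℝ (v '' (B : Set U)))
    have e1 : Submodule.span ℝ (v '' ((A ∪ B : Finset U) : Set U)) =
        Submodule.span ℝ (v '' (A : Set U)) ⊔ Submodule.span ℝ (v '' (B : Set U)) := by
      rw [coe_union, Set.image_union, Submodule.span_union]
    have e2 : Submodule.span ℝ (v '' ((A ∩ B : Finset U) : Set U)) ≤
        Submodule.span ℝ (v '' (A : Set U)) ⊓ Submodule.span ℝ (v '' (B : Set U)) := by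
      apply le_inf
      · exact Submodule.span_mono (Set.image_mono (by
          rw [coe_inter]; exact Set.inter_subset_left))
      · exact Submodule.span_mono (Set.image_mono (by
          rw [coe_inter]; exact Set.inter_subset_right))
    have h2 := Submodule.finrank_mono e2
    rw [e1]
    omega

end LR

variable {U : Type} [Fintype U] [DecidableEq U]

theorem lr_eq_rank (A : Matrix U U ℝ) {ι : Type} [Fintype ι] (b : ι → U) (X : Finset U)
    (hb : Set.range b = (X : Set U)) : (A.submatrix b id).rank = lr (fun i => A i) X := by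
  have e : Set.range (A.submatrix b id).row = (fun i => A i) '' (X : Set U) := by
    rw [← hb, ← Set.range_comp]
    rfl
  rw [Matrix.rank_eq_finrank_span_row, e]
  rfl

theorem lr_univ (A : Matrix U U ℝ) : lr (fun i => A i) univ = A.rank := by
  rw [← lr_eq_rank A id univ (by simp)]
  rfl

theorem lr_row_ge (A : Matrix U U ℝ) (X : Finset U) :
    (A.submatrix (Subtype.val : X → U) (Subtype.val : X → U)).rank ≤ lr (fun i => A i) X := by
  rw [← lr_eq_rank A (Subtype.val : X → U) X (by simp)]
  exact Matrix.rank_submatrix_le (A.submatrix (Subtype.val : X → U) id) id (Subtype.val : X → U)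

theorem lr_col_univ (A : Matrix U U ℝ) : lr (fun i => A.transpose i) univ = A.rank := by
  rw [lr_univ, Matrix.rank_transpose]

theorem lr_col_ge (A : Matrix U U ℝ) (X : Finset U) :
    (A.submatrix (Subtype.val : X → U) (Subtype.val : X → U)).rank ≤
      lr (fun i => A.transpose i) X := by
  have h := lr_row_ge A.transpose X
  have e : A.transpose.submatrix (Subtype.val : X → U) (Subtype.val : X → U) =
    (A.submatrix (Subtype.val : X → U) (Subtype.val : X → U)).transpose := rfl
  rw [e, Matrix.rank_transpose] at h
  exact h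

theorem nbhd_rank (A : Matrix U U ℝ) (i : U) (X : Finset U) (hii : A i i ≠ 0)
    (hX : ∀ j ∈ X, A i j = 0) :
    (A.submatrix (Subtype.val : X → U) (Subtype.val : X → U)).rank + 1 ≤ A.rank := by
  set S := Submodule.span ℝ (Set.range A.row) with hS
  set f : (U → ℝ) →ₗ[ℝ] (X → ℝ) := LinearMap.funLeft ℝ ℝ (Subtype.val : X → U) with hf
  have h1 := LinearMap.finrank_range_add_finrank_ker (f.domRestrict S)
  rw [LinearMap.range_domRestrict, hS, Submodule.map_span, ← Matrix.rank_eq_finrank_span_row,
    ← Set.range_comp] at h1
  have h2 : (A.submatrix id (Subtype.val : X → U)).rank =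
      finrank ℝ (Submodule.span ℝ (Set.range (f ∘ A.row))) := by
    rw [Matrix.rank_eq_finrank_span_row]
    rfl
  rw [← h2] at h1
  have h3 : 1 ≤ finrank ℝ (f.domRestrict (Submodule.span ℝ (Set.range A.row))).ker := by
    rw [Submodule.one_le_finrank_iff]
    intro hbot
    have hmem : (⟨A.row i, Submodule.subset_span ⟨i, rfl⟩⟩ : Submodule.span ℝ (Set.range A.row)) ∈
        (f.domRestrict (Submodule.span ℝ (Set.range A.row))).ker := by
      rw [LinearMap.mem_ker]
      funext j
      exact hX j.1 j.2
    rw [hbot, Submodule.mem_bot] at hmem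
    have : A.row i = 0 := congrArg Subtype.val hmem
    exact hii (congrFun this i)
  have h4 := Matrix.rank_submatrix_le (A.submatrix id (Subtype.val : X → U))
    (Subtype.val : X → U) id
  have h5 : (A.submatrix id (Subtype.val : X → U)).submatrix (Subtype.val : X → U) id =
    A.submatrix (Subtype.val : X → U) (Subtype.val : X → U) := rfl
  rw [h5] at h4
  omega

/-- bordered matrix -/
def bord (A : Matrix U U ℝ) {a : ℕ} (b1 b2 : Fin a → U) (i j : U) :
    Matrix (Fin a ⊕ Unit) (Fin a ⊕ Unit) ℝ :=
  Matrix.fromBlocks (A.submatrix b1 b2) (Matrix.of fun p _ => A (b1 p) j)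
    (Matrix.of fun _ q => A i (b2 q)) 0

theorem bord_det (A : Matrix U U ℝ) {a : ℕ} (b1 b2 : Fin a → U) (B1 B2 : Finset U)
    (hb1 : Set.range b1 = (B1 : Set U)) (hb2 : Set.range b2 = (B2 : Set U)) (hA : A.rank = a)
    (h1 : lr (fun i => A i) B1 = a) (h2 : lr (fun i => A.transpose i) B2 = a) (i j : U) :
    (bord A b1 b2 i j).det ≠ 0 ↔ A i j ≠ 0 := by
  -- all rows are combinations of the rows of B1
  have hspan : Submodule.span ℝ (Set.range (fun p => A (b1 p))) =
      Submodule.span ℝ (Set.range A.row) := by
    apply Submodule.eq_of_le_of_finrank_eq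
    · apply Submodule.span_mono
      rintro _ ⟨p, rfl⟩
      exact ⟨b1 p, rfl⟩
    · have g1 := lr_eq_rank A b1 B1 hb1
      rw [Matrix.rank_eq_finrank_span_row, h1] at g1
      rw [← Matrix.rank_eq_finrank_span_row, hA]
      exact g1
  have hC : ∀ i, ∃ c : Fin a → ℝ, ∑ p, c p • A (b1 p) = A i := by
    intro i
    have : A.row i ∈ Submodule.span ℝ (Set.range (fun p => A (b1 p))) := by
      rw [hspan]
      exact Submodule.subset_span ⟨i, rfl⟩
    rw [Submodule.mem_span_range_iff_exists_fun] at this
    exact this
  choose C hC using hC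
  set K := A.submatrix b1 b2 with hK
  have hCK : A.submatrix id b2 = (Matrix.of C) * K := by
    ext i q
    rw [Matrix.mul_apply]
    have := congrFun (hC i) (b2 q)
    simp only [Finset.sum_apply, Pi.smul_apply, smul_eq_mul] at this
    simp only [Matrix.submatrix_apply, id, Matrix.of_apply, hK]
    exact this.symm
  have hrk : (A.submatrix id b2).rank = a := by
    have g1 := lr_eq_rank A.transpose b2 B2 hb2
    rw [h2] at g1
    rw [← Matrix.rank_transpose]
    exact g1
  have hKr : K.rank = a := by
    apply le_antisymm
    · have := Matrix.rank_le_card_width K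
      simpa using this
    · have g1 := Matrix.rank_mul_le_right (Matrix.of C) K
      rw [← hCK, hrk] at g1
      exact g1
  have hKu : IsUnit K := by
    rw [← Matrix.linearIndependent_rows_iff_isUnit, linearIndependent_iff_card_eq_finrank_span]
    rw [Matrix.rank_eq_finrank_span_row] at hKr
    rw [Fintype.card_fin]
    exact hKr.symm
  have hKd : IsUnit K.det := (Matrix.isUnit_iff_isUnit_det K).1 hKu
  have : Invertible K := hKu.invertible
  have hCe : Matrix.of C = A.submatrix id b2 * ⅟K := by
    rw [hCK, Matrix.mul_assoc, mul_invOf_self, Matrix.mul_one]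
  have hval : (Matrix.of (fun (_ : Unit) q => A i (b2 q)) * ⅟K *
      Matrix.of (fun p (_ : Unit) => A (b1 p) j)) = Matrix.of (fun _ _ => A i j) := by
    ext x y
    rw [Matrix.mul_apply]
    have e1 : ∀ p, (Matrix.of (fun (_ : Unit) q => A i (b2 q)) * ⅟K) x p = C i p := by
      intro p
      have : C i p = (A.submatrix id b2 * ⅟K) i p := by rw [← hCe]; rfl
      rw [this, Matrix.mul_apply, Matrix.mul_apply]
      rfl
    simp only [e1, Matrix.of_apply]
    have := congrFun (hC i) j
    simp only [Finset.sum_apply, Pi.smul_apply, smul_eq_mul] at this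
    exact this
  unfold bord
  rw [← hK, Matrix.det_fromBlocks₁₁, hval]
  have hd0 : K.det ≠ 0 := hKd.ne_zero
  simp [hd0, Matrix.det_unique]

/-- the densest part of a matrix -/
theorem core_exists (n : ℕ) (hn : 0 < n) (M : Matrix (Fin n) (Fin n) ℝ) :
    ∃ U0 : Finset (Fin n), U0.Nonempty ∧
      (∀ X : Finset U0, X.card * (M.submatrix (Subtype.val : U0 → Fin n)
        (Subtype.val : U0 → Fin n)).rank ≤ U0.card * ((M.submatrix (Subtype.val : U0 → Fin n)
        (Subtype.val : U0 → Fin n)).submatrix (Subtype.val : X → U0) (Subtype.val : X → U0)).rank) ∧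
      n * (M.submatrix (Subtype.val : U0 → Fin n) (Subtype.val : U0 → Fin n)).rank ≤
        U0.card * M.rank := by
  classical
  have : NeZero n := ⟨by omega⟩
  set f : Finset (Fin n) → ℝ := fun X =>
    ((M.submatrix (Subtype.val : X → Fin n) (Subtype.val : X → Fin n)).rank : ℝ) / X.card with hf
  obtain ⟨U0, hU0, hmin⟩ := Finset.exists_min_image
    ((univ : Finset (Finset (Fin n))).filter (fun X => X.Nonempty)) f
    ⟨univ, by simp⟩
  simp only [mem_filter, mem_univ, true_and] at hU0 hmin
  have hc0 : (0 : ℝ) < U0.card := by exact_mod_cast hU0.card_pos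
  have key : ∀ X : Finset (Fin n), X.Nonempty → X.card * (M.submatrix (Subtype.val : U0 → Fin n)
      (Subtype.val : U0 → Fin n)).rank ≤ U0.card * (M.submatrix (Subtype.val : X → Fin n)
        (Subtype.val : X → Fin n)).rank := by
    intro X hX
    have h1 := hmin X hX
    have hcX : (0 : ℝ) < X.card := by exact_mod_cast hX.card_pos
    simp only [hf] at h1
    rw [div_le_div_iff₀ hc0 hcX] at h1
    have h2 : (X.card : ℝ) * (M.submatrix (Subtype.val : U0 → Fin n)
      (Subtype.val : U0 → Fin n)).rank ≤ U0.card * (M.submatrix (Subtype.val : X → Fin n)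
        (Subtype.val : X → Fin n)).rank := by linarith
    exact_mod_cast h2
  refine ⟨U0, hU0, ?_, ?_⟩
  · intro X
    rcases X.eq_empty_or_nonempty with rfl | hX
    · simp
    · have h1 := key (X.map (Function.Embedding.subtype _)) (hX.map)
      rw [card_map] at h1
      refine h1.trans (Nat.mul_le_mul_left _ ?_)
      have he : ∀ x : {x // x ∈ X.map (Function.Embedding.subtype (· ∈ U0))},
          ∃ y : X, y.1.1 = x.1 := by
        rintro ⟨x, hx⟩
        obtain ⟨y, hy, rfl⟩ := mem_map.1 hx
        exact ⟨⟨y, hy⟩, rfl⟩
      choose e he using he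
      have h2 := Matrix.rank_submatrix_le ((M.submatrix (Subtype.val : U0 → Fin n)
        (Subtype.val : U0 → Fin n)).submatrix (Subtype.val : X → U0) (Subtype.val : X → U0)) e e
      refine le_trans (le_of_eq ?_) h2
      congr 1
      ext x y
      simp only [Matrix.submatrix_apply, he]
  · have h1 := key univ univ_nonempty
    rw [card_univ, Fintype.card_fin] at h1
    refine h1.trans (Nat.mul_le_mul_left _ ?_)
    exact Matrix.rank_submatrix_le M _ _

end Pool.Agent.W133
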