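import Mathlib
import Pool.Agent.W133.PairBases

set_option autoImplicit false
set_option linter.unusedSectionVars false

/-! Closures for rank functions, and the defect sum of a monotone family. -/

namespace Pool.Agent.W133

open Finset Pool.Agent.H478R3.Borsuk

variable {U : Type} [Fintype U] [DecidableEq U] {r : Finset U → ℕ}

/-- closure -/
def cl (r : Finset U → ℕ) (X : Finset U) : Finset U := univ.filter (fun x => r (insert x X) = r X)

theorem mem_cl {x : U} {X : Finset U} : x ∈ cl r X ↔ r (insert x X) = r X := by simp [cl]

theorem subset_cl (X : Finset U) : X ⊆ cl r X := by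
  intro x hx
  rw [mem_cl, insert_eq_of_mem hx]

theorem rank_cl (h : IsRF r) (X : Finset U) : r (cl r X) = r X := by
  have key : ∀ Y ⊆ cl r X, r (X ∪ Y) = r X := by
    intro Y
    induction Y using Finset.induction_on with
    | empty => simp
    | insert e Y he ih =>
      intro hY
      have h1 := ih ((subset_insert _ _).trans hY)
      have h2 : r (insert e X) = r X := mem_cl.1 (hY (mem_insert_self _ _))
      have h3 := h.sub (X ∪ Y) (insert e X)
      have e1 : X ∪ Y ∪ insert e X = X ∪ insert e Y := by
        ext x
        simp only [mem_union, mem_insert]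
        tauto
      have h4 : X ⊆ (X ∪ Y) ∩ insert e X :=
        subset_inter subset_union_left (subset_insert _ _)
      have h5 := h.mono _ _ h4
      have h6 := h.mono X (X ∪ insert e Y) subset_union_left
      rw [e1] at h3
      omega
  have := key (cl r X) (subset_refl _)
  rwa [union_eq_right.2 (subset_cl X)] at this

theorem cl_mono (h : IsRF r) {A B : Finset U} (hAB : A ⊆ B) : cl r A ⊆ cl r B := by
  intro x hx
  rw [mem_cl] at hx ⊢
  have h3 := h.sub B (insert x A)
  have e1 : B ∪ insert x A = insert x B := by
    ext y
    simp only [mem_union, mem_insert]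
    constructor
    · rintro (a | rfl | a)
      · exact Or.inr a
      · exact Or.inl rfl
      · exact Or.inr (hAB a)
    · rintro (rfl | a)
      · exact Or.inr (Or.inl rfl)
      · exact Or.inl a
  have h4 : A ⊆ B ∩ insert x A := subset_inter hAB (subset_insert _ _)
  have h5 := h.mono _ _ h4
  have h6 := h.mono B (insert x B) (subset_insert _ _)
  rw [e1] at h3
  omega

theorem cl_eq (h : IsRF r) {A B : Finset U} (hAB : A ⊆ B) (hr : r A = r B) : cl r A = cl r B := by
  apply Subset.antisymm (cl_mono h hAB)
  intro x hx
  rw [mem_cl] at hx ⊢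
  have h1 := h.mono _ _ (insert_subset_insert x hAB)
  have h2 := h.mono A (insert x A) (subset_insert _ _)
  omega

theorem exists_span (h : IsRF r) {L A : Finset U} (hLA : L ⊆ A) :
    ∃ J ⊆ A \ L, J.card = r A - r L ∧ r (L ∪ J) = r A := by
  have hc : IsRF (fun X : Finset U => r (L ∪ X) - r L) := {
    empty := by simp
    mono := by
      intro X Y hXY
      have := h.mono _ _ (union_subset_union_right (s := L) hXY)
      omega
    ins := by
      intro e X
      rw [union_insert]
      have := h.ins e (L ∪ X)
      omega
    sub := by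
      intro X Y
      have h1 := h.sub (L ∪ X) (L ∪ Y)
      have e1 : L ∪ X ∪ (L ∪ Y) = L ∪ (X ∪ Y) := by
        ext x
        simp only [mem_union]
        tauto
      have e2 : (L ∪ X) ∩ (L ∪ Y) = L ∪ (X ∩ Y) := by
        ext x
        simp only [mem_union, mem_inter]
        tauto
      rw [e1, e2] at h1
      have g : ∀ X : Finset U, r L ≤ r (L ∪ X) := fun X => h.mono _ _ subset_union_left
      have g1 := g (X ∪ Y)
      have g2 := g (X ∩ Y)
      have g3 := g X
      have g4 := g Y
      omega }
  obtain ⟨J, hJ, h1, h2⟩ := exists_base hc (A \ L)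
  rw [union_sdiff_of_subset hLA] at h2
  have h3 : r L ≤ r (L ∪ J) := h.mono _ _ subset_union_left
  have h4 := h.mono _ _ hLA
  refine ⟨J, hJ, ?_, ?_⟩
  · omega
  · omega

/-- the defect sum of a monotone family is controlled by exit times -/
theorem defect_sum (h : IsRF r) {a : ℕ} {β : ℝ} (hβ0 : 0 < β)
    (hβ : ∀ X : Finset U, (X.card : ℝ) ≤ β * r X) (hm : (Fintype.card U : ℝ) = β * a)
    (A : ℕ → Finset U) (hA : Monotone A) (w : U → ℕ) (hw : ∀ i s, w i ≤ s → i ∈ A s) (W : ℕ)
    (hW : ∀ i, w i ≤ W) :
    ∃ x : U → ℕ, (∀ i, x i ≤ w i) ∧ (∀ i s, s < x i → i ∉ cl r (A s)) ∧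
      ∑ s ∈ range W, ((a : ℝ) - r (A s)) ≤ (∑ i, (x i : ℝ)) / β := by
  classical
  have hex : ∀ i, ∃ s, i ∈ cl r (A s) := fun i => ⟨w i, subset_cl _ (hw i _ le_rfl)⟩
  refine ⟨fun i => Nat.find (hex i), ?_, ?_, ?_⟩
  · intro i
    exact Nat.find_min' (hex i) (subset_cl _ (hw i _ le_rfl))
  · intro i s hs
    exact Nat.find_min (hex i) hs
  · have e0 : ∀ i s, i ∉ cl r (A s) ↔ s < Nat.find (hex i) := by
      intro i s
      constructor
      · intro hn
        by_contra hc
        push Not at hc
        exact hn (cl_mono h (hA hc) (Nat.find_spec (hex i)))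
      · intro hs
        exact Nat.find_min (hex i) hs
    have e1 : ∀ s, (a : ℝ) - r (A s) ≤ (∑ i : U, if s < Nat.find (hex i) then (1 : ℝ) else 0) / β := by
      intro s
      have h1 := hβ (cl r (A s))
      rw [rank_cl h] at h1
      have h2 : (∑ i : U, if s < Nat.find (hex i) then (1 : ℝ) else 0)
          = Fintype.card U - ((cl r (A s)).card : ℝ) := by
        rw [← Finset.sum_filter, Finset.sum_const, nsmul_eq_mul, mul_one]
        have h3 : (univ.filter (fun i => s < Nat.find (hex i))) = univ \ cl r (A s) := by
          ext i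
          simp only [mem_filter, mem_univ, true_and, mem_sdiff, e0]
        rw [h3]
        have h4 := Finset.card_sdiff_add_card_eq_card (subset_univ (cl r (A s)))
        rw [card_univ] at h4
        have h5 : ((univ \ cl r (A s)).card : ℝ) + (cl r (A s)).card = Fintype.card U := by
          exact_mod_cast h4
        linarith
      rw [h2, le_div_iff₀ hβ0, hm]
      linarith
    calc ∑ s ∈ range W, ((a : ℝ) - r (A s))
        ≤ ∑ s ∈ range W, (∑ i : U, if s < Nat.find (hex i) then (1 : ℝ) else 0) / β :=
          Finset.sum_le_sum (fun s _ => e1 s)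
      _ = (∑ s ∈ range W, ∑ i : U, if s < Nat.find (hex i) then (1 : ℝ) else 0) / β := by
          rw [Finset.sum_div]
      _ = (∑ i, ((Nat.find (hex i) : ℕ) : ℝ)) / β := by
          rw [Finset.sum_comm]
          congr 1
          apply Finset.sum_congr rfl
          intro i _
          rw [← Finset.sum_filter, Finset.sum_const, nsmul_eq_mul, mul_one]
          have h1 : Nat.find (hex i) ≤ W :=
            (Nat.find_min' (hex i) (subset_cl _ (hw i _ le_rfl))).trans (hW i)
          have h2 : (range W).filter (fun s => s < Nat.find (hex i)) = range (Nat.find (hex i)) := by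
            ext s
            simp only [mem_filter, mem_range]
            omega
          rw [h2, card_range]

end Pool.Agent.W133
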