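import Mathlib

set_option autoImplicit false
set_option linter.unusedSectionVars false

/-! Random subsets of a finite type: the first moment method for a good sample. -/

namespace Pool.Agent.W133

open Finset

variable {U : Type} [Fintype U] [DecidableEq U]

/-- binomial weight of a set -/
noncomputable def pw (q : ℝ) (Z : Finset U) : ℝ :=
  (∏ _i ∈ Z, q) * ∏ _i ∈ univ \ Z, (1 - q)

theorem pw_nonneg {q : ℝ} (h0 : 0 ≤ q) (h1 : q ≤ 1) (Z : Finset U) : 0 ≤ pw q Z :=
  mul_nonneg (Finset.prod_nonneg (fun _ _ => h0)) (Finset.prod_nonneg (fun _ _ => by linarith))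

theorem moment (q lam : ℝ) (X : Finset U) :
    ∑ Z : Finset U, pw q Z * lam ^ (Z ∩ X).card = (1 - q + q * lam) ^ X.card := by
  have h := Finset.prod_add (fun i : U => q * (if i ∈ X then lam else 1)) (fun _ => 1 - q) univ
  have e1 : ∏ i : U, (q * (if i ∈ X then lam else 1) + (1 - q)) = (1 - q + q * lam) ^ X.card := by
    rw [← Finset.prod_const]
    rw [← Finset.prod_subset (subset_univ X)]
    · apply Finset.prod_congr rfl
      intro i hi
      rw [if_pos hi]
      ring
    · intro i _ hi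
      rw [if_neg hi]
      ring
  rw [e1] at h
  rw [h, Finset.powerset_univ]
  apply Finset.sum_congr rfl
  intro Z _
  unfold pw
  rw [Finset.prod_mul_distrib, Finset.prod_ite, Finset.prod_const_one, mul_one,
    Finset.prod_const (lam)]
  have e2 : Z.filter (fun i => i ∈ X) = Z ∩ X := by
    ext i
    simp
  rw [e2]
  ring

theorem pw_sum (q : ℝ) : ∑ Z : Finset U, pw q Z = 1 := by
  have := moment (U := U) q 1 ∅
  simpa using this

theorem avg {q : ℝ} (h0 : 0 ≤ q) (h1 : q ≤ 1) (g : Finset U → ℝ) (b : ℝ)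
    (h : ∑ Z : Finset U, pw q Z * g Z ≤ b) : ∃ Z, g Z ≤ b := by
  by_contra hc
  push Not at hc
  have h2 : b = ∑ Z : Finset U, pw q Z * b := by
    rw [← Finset.sum_mul, pw_sum, one_mul]
  have h3 : ∑ Z : Finset U, pw q Z * b < ∑ Z : Finset U, pw q Z * g Z := by
    apply Finset.sum_lt_sum
    · intro Z _
      exact mul_le_mul_of_nonneg_left (hc Z).le (pw_nonneg h0 h1 Z)
    · by_contra hcon
      push Not at hcon
      have h4 : ∀ Z : Finset U, pw q Z = 0 := by
        intro Z
        have := hcon Z (mem_univ _)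
        have h5 := pw_nonneg h0 h1 Z
        by_contra h6
        have h7 : 0 < pw q Z := lt_of_le_of_ne h5 (Ne.symm h6)
        have := mul_lt_mul_of_pos_left (hc Z) h7
        linarith
      have h8 := pw_sum (U := U) q
      rw [Finset.sum_eq_zero (fun Z _ => h4 Z)] at h8
      exact zero_ne_one h8
  linarith

/-- **good sample**: a set `Z` of density about `1/(2R)` which meets all members of a family in the
expected amount, and for which few vertices have a big degree into `Z`. -/
theorem sample_exists (R : ℕ) (hR : 1 ≤ R) {ι : Type} (I : Finset ι) (Y : ι → Finset U)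
    (hY : ∑ e ∈ I, Real.exp (-((Y e).card : ℝ) / (8 * R)) ≤ 1 / 2) (w : U → ℕ)
    (N : U → Finset U) (hN : ∀ i, (N i).card ≤ w i) (β : ℝ) (hβ : ∀ i, β ≤ w i)
    (hpos : 0 < ∑ i, (w i : ℝ)) :
    ∃ Z : Finset U, (∀ e ∈ I, ((Y e).card : ℝ) / (8 * R) ≤ (Z ∩ Y e).card) ∧
      ∑ i ∈ univ.filter (fun i => 2 * w i ≤ R * (Z ∩ N i).card), (w i : ℝ) ≤
        2 * Real.exp (-β / (2 * R)) * ∑ i, (w i : ℝ) := by
  have hR' : (1 : ℝ) ≤ R := by exact_mod_cast hR
  have hR0 : (0 : ℝ) < R := by linarith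
  set q : ℝ := 1 / (2 * R) with hq
  have hq0 : 0 < q := by positivity
  have hq1 : q ≤ 1 := by
    rw [hq, div_le_one (by positivity)]
    linarith
  set B : ℝ := 2 * Real.exp (-β / (2 * R)) * ∑ i, (w i : ℝ) with hB
  have hB0 : 0 < B := by positivity
  have hl2 : Real.log 2 ≤ 1 := by
    have := Real.log_two_lt_d9
    linarith
  have hl2' : 1 / 2 ≤ Real.log 2 := by
    have := Real.log_two_gt_d9
    linarith
  have hlq : ∀ x : ℝ, Real.exp (x * Real.log 2) = 2 ^ x := by
    intro x
    rw [Real.rpow_def_of_pos (by norm_num), mul_comm]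
  -- first part
  have p1 : ∀ e, ∑ Z : Finset U, pw q Z * (Real.exp ((Y e).card / (8 * R) * Real.log 2)
      * (1 / 2 : ℝ) ^ (Z ∩ Y e).card) ≤ Real.exp (-((Y e).card : ℝ) / (8 * R)) := by
    intro e
    have e1 : ∑ Z : Finset U, pw q Z * (Real.exp ((Y e).card / (8 * R) * Real.log 2)
        * (1 / 2 : ℝ) ^ (Z ∩ Y e).card) = Real.exp ((Y e).card / (8 * R) * Real.log 2) *
        (1 - q + q * (1 / 2)) ^ (Y e).card := by
      rw [← moment, Finset.mul_sum]
      apply Finset.sum_congr rfl
      intro Z _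
      ring
    rw [e1]
    have e2 : (1 - q + q * (1 / 2)) ^ (Y e).card ≤ Real.exp (-(q / 2) * (Y e).card) := by
      have h1 : 1 - q + q * (1 / 2) ≤ Real.exp (-(q / 2)) := by
        have := Real.add_one_le_exp (-(q / 2))
        linarith
      calc (1 - q + q * (1 / 2)) ^ (Y e).card ≤ (Real.exp (-(q / 2))) ^ (Y e).card := by
            apply pow_le_pow_left₀ _ h1
            linarith
        _ = Real.exp (-(q / 2) * (Y e).card) := by
            rw [← Real.exp_nat_mul]
            ring_nf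
    calc Real.exp ((Y e).card / (8 * R) * Real.log 2) * (1 - q + q * (1 / 2)) ^ (Y e).card
        ≤ Real.exp ((Y e).card / (8 * R) * Real.log 2) * Real.exp (-(q / 2) * (Y e).card) :=
          mul_le_mul_of_nonneg_left e2 (Real.exp_nonneg _)
      _ = Real.exp ((Y e).card / (8 * R) * Real.log 2 + -(q / 2) * (Y e).card) := by
          rw [Real.exp_add]
      _ ≤ Real.exp (-((Y e).card : ℝ) / (8 * R)) := by
          apply Real.exp_le_exp.2
          have h2 : (0 : ℝ) ≤ (Y e).card / (8 * R) := by positivity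
          have h3 : -(q / 2) * (Y e).card = -2 * ((Y e).card / (8 * R)) := by
            rw [hq]
            field_simp
            ring
          rw [h3]
          have h4 : ((Y e).card : ℝ) / (8 * R) * Real.log 2 ≤ (Y e).card / (8 * R) * 1 :=
            mul_le_mul_of_nonneg_left hl2 h2
          have h5 : -((Y e).card : ℝ) / (8 * R) = - ((Y e).card / (8 * R)) := by ring
          rw [h5]
          linarith
  -- second part
  have p2 : ∀ i, ∑ Z : Finset U, pw q Z * (Real.exp (-(2 * w i / R * Real.log 2))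
      * (2 : ℝ) ^ (Z ∩ N i).card) ≤ Real.exp (-β / (2 * R)) := by
    intro i
    have e1 : ∑ Z : Finset U, pw q Z * (Real.exp (-(2 * w i / R * Real.log 2))
        * (2 : ℝ) ^ (Z ∩ N i).card) = Real.exp (-(2 * w i / R * Real.log 2)) *
        (1 - q + q * 2) ^ (N i).card := by
      rw [← moment, Finset.mul_sum]
      apply Finset.sum_congr rfl
      intro Z _
      ring
    rw [e1]
    have e2 : (1 - q + q * 2) ^ (N i).card ≤ Real.exp (q * w i) := by
      have h1 : 1 - q + q * 2 ≤ Real.exp q := by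
        have := Real.add_one_le_exp q
        linarith
      calc (1 - q + q * 2) ^ (N i).card ≤ (Real.exp q) ^ (N i).card := by
            apply pow_le_pow_left₀ _ h1
            linarith
        _ = Real.exp (q * (N i).card) := by
            rw [← Real.exp_nat_mul]
            ring_nf
        _ ≤ Real.exp (q * w i) := by
            apply Real.exp_le_exp.2
            apply mul_le_mul_of_nonneg_left _ hq0.le
            exact_mod_cast hN i
    calc Real.exp (-(2 * w i / R * Real.log 2)) * (1 - q + q * 2) ^ (N i).card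
        ≤ Real.exp (-(2 * w i / R * Real.log 2)) * Real.exp (q * w i) :=
          mul_le_mul_of_nonneg_left e2 (Real.exp_nonneg _)
      _ = Real.exp (-(2 * w i / R * Real.log 2) + q * w i) := by rw [Real.exp_add]
      _ ≤ Real.exp (-β / (2 * R)) := by
          apply Real.exp_le_exp.2
          have h2 : (0 : ℝ) ≤ w i / R := by positivity
          have h3 : q * w i = (w i / R) / 2 := by
            rw [hq]
            field_simp
          have h4 : -β / (2 * R) = -((β / R) / 2) := by
            field_simp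
          rw [h3, h4]
          have h5 : β / R ≤ w i / R := div_le_div_of_nonneg_right (hβ i) hR0.le
          have h6 : 2 * w i / R * Real.log 2 = 2 * ((w i / R) * Real.log 2) := by ring
          rw [h6]
          have h7 : (w i / R : ℝ) * (1 / 2) ≤ w i / R * Real.log 2 :=
            mul_le_mul_of_nonneg_left hl2' h2
          linarith
  obtain ⟨Z, hZ⟩ := avg hq0.le hq1 (fun Z => B * ∑ e ∈ I, Real.exp ((Y e).card / (8 * R) * Real.log 2)
      * (1 / 2 : ℝ) ^ (Z ∩ Y e).card + ∑ i, (w i : ℝ) * (Real.exp (-(2 * w i / R * Real.log 2))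
      * (2 : ℝ) ^ (Z ∩ N i).card)) B (by
    have e1 : ∑ Z : Finset U, pw q Z * (B * ∑ e ∈ I, Real.exp ((Y e).card / (8 * R) * Real.log 2)
        * (1 / 2 : ℝ) ^ (Z ∩ Y e).card + ∑ i, (w i : ℝ) * (Real.exp (-(2 * w i / R * Real.log 2))
        * (2 : ℝ) ^ (Z ∩ N i).card)) = B * ∑ e ∈ I, ∑ Z : Finset U, pw q Z *
          (Real.exp ((Y e).card / (8 * R) * Real.log 2) * (1 / 2 : ℝ) ^ (Z ∩ Y e).card)
        + ∑ i, (w i : ℝ) * ∑ Z : Finset U, pw q Z * (Real.exp (-(2 * w i / R * Real.log 2))
        * (2 : ℝ) ^ (Z ∩ N i).card) := by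
      have a1 : ∑ e ∈ I, ∑ Z : Finset U, pw q Z *
          (Real.exp ((Y e).card / (8 * R) * Real.log 2) * (1 / 2 : ℝ) ^ (Z ∩ Y e).card)
          = ∑ Z : Finset U, ∑ e ∈ I, pw q Z *
          (Real.exp ((Y e).card / (8 * R) * Real.log 2) * (1 / 2 : ℝ) ^ (Z ∩ Y e).card) :=
        Finset.sum_comm
      have a2 : ∑ i, (w i : ℝ) * ∑ Z : Finset U, pw q Z * (Real.exp (-(2 * w i / R * Real.log 2))
          * (2 : ℝ) ^ (Z ∩ N i).card) = ∑ Z : Finset U, ∑ i, (w i : ℝ) * (pw q Z *
          (Real.exp (-(2 * w i / R * Real.log 2)) * (2 : ℝ) ^ (Z ∩ N i).card)) := by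
        rw [Finset.sum_comm]
        apply Finset.sum_congr rfl
        intro i _
        rw [Finset.mul_sum]
      rw [a1, a2, Finset.mul_sum, ← Finset.sum_add_distrib]
      apply Finset.sum_congr rfl
      intro Z _
      rw [← Finset.mul_sum, mul_add]
      congr 1
      · ring
      · rw [Finset.mul_sum]
        apply Finset.sum_congr rfl
        intro i _
        ring
    rw [e1]
    have e2 : ∑ e ∈ I, ∑ Z : Finset U, pw q Z * (Real.exp ((Y e).card / (8 * R) * Real.log 2)
        * (1 / 2 : ℝ) ^ (Z ∩ Y e).card) ≤ 1 / 2 :=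
      (Finset.sum_le_sum (fun e _ => p1 e)).trans hY
    have e3 : ∑ i, (w i : ℝ) * ∑ Z : Finset U, pw q Z * (Real.exp (-(2 * w i / R * Real.log 2))
        * (2 : ℝ) ^ (Z ∩ N i).card) ≤ ∑ i, (w i : ℝ) * Real.exp (-β / (2 * R)) :=
      Finset.sum_le_sum (fun i _ => mul_le_mul_of_nonneg_left (p2 i) (Nat.cast_nonneg _))
    rw [← Finset.sum_mul] at e3
    have e4 : (∑ i, (w i : ℝ)) * Real.exp (-β / (2 * R)) = B / 2 := by
      rw [hB]
      ring
    rw [e4] at e3
    have e5 := mul_le_mul_of_nonneg_left e2 hB0.le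
    linarith)
  have n1 : ∀ e, 0 ≤ Real.exp ((Y e).card / (8 * R) * Real.log 2) * (1 / 2 : ℝ) ^ (Z ∩ Y e).card :=
    fun e => by positivity
  have n2 : ∀ i, 0 ≤ (w i : ℝ) * (Real.exp (-(2 * w i / R * Real.log 2))
      * (2 : ℝ) ^ (Z ∩ N i).card) := fun i => by positivity
  have s1 : 0 ≤ ∑ e ∈ I, Real.exp ((Y e).card / (8 * R) * Real.log 2)
      * (1 / 2 : ℝ) ^ (Z ∩ Y e).card := Finset.sum_nonneg (fun e _ => n1 e)
  have s2 : 0 ≤ ∑ i, (w i : ℝ) * (Real.exp (-(2 * w i / R * Real.log 2))
      * (2 : ℝ) ^ (Z ∩ N i).card) := Finset.sum_nonneg (fun i _ => n2 i)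
  refine ⟨Z, ?_, ?_⟩
  · intro e he
    have h1 : B * ∑ e ∈ I, Real.exp ((Y e).card / (8 * R) * Real.log 2)
      * (1 / 2 : ℝ) ^ (Z ∩ Y e).card ≤ B * 1 := by linarith
    have h2 := le_of_mul_le_mul_left h1 hB0
    have h3 : Real.exp ((Y e).card / (8 * R) * Real.log 2) * (1 / 2 : ℝ) ^ (Z ∩ Y e).card ≤ 1 :=
      (Finset.single_le_sum (f := fun e => Real.exp ((Y e).card / (8 * R) * Real.log 2)
      * (1 / 2 : ℝ) ^ (Z ∩ Y e).card) (fun e _ => n1 e) he).trans h2
    by_contra hc
    push Not at hc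
    have h4 : (1 / 2 : ℝ) ^ (Z ∩ Y e).card = Real.exp (-((Z ∩ Y e).card * Real.log 2)) := by
      rw [Real.exp_neg, mul_comm, Real.exp_mul, Real.exp_log (by norm_num), Real.rpow_natCast]
      simp
    rw [h4, ← Real.exp_add] at h3
    have h5 := Real.exp_le_one_iff.1 h3
    have h6 : 0 < (((Y e).card : ℝ) / (8 * R) - (Z ∩ Y e).card) * Real.log 2 :=
      mul_pos (by linarith) (by linarith)
    linarith
  · have h1 : ∑ i, (w i : ℝ) * (Real.exp (-(2 * w i / R * Real.log 2))
      * (2 : ℝ) ^ (Z ∩ N i).card) ≤ B := by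
      have : 0 ≤ B * ∑ e ∈ I, Real.exp ((Y e).card / (8 * R) * Real.log 2)
        * (1 / 2 : ℝ) ^ (Z ∩ Y e).card := mul_nonneg hB0.le s1
      linarith
    refine le_trans ?_ h1
    refine le_trans ?_ (Finset.sum_le_sum_of_subset_of_nonneg
      (filter_subset (fun i => 2 * w i ≤ R * (Z ∩ N i).card) univ) (fun i _ _ => n2 i))
    apply Finset.sum_le_sum
    intro i hi
    simp only [mem_filter, mem_univ, true_and] at hi
    have h2 : (2 * w i : ℝ) ≤ R * (Z ∩ N i).card := by exact_mod_cast hi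
    have h3 : (2 : ℝ) ^ (Z ∩ N i).card = Real.exp ((Z ∩ N i).card * Real.log 2) := by
      rw [mul_comm, Real.exp_mul, Real.exp_log (by norm_num), Real.rpow_natCast]
    have h4 : 1 ≤ Real.exp (-(2 * w i / R * Real.log 2)) * (2 : ℝ) ^ (Z ∩ N i).card := by
      rw [h3, ← Real.exp_add]
      apply Real.one_le_exp
      have h5 : 2 * (w i : ℝ) / R ≤ (Z ∩ N i).card := by
        rw [div_le_iff₀ hR0]
        linarith
      have h6 : 0 ≤ (((Z ∩ N i).card : ℝ) - 2 * (w i : ℝ) / R) * Real.log 2 :=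
        mul_nonneg (by linarith) (by linarith)
      linarith
    exact le_mul_of_one_le_right (Nat.cast_nonneg _) h4

end Pool.Agent.W133
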