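import Mathlib
import Pool.Agent.W133.Closure
import Pool.Agent.W133.Sample

set_option autoImplicit false
set_option linter.unusedSectionVars false

/-! The family of sets over which the union bound is taken. -/

namespace Pool.Agent.W133

open Finset Pool.Agent.H478R3.Borsuk

variable {U : Type} [Fintype U] [DecidableEq U]

theorem count_small (V : Finset U) (β : ℝ) (hβ : 1 ≤ β) :
    ((V.powerset.filter (fun J => (J.card : ℝ) ≤ V.card / β)).card : ℝ) ≤
      Real.exp (V.card / β * (1 + Real.log β)) := by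
  have hβ0 : 0 < β := by linarith
  have h1 : ((V.powerset.filter (fun J => (J.card : ℝ) ≤ V.card / β)).card : ℝ) ≤
      ∑ J ∈ V.powerset, (1 / β) ^ J.card * Real.exp (V.card / β * Real.log β) := by
    rw [Finset.card_eq_sum_ones, Finset.sum_filter]
    push_cast
    apply Finset.sum_le_sum
    intro J _
    split_ifs with hJ
    · have e1 : (1 / β) ^ J.card = Real.exp (-(J.card * Real.log β)) := by
        rw [Real.exp_neg, mul_comm, Real.exp_mul, Real.exp_log hβ0, Real.rpow_natCast]
        simp
      rw [e1, ← Real.exp_add]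
      apply Real.one_le_exp
      have := Real.log_nonneg hβ
      have h2 : 0 ≤ ((V.card : ℝ) / β - J.card) * Real.log β := mul_nonneg (by linarith) this
      linarith
    · positivity
  refine h1.trans ?_
  rw [← Finset.sum_mul]
  have h2 := Finset.sum_pow_mul_eq_add_pow (1 / β) 1 V
  simp only [one_pow, mul_one] at h2
  rw [h2]
  have h3 : (1 / β + 1) ^ V.card ≤ Real.exp (V.card / β) := by
    calc (1 / β + 1) ^ V.card ≤ (Real.exp (1 / β)) ^ V.card := by
          apply pow_le_pow_left₀ (by positivity)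
          exact Real.add_one_le_exp _
      _ = Real.exp (V.card / β) := by
          rw [← Real.exp_nat_mul]
          ring_nf
  calc (1 / β + 1) ^ V.card * Real.exp (V.card / β * Real.log β)
      ≤ Real.exp (V.card / β) * Real.exp (V.card / β * Real.log β) :=
        mul_le_mul_of_nonneg_right h3 (Real.exp_nonneg _)
    _ = Real.exp (V.card / β * (1 + Real.log β)) := by
        rw [← Real.exp_add]
        ring_nf

/-- light vertices -/
def Ls (w : U → ℕ) (l : ℕ) : Finset U := univ.filter (fun i => w i ≤ 2 ^ l)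

/-- heavy vertices -/
def Vs (w : U → ℕ) (l : ℕ) : Finset U := univ.filter (fun i => 2 ^ l < w i)

/-- one level -/
def Lv (R : ℕ) (w : U → ℕ) (l : ℕ) : Finset U :=
  univ.filter (fun i => R * 2 ^ l ≤ w i ∧ w i < 2 * R * 2 ^ l)

/-- critical sets -/
def Ys (R : ℕ) (w : U → ℕ) (l τ : ℕ) (F1 F2 : Finset U) : Finset U :=
  (Lv R w l).filter (fun i => i ∉ F1 ∧ i ∉ F2 ∧ w i + 4 * 2 ^ l ≤ τ * 2 ^ l)

theorem card_Ls_Vs (w : U → ℕ) (l : ℕ) : (Ls w l).card + (Vs w l).card = Fintype.card U := by
  unfold Ls Vs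
  have := Finset.card_filter_add_card_filter_not (s := (univ : Finset U)) (fun i => w i ≤ 2 ^ l)
  simp only [not_le] at this
  rw [this, card_univ]

theorem family (R : ℕ) (hR : 1 ≤ R) (β : ℝ) (hβ1 : 1 ≤ β) (Λ : ℕ) (hΛ : 8 * R * Λ ≤ β ^ 2)
    (r1 r2 : Finset U → ℕ) (w : U → ℕ) :
    ∃ (I : Finset (Σ _ : ℕ, ℕ × Finset U × Finset U)),
      (∀ l < Λ, β ≤ (Vs w l).card → ∀ τ < 4 * R, ∀ J1 ⊆ Vs w l, ∀ J2 ⊆ Vs w l,
        (J1.card : ℝ) ≤ (Vs w l).card / β → (J2.card : ℝ) ≤ (Vs w l).card / β →
        32 * R * (1 + Real.log β) / β * (Vs w l).card <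
          (Ys R w l τ (cl r1 (Ls w l ∪ J1)) (cl r2 (Ls w l ∪ J2))).card →
        (⟨l, τ, J1, J2⟩ : Σ _ : ℕ, ℕ × Finset U × Finset U) ∈ I) ∧
      ∑ e ∈ I, Real.exp (-((Ys R w e.1 e.2.1 (cl r1 (Ls w e.1 ∪ e.2.2.1))
        (cl r2 (Ls w e.1 ∪ e.2.2.2))).card : ℝ) / (8 * R)) ≤ 1 / 2 := by
  classical
  have hβ0 : 0 < β := by linarith
  have hR' : (1 : ℝ) ≤ R := by exact_mod_cast hR
  have hR0 : (0 : ℝ) < R := by linarith
  have hlog : 0 ≤ Real.log β := Real.log_nonneg hβ1
  set Js : ℕ → Finset (Finset U) := fun l =>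
    (Vs w l).powerset.filter (fun J => (J.card : ℝ) ≤ (Vs w l).card / β) with hJs
  set I : Finset (Σ _ : ℕ, ℕ × Finset U × Finset U) := (range Λ).sigma (fun l =>
    ((range (4 * R)) ×ˢ (Js l ×ˢ Js l)).filter (fun e => β ≤ (Vs w l).card ∧
      32 * R * (1 + Real.log β) / β * (Vs w l).card <
        (Ys R w l e.1 (cl r1 (Ls w l ∪ e.2.1)) (cl r2 (Ls w l ∪ e.2.2))).card)) with hI
  refine ⟨I, ?_, ?_⟩
  · intro l hl hv τ hτ J1 hJ1 J2 hJ2 hc1 hc2 hY
    simp only [hI, hJs, mem_sigma, mem_filter, mem_product, mem_powerset, mem_range]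
    exact ⟨hl, ⟨hτ, ⟨hJ1, hc1⟩, ⟨hJ2, hc2⟩⟩, hv, hY⟩
  · rw [hI, Finset.sum_sigma]
    have key : ∀ l ∈ range Λ, ∑ e ∈ ((range (4 * R)) ×ˢ (Js l ×ˢ Js l)).filter (fun e =>
        β ≤ (Vs w l).card ∧ 32 * R * (1 + Real.log β) / β * (Vs w l).card <
        (Ys R w l e.1 (cl r1 (Ls w l ∪ e.2.1)) (cl r2 (Ls w l ∪ e.2.2))).card),
        Real.exp (-((Ys R w l e.1 (cl r1 (Ls w l ∪ e.2.1))
        (cl r2 (Ls w l ∪ e.2.2))).card : ℝ) / (8 * R)) ≤ 4 * R / β ^ 2 := by
      intro l _
      by_cases hv : β ≤ (Vs w l).card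
      · set v : ℝ := ((Vs w l).card : ℝ) with hvdef
        have h1 : ∑ e ∈ ((range (4 * R)) ×ˢ (Js l ×ˢ Js l)).filter (fun e =>
            β ≤ v ∧ 32 * R * (1 + Real.log β) / β * v <
            (Ys R w l e.1 (cl r1 (Ls w l ∪ e.2.1)) (cl r2 (Ls w l ∪ e.2.2))).card),
            Real.exp (-((Ys R w l e.1 (cl r1 (Ls w l ∪ e.2.1))
            (cl r2 (Ls w l ∪ e.2.2))).card : ℝ) / (8 * R)) ≤
            ∑ e ∈ ((range (4 * R)) ×ˢ (Js l ×ˢ Js l)),
              Real.exp (-(4 * (v / β * (1 + Real.log β)))) := by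
          refine le_trans (Finset.sum_le_sum (g := fun _ =>
            Real.exp (-(4 * (v / β * (1 + Real.log β))))) ?_) ?_
          · intro e he
            simp only [mem_filter] at he
            apply Real.exp_le_exp.2
            rw [neg_div, neg_le_neg_iff, le_div_iff₀ (by positivity)]
            have := he.2.2
            have e1 : 4 * (v / β * (1 + Real.log β)) * (8 * R) = 32 * R * (1 + Real.log β) / β * v := by
              ring
            rw [e1]
            exact this.le
          · exact Finset.sum_le_sum_of_subset_of_nonneg (filter_subset _ _)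
              (fun _ _ _ => Real.exp_nonneg _)
        refine h1.trans ?_
        rw [Finset.sum_const, nsmul_eq_mul, card_product, card_product, card_range]
        have h2 : ((Js l).card : ℝ) ≤ Real.exp (v / β * (1 + Real.log β)) := count_small _ β hβ1
        have h3 : (0 : ℝ) ≤ (Js l).card := Nat.cast_nonneg _
        have h4 : ((Js l).card : ℝ) * (Js l).card ≤
            Real.exp (v / β * (1 + Real.log β)) * Real.exp (v / β * (1 + Real.log β)) :=
          mul_le_mul h2 h2 h3 (Real.exp_nonneg _)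
        rw [← Real.exp_add] at h4
        push_cast
        calc (4 * R : ℝ) * (((Js l).card : ℝ) * (Js l).card) * Real.exp (-(4 * (v / β * (1 + Real.log β))))
            ≤ (4 * R : ℝ) * Real.exp (v / β * (1 + Real.log β) + v / β * (1 + Real.log β)) *
              Real.exp (-(4 * (v / β * (1 + Real.log β)))) := by
              apply mul_le_mul_of_nonneg_right _ (Real.exp_nonneg _)
              exact mul_le_mul_of_nonneg_left h4 (by positivity)
          _ = (4 * R : ℝ) * Real.exp (-(2 * (v / β * (1 + Real.log β)))) := by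
              rw [mul_assoc, ← Real.exp_add]
              ring_nf
          _ ≤ (4 * R : ℝ) * Real.exp (-(2 * Real.log β)) := by
              apply mul_le_mul_of_nonneg_left _ (by positivity)
              apply Real.exp_le_exp.2
              have h5 : 1 ≤ v / β := by
                rw [le_div_iff₀ hβ0]
                linarith
              have h6 : 1 * (1 + Real.log β) ≤ v / β * (1 + Real.log β) :=
                mul_le_mul_of_nonneg_right h5 (by linarith)
              linarith
          _ = 4 * R / β ^ 2 := by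
              rw [Real.exp_neg]
              have : Real.exp (2 * Real.log β) = β ^ 2 := by
                rw [show (2 : ℝ) * Real.log β = ((2 : ℕ) : ℝ) * Real.log β by norm_num,
                  Real.exp_nat_mul, Real.exp_log hβ0]
              rw [this]
              rfl
      · rw [Finset.filter_false_of_mem]
        · simp only [sum_empty]
          positivity
        · rintro e _ ⟨h, _⟩
          exact hv h
    refine (Finset.sum_le_sum key).trans ?_
    rw [Finset.sum_const, card_range, nsmul_eq_mul, ← mul_div_assoc, div_le_iff₀ (by positivity)]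
    linarith

end Pool.Agent.W133
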