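import Mathlib
import Pool.Agent.W133.Family

set_option autoImplicit false
set_option linter.unusedSectionVars false

/-! The sampling bound for exit times. -/

namespace Pool.Agent.W133

open Finset Pool.Agent.H478R3.Borsuk

variable {U : Type} [Fintype U] [DecidableEq U]

theorem pow_sum_lt (w Λ : ℕ) :
    ∑ l ∈ range Λ, (if 2 ^ l < w then 2 ^ l else 0) ≤ 2 ^ Λ ∧
      ∑ l ∈ range Λ, (if 2 ^ l < w then 2 ^ l else 0) ≤ 2 * w := by
  induction Λ with
  | zero => simp
  | succ Λ ih =>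
    rw [Finset.sum_range_succ, pow_succ]
    split_ifs with h
    · constructor <;> omega
    · constructor <;> omega

theorem weight_Vs (w : U → ℕ) (Λ : ℕ) :
    ∑ l ∈ range Λ, (2 : ℝ) ^ l * (Vs w l).card ≤ 2 * ∑ i, (w i : ℝ) := by
  have e1 : ∀ l, (2 : ℝ) ^ l * (Vs w l).card = ∑ i : U, if 2 ^ l < w i then (2 : ℝ) ^ l else 0 := by
    intro l
    rw [← Finset.sum_filter, Finset.sum_const, nsmul_eq_mul]
    unfold Vs
    ring
  simp_rw [e1]
  rw [Finset.sum_comm, Finset.mul_sum]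
  apply Finset.sum_le_sum
  intro i _
  have := (pow_sum_lt (w i) Λ).2
  have h2 : ((∑ l ∈ range Λ, (if 2 ^ l < w i then 2 ^ l else 0) : ℕ) : ℝ) ≤ ((2 * w i : ℕ) : ℝ) := by
    exact_mod_cast this
  push_cast at h2
  exact h2

theorem weight_Lv (R : ℕ) (w : U → ℕ) (Λ : ℕ) (B : Finset U) :
    ∑ l ∈ range Λ, (R : ℝ) * 2 ^ l * (B ∩ Lv R w l).card ≤ ∑ i ∈ B, (w i : ℝ) := by
  have e1 : ∀ l, (R : ℝ) * 2 ^ l * (B ∩ Lv R w l).card ≤
      ∑ i ∈ B, if i ∈ Lv R w l then (w i : ℝ) else 0 := by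
    intro l
    rw [← Finset.sum_filter]
    have e2 : B.filter (fun i => i ∈ Lv R w l) = B ∩ Lv R w l := by
      ext i
      simp
    rw [e2]
    have e3 : (R : ℝ) * 2 ^ l * (B ∩ Lv R w l).card = ∑ i ∈ B ∩ Lv R w l, (R : ℝ) * 2 ^ l := by
      rw [Finset.sum_const, nsmul_eq_mul]
      ring
    rw [e3]
    apply Finset.sum_le_sum
    intro i hi
    simp only [Lv, mem_inter, mem_filter, mem_univ, true_and] at hi
    exact_mod_cast hi.2.1
  refine (Finset.sum_le_sum (fun l _ => e1 l)).trans ?_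
  rw [Finset.sum_comm]
  apply Finset.sum_le_sum
  intro i _
  rw [← Finset.sum_filter, Finset.sum_const, nsmul_eq_mul]
  have h1 : ((range Λ).filter (fun l => i ∈ Lv R w l)).card ≤ 1 := by
    rw [Finset.card_le_one]
    intro l hl l' hl'
    simp only [Lv, mem_filter, mem_univ, true_and] at hl hl'
    by_contra hne
    rcases Nat.lt_or_gt_of_ne hne with h | h
    · have h2 : 2 * 2 ^ l ≤ 2 ^ l' := by
        rw [← pow_succ']
        exact Nat.pow_le_pow_right (by norm_num) h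
      have h3 : R * (2 * 2 ^ l) ≤ R * 2 ^ l' := Nat.mul_le_mul_left R h2
      have h4 : 2 * R * 2 ^ l = R * (2 * 2 ^ l) := by ring
      omega
    · have h2 : 2 * 2 ^ l' ≤ 2 ^ l := by
        rw [← pow_succ']
        exact Nat.pow_le_pow_right (by norm_num) h
      have h3 : R * (2 * 2 ^ l') ≤ R * 2 ^ l := Nat.mul_le_mul_left R h2
      have h4 : 2 * R * 2 ^ l' = R * (2 * 2 ^ l') := by ring
      omega
  have h2 : (((range Λ).filter (fun l => i ∈ Lv R w l)).card : ℝ) ≤ 1 := by exact_mod_cast h1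
  have := mul_le_mul_of_nonneg_right h2 (Nat.cast_nonneg (α := ℝ) (w i))
  linarith

theorem weight_split (R : ℕ) (w : U → ℕ) (Λ : ℕ) (Y : Finset U)
    (h : ∀ i ∈ Y, ∃ l < Λ, i ∈ Lv R w l) :
    ∑ i ∈ Y, (w i : ℝ) ≤ ∑ l ∈ range Λ, 2 * R * 2 ^ l * ((Y ∩ Lv R w l).card : ℝ) := by
  have e1 : ∀ l, ∑ i ∈ Y, (if i ∈ Lv R w l then (w i : ℝ) else 0) ≤
      2 * R * 2 ^ l * ((Y ∩ Lv R w l).card : ℝ) := by
    intro l
    rw [← Finset.sum_filter]
    have e2 : Y.filter (fun i => i ∈ Lv R w l) = Y ∩ Lv R w l := by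
      ext i
      simp
    rw [e2]
    have e3 : 2 * R * 2 ^ l * ((Y ∩ Lv R w l).card : ℝ) = ∑ i ∈ Y ∩ Lv R w l, 2 * (R : ℝ) * 2 ^ l := by
      rw [Finset.sum_const, nsmul_eq_mul]
      ring
    rw [e3]
    apply Finset.sum_le_sum
    intro i hi
    simp only [Lv, mem_inter, mem_filter, mem_univ, true_and] at hi
    exact_mod_cast hi.2.2.le
  refine le_trans ?_ (Finset.sum_le_sum (fun l _ => e1 l))
  rw [Finset.sum_comm]
  apply Finset.sum_le_sum
  intro i hi
  obtain ⟨l, hl, hil⟩ := h i hi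
  have h2 := Finset.single_le_sum (s := range Λ) (f := fun l => if i ∈ Lv R w l then (w i : ℝ) else 0)
    (fun l _ => by split_ifs <;> positivity) (mem_range.2 hl)
  simp only [hil, if_true] at h2
  exact h2

theorem level_exists (R : ℕ) (hR : 1 ≤ R) (w : U → ℕ) (i : U) (hi : R ≤ w i) :
    ∃ l, i ∈ Lv R w l := by
  refine ⟨Nat.log 2 (w i / R), ?_⟩
  simp only [Lv, mem_filter, mem_univ, true_and]
  have h0 : w i / R ≠ 0 := by
    have := Nat.div_pos hi hR
    omega
  have h1 := Nat.pow_log_le_self 2 h0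
  have h2 := Nat.lt_pow_succ_log_self (b := 2) (by norm_num) (w i / R)
  have h3 := Nat.div_mul_le_self (w i) R
  have h4 := Nat.lt_mul_of_div_lt h2 hR
  constructor
  · calc R * 2 ^ Nat.log 2 (w i / R) ≤ R * (w i / R) := Nat.mul_le_mul_left _ h1
      _ ≤ w i := by rw [mul_comm]; exact h3
  · calc w i < 2 ^ (Nat.log 2 (w i / R) + 1) * R := h4
      _ = 2 * R * 2 ^ Nat.log 2 (w i / R) := by ring

/-- a flat above the light vertices is spanned by few heavy ones -/
theorem flat_rep {r : Finset U → ℕ} (h : IsRF r) {a : ℕ} {β : ℝ} (hβ0 : 0 < β)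
    (hβ : ∀ X : Finset U, (X.card : ℝ) ≤ β * r X) (hm : (Fintype.card U : ℝ) = β * a)
    (hra : r univ = a) (w : U → ℕ) (l : ℕ) (A : Finset U) (hA : Ls w l ⊆ A) :
    ∃ J ⊆ Vs w l, (J.card : ℝ) ≤ (Vs w l).card / β ∧ cl r (Ls w l ∪ J) = cl r A := by
  obtain ⟨J, hJ, hc, hr⟩ := exists_span h hA
  refine ⟨J, ?_, ?_, ?_⟩
  · intro i hi
    have := hJ hi
    simp only [Ls, Vs, mem_sdiff, mem_filter, mem_univ, true_and, not_le] at this ⊢
    exact this.2
  · rw [le_div_iff₀ hβ0]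
    have h1 := hβ (Ls w l)
    have h2 : r A ≤ a := hra ▸ h.mono _ _ (subset_univ A)
    have h3 := h.mono _ _ hA
    have h4 : (J.card : ℝ) + r (Ls w l) ≤ a := by
      have : J.card + r (Ls w l) ≤ a := by omega
      exact_mod_cast this
    have h5 : ((Ls w l).card : ℝ) + (Vs w l).card = Fintype.card U := by
      exact_mod_cast card_Ls_Vs w l
    have h6 := mul_le_mul_of_nonneg_left h4 hβ0.le
    rw [mul_add] at h6
    linarith
  · apply cl_eq h
    · apply union_subset hA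
      exact hJ.trans sdiff_subset
    · exact hr

/-- a flat above the light vertices is everything when there are few heavy ones -/
theorem flat_top {r : Finset U → ℕ} (h : IsRF r) {a : ℕ} {β : ℝ} (hβ0 : 0 < β)
    (hβ : ∀ X : Finset U, (X.card : ℝ) ≤ β * r X) (hm : (Fintype.card U : ℝ) = β * a)
    (hra : r univ = a) (w : U → ℕ) (l : ℕ) (A : Finset U) (hA : Ls w l ⊆ A)
    (hv : ((Vs w l).card : ℝ) < β) (i : U) : i ∈ cl r A := by
  rw [mem_cl]
  have h1 := hβ (Ls w l)
  have h5 : ((Ls w l).card : ℝ) + (Vs w l).card = Fintype.card U := by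
    exact_mod_cast card_Ls_Vs w l
  have h3 := h.mono _ _ hA
  have h4 : r A ≤ a := hra ▸ h.mono _ _ (subset_univ A)
  have h6 : r (insert i A) ≤ a := hra ▸ h.mono _ _ (subset_univ _)
  have h7 := h.mono A (insert i A) (subset_insert _ _)
  have h8 : a ≤ r (Ls w l) := by
    by_contra hc
    push Not at hc
    have h9 : (r (Ls w l) : ℝ) + 1 ≤ a := by exact_mod_cast hc
    have h10 := mul_le_mul_of_nonneg_left h9 hβ0.le
    rw [mul_add] at h10
    linarith
  omega

/-- **The sampling bound.** -/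
theorem sampling [Nonempty U] (R : ℕ) (hR : 1 ≤ R) {β : ℝ} (hβR : 2 * R ≤ β) (Λ : ℕ)
    (hΛ : 8 * R * Λ ≤ β ^ 2) {r1 r2 : Finset U → ℕ} (h1 : IsRF r1) (h2 : IsRF r2) {a : ℕ}
    (hra1 : r1 univ = a) (hra2 : r2 univ = a)
    (hβ1 : ∀ X : Finset U, (X.card : ℝ) ≤ β * r1 X)
    (hβ2 : ∀ X : Finset U, (X.card : ℝ) ≤ β * r2 X) (hm : (Fintype.card U : ℝ) = β * a)
    (w : U → ℕ) (hw : ∀ i, β ≤ w i) (N : U → Finset U) (hN : ∀ i, (N i).card ≤ w i)
    (hL : ∀ i l, R * 2 ^ l ≤ w i → l < Λ) (W : ℕ) (hW : ∀ i, w i ≤ W) :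
    ∃ Z : Finset U, ∀ A1 A2 : ℕ → Finset U, Monotone A1 → Monotone A2 →
      (∀ i s, w i ≤ s → i ∈ A1 s) → (∀ i s, w i ≤ s → i ∈ A2 s) →
      (∀ i ∈ Z, ∀ s t, i ∉ A1 s → i ∉ A2 t → s + t + 2 ≤ w i + (Z ∩ N i).card) →
      ∑ s ∈ range W, ((a : ℝ) - r1 (A1 s)) + ∑ s ∈ range W, ((a : ℝ) - r2 (A2 s)) ≤
        (1 + 8 / R + 16 * R ^ 3 * (32 * R * (1 + Real.log β) / β) +
          128 * R ^ 3 * Real.exp (-β / (2 * R))) * ((∑ i, (w i : ℝ)) / β) := by
  classical
  have hR' : (1 : ℝ) ≤ R := by exact_mod_cast hR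
  have hR0 : (0 : ℝ) < R := by linarith
  have hβ1' : 1 ≤ β := by linarith
  have hβ0 : 0 < β := by linarith
  have hlog : 0 ≤ Real.log β := Real.log_nonneg hβ1'
  have hvol : 0 < ∑ i, (w i : ℝ) := by
    apply Finset.sum_pos
    · intro i _
      exact lt_of_lt_of_le hβ0 (hw i)
    · exact univ_nonempty
  set vol : ℝ := ∑ i, (w i : ℝ) with hvoldef
  set η : ℝ := 32 * R * (1 + Real.log β) / β with hη
  have hη0 : 0 ≤ η := by positivity
  obtain ⟨I, hI1, hI2⟩ := family R hR β hβ1' Λ hΛ r1 r2 w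
  obtain ⟨Z, hZ1, hZ2⟩ := sample_exists R hR I
    (fun e => Ys R w e.1 e.2.1 (cl r1 (Ls w e.1 ∪ e.2.2.1)) (cl r2 (Ls w e.1 ∪ e.2.2.2)))
    hI2 w N hN β hw hvol
  set Bd : Finset U := univ.filter (fun i => 2 * w i ≤ R * (Z ∩ N i).card) with hBd
  refine ⟨Z, ?_⟩
  intro A1 A2 hA1 hA2 hwA1 hwA2 hZA
  obtain ⟨x, hx1, hx2, hx3⟩ := defect_sum h1 hβ0 hβ1 hm A1 hA1 w hwA1 W hW
  obtain ⟨y, hy1, hy2, hy3⟩ := defect_sum h2 hβ0 hβ2 hm A2 hA2 w hwA2 W hW
  set Y : Finset U := univ.filter (fun i => R * w i + 8 * w i < R * (x i + y i)) with hY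
  -- light vertices are in the early sets
  have hLs1 : ∀ l t, 1 ≤ t → Ls w l ⊆ A1 (t * 2 ^ l) := by
    intro l t ht i hi
    simp only [Ls, mem_filter, mem_univ, true_and] at hi
    exact hwA1 i _ (hi.trans (Nat.le_mul_of_pos_left _ ht))
  have hLs2 : ∀ l t, 1 ≤ t → Ls w l ⊆ A2 (t * 2 ^ l) := by
    intro l t ht i hi
    simp only [Ls, mem_filter, mem_univ, true_and] at hi
    exact hwA2 i _ (hi.trans (Nat.le_mul_of_pos_left _ ht))
  -- members of Y at level l
  have hYl : ∀ l, ∀ i ∈ Y ∩ Lv R w l, w i + 8 * 2 ^ l < x i + y i := by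
    intro l i hi
    simp only [hY, Lv, mem_inter, mem_filter, mem_univ, true_and] at hi
    have g1 := hi.1
    have g2 := hi.2.1
    have g3 : R * (w i + 8 * 2 ^ l) < R * (x i + y i) := by
      calc R * (w i + 8 * 2 ^ l) = R * w i + 8 * (R * 2 ^ l) := by ring
        _ ≤ R * w i + 8 * w i := by omega
        _ < _ := g1
    exact Nat.lt_of_mul_lt_mul_left g3
  -- bound for one level
  have hlev : ∀ l ∈ range Λ, ((Y ∩ Lv R w l).card : ℝ) ≤
      4 * R ^ 2 * (η * (Vs w l).card + 8 * R * (Bd ∩ Lv R w l).card) := by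
    intro l hl
    by_cases hv : β ≤ (Vs w l).card
    · -- one critical set
      have hone : ∀ t t', 1 ≤ t → t < 2 * R → 1 ≤ t' → t' < 2 * R →
          ((Ys R w l (t + t') (cl r1 (A1 (t * 2 ^ l))) (cl r2 (A2 (t' * 2 ^ l)))).card : ℝ) ≤
            η * (Vs w l).card + 8 * R * (Bd ∩ Lv R w l).card := by
        intro t t' ht ht2 ht' ht2'
        obtain ⟨J1, hJ1, hJ1c, hJ1e⟩ := flat_rep h1 hβ0 hβ1 hm hra1 w l _ (hLs1 l t ht)
        obtain ⟨J2, hJ2, hJ2c, hJ2e⟩ := flat_rep h2 hβ0 hβ2 hm hra2 w l _ (hLs2 l t' ht')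
        by_cases hbig : η * (Vs w l).card <
          (Ys R w l (t + t') (cl r1 (A1 (t * 2 ^ l))) (cl r2 (A2 (t' * 2 ^ l)))).card
        · have hmem := hI1 l (mem_range.1 hl) hv (t + t') (by omega) J1 hJ1 J2 hJ2 hJ1c hJ2c
            (by rw [hJ1e, hJ2e]; exact hbig)
          have h3 := hZ1 _ hmem
          simp only [hJ1e, hJ2e] at h3
          rw [div_le_iff₀ (by positivity)] at h3
          have h4 : Z ∩ Ys R w l (t + t') (cl r1 (A1 (t * 2 ^ l))) (cl r2 (A2 (t' * 2 ^ l))) ⊆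
              Bd ∩ Lv R w l := by
            intro i hi
            simp only [Ys, Lv, hBd, mem_inter, mem_filter, mem_univ, true_and] at hi ⊢
            obtain ⟨hiZ, ⟨g1, g2⟩, g3, g4, g5⟩ := hi
            refine ⟨?_, g1, g2⟩
            have g6 := hZA i hiZ (t * 2 ^ l) (t' * 2 ^ l) (fun hc => g3 (subset_cl _ hc))
              (fun hc => g4 (subset_cl _ hc))
            have g7 : 4 * 2 ^ l ≤ (Z ∩ N i).card := by
              have : (t + t') * 2 ^ l = t * 2 ^ l + t' * 2 ^ l := by ring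
              omega
            calc 2 * w i ≤ 2 * (2 * R * 2 ^ l) := by omega
              _ = R * (4 * 2 ^ l) := by ring
              _ ≤ R * (Z ∩ N i).card := Nat.mul_le_mul_left _ g7
          have h5 : ((Z ∩ Ys R w l (t + t') (cl r1 (A1 (t * 2 ^ l)))
              (cl r2 (A2 (t' * 2 ^ l)))).card : ℝ) ≤ (Bd ∩ Lv R w l).card := by
            exact_mod_cast card_le_card h4
          have h6 : 0 ≤ η * (Vs w l).card := by positivity
          have h7 := mul_le_mul_of_nonneg_right h5 (by positivity : (0 : ℝ) ≤ 8 * R)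
          linarith
        · push Not at hbig
          have : 0 ≤ 8 * (R : ℝ) * (Bd ∩ Lv R w l).card := by positivity
          linarith
      -- the cover
      have hcov : Y ∩ Lv R w l ⊆ (Icc 1 (2 * R - 1) ×ˢ Icc 1 (2 * R - 1)).biUnion (fun p =>
          Ys R w l (p.1 + p.2) (cl r1 (A1 (p.1 * 2 ^ l))) (cl r2 (A2 (p.2 * 2 ^ l)))) := by
        intro i hi
        have g1 := hYl l i hi
        have g0 : i ∈ Lv R w l := (mem_inter.1 hi).2
        have g2 : w i < 2 * R * 2 ^ l := by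
          simp only [Lv, mem_filter, mem_univ, true_and] at g0
          exact g0.2
        have gx := hx1 i
        have gy := hy1 i
        have hp : 0 < 2 ^ l := by positivity
        obtain ⟨t, ht⟩ : ∃ t, t = (x i - 1) / 2 ^ l := ⟨_, rfl⟩
        obtain ⟨t', ht'⟩ : ∃ t', t' = (y i - 1) / 2 ^ l := ⟨_, rfl⟩
        have tx1 : t * 2 ^ l ≤ x i - 1 := by rw [ht]; exact Nat.div_mul_le_self _ _
        have ty1 : t' * 2 ^ l ≤ y i - 1 := by rw [ht']; exact Nat.div_mul_le_self _ _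
        have tx2 : x i - 1 < t * 2 ^ l + 2 ^ l := by
          have e := Nat.div_add_mod (x i - 1) (2 ^ l)
          have e' := Nat.mod_lt (x i - 1) hp
          rw [← ht, mul_comm] at e
          omega
        have ty2 : y i - 1 < t' * 2 ^ l + 2 ^ l := by
          have e := Nat.div_add_mod (y i - 1) (2 ^ l)
          have e' := Nat.mod_lt (y i - 1) hp
          rw [← ht', mul_comm] at e
          omega
        have t1 : 1 ≤ t := by
          by_contra hc
          have : t = 0 := by omega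
          rw [this] at tx2
          omega
        have t1' : 1 ≤ t' := by
          by_contra hc
          have : t' = 0 := by omega
          rw [this] at ty2
          omega
        have t2 : t < 2 * R := by
          have : t * 2 ^ l < 2 * R * 2 ^ l := by omega
          exact Nat.lt_of_mul_lt_mul_right this
        have t2' : t' < 2 * R := by
          have : t' * 2 ^ l < 2 * R * 2 ^ l := by omega
          exact Nat.lt_of_mul_lt_mul_right this
        refine mem_biUnion.2 ⟨(t, t'), ?_, ?_⟩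
        · simp only [mem_product, mem_Icc]
          omega
        · refine mem_filter.2 ⟨g0, hx2 i (t * 2 ^ l) (by omega), hy2 i (t' * 2 ^ l) (by omega), ?_⟩
          have : (t + t') * 2 ^ l = t * 2 ^ l + t' * 2 ^ l := by ring
          rw [this]
          omega
      have hc1 : ((Y ∩ Lv R w l).card : ℝ) ≤ ∑ p ∈ Icc 1 (2 * R - 1) ×ˢ Icc 1 (2 * R - 1),
          ((Ys R w l (p.1 + p.2) (cl r1 (A1 (p.1 * 2 ^ l)))
            (cl r2 (A2 (p.2 * 2 ^ l)))).card : ℝ) := by
        exact_mod_cast (card_le_card hcov).trans card_biUnion_le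
      refine hc1.trans ?_
      have hc2 : ∑ p ∈ Icc 1 (2 * R - 1) ×ˢ Icc 1 (2 * R - 1),
          ((Ys R w l (p.1 + p.2) (cl r1 (A1 (p.1 * 2 ^ l)))
            (cl r2 (A2 (p.2 * 2 ^ l)))).card : ℝ) ≤ ∑ p ∈ Icc 1 (2 * R - 1) ×ˢ Icc 1 (2 * R - 1),
            (η * (Vs w l).card + 8 * R * (Bd ∩ Lv R w l).card) := by
        apply Finset.sum_le_sum
        intro p hp
        simp only [mem_product, mem_Icc] at hp
        exact hone p.1 p.2 hp.1.1 (by omega) hp.2.1 (by omega)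
      refine hc2.trans ?_
      rw [Finset.sum_const, card_product, Nat.card_Icc, nsmul_eq_mul]
      have hc3 : 0 ≤ η * (Vs w l).card + 8 * R * (Bd ∩ Lv R w l).card := by positivity
      apply mul_le_mul_of_nonneg_right _ hc3
      have hc4 : 2 * R - 1 + 1 - 1 ≤ 2 * R := by omega
      have hc5 : ((2 * R - 1 + 1 - 1 : ℕ) : ℝ) ≤ 2 * R := by exact_mod_cast hc4
      push_cast
      push_cast at hc5
      calc _ ≤ (2 * R : ℝ) * (2 * R) := mul_le_mul hc5 hc5 (Nat.cast_nonneg _) (by positivity)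
        _ = 4 * R ^ 2 := by ring
    · have hemp : Y ∩ Lv R w l = ∅ := by
        rw [Finset.eq_empty_iff_forall_notMem]
        intro i hi
        have g1 := hYl l i hi
        have gy := hy1 i
        push Not at hv
        have := flat_top h1 hβ0 hβ1 hm hra1 w l (A1 (1 * 2 ^ l)) (hLs1 l 1 le_rfl) hv i
        exact hx2 i _ (by omega) this
      rw [hemp, card_empty, Nat.cast_zero]
      positivity
  -- weight of Y
  have hYw : ∑ i ∈ Y, (w i : ℝ) ≤ (16 * R ^ 3 * η + 128 * R ^ 3 * Real.exp (-β / (2 * R))) * vol := by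
    have g1 := weight_split R w Λ Y (by
      intro i hi
      have : (R : ℝ) ≤ w i := by
        have := hw i
        linarith
      obtain ⟨l, hl⟩ := level_exists R hR w i (by exact_mod_cast this)
      refine ⟨l, ?_, hl⟩
      simp only [Lv, mem_filter, mem_univ, true_and] at hl
      exact hL i l hl.1)
    refine g1.trans ?_
    have g2 : ∀ l ∈ range Λ, 2 * R * 2 ^ l * ((Y ∩ Lv R w l).card : ℝ) ≤
        8 * R ^ 3 * η * (2 ^ l * (Vs w l).card) + 64 * R ^ 3 * (R * 2 ^ l * (Bd ∩ Lv R w l).card) := by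
      intro l hl
      have := mul_le_mul_of_nonneg_left (hlev l hl) (by positivity : (0 : ℝ) ≤ 2 * R * 2 ^ l)
      refine this.trans (le_of_eq ?_)
      ring
    refine (Finset.sum_le_sum g2).trans ?_
    rw [Finset.sum_add_distrib, ← Finset.mul_sum, ← Finset.mul_sum]
    have g3 := weight_Vs w Λ
    have g4 := weight_Lv R w Λ Bd
    have g5 := mul_le_mul_of_nonneg_left g3 (by positivity : (0 : ℝ) ≤ 8 * R ^ 3 * η)
    have g6 := mul_le_mul_of_nonneg_left (g4.trans hZ2) (by positivity : (0 : ℝ) ≤ 64 * R ^ 3)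
    calc _ ≤ 8 * R ^ 3 * η * (2 * vol) + 64 * R ^ 3 * (2 * Real.exp (-β / (2 * R)) * vol) :=
          add_le_add g5 g6
      _ = _ := by ring
  -- total
  have htot : ∑ i, (x i : ℝ) + ∑ i, (y i : ℝ) ≤ (1 + 8 / R) * vol + ∑ i ∈ Y, (w i : ℝ) := by
    rw [← Finset.sum_add_distrib, hvoldef, Finset.mul_sum, hY, Finset.sum_filter,
      ← Finset.sum_add_distrib]
    apply Finset.sum_le_sum
    intro i _
    have gx : (x i : ℝ) ≤ w i := by exact_mod_cast hx1 i
    have gy : (y i : ℝ) ≤ w i := by exact_mod_cast hy1 i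
    have gw : (0 : ℝ) ≤ 8 / R * w i := by positivity
    split_ifs with hc
    · linarith
    · push Not at hc
      have hc' : (R : ℝ) * (x i + y i) ≤ R * w i + 8 * w i := by exact_mod_cast hc
      have e : (1 + 8 / (R : ℝ)) * w i + 0 = (R * w i + 8 * w i) / R := by
        field_simp
        ring
      rw [e, le_div_iff₀ hR0]
      linarith
  calc ∑ s ∈ range W, ((a : ℝ) - r1 (A1 s)) + ∑ s ∈ range W, ((a : ℝ) - r2 (A2 s))
      ≤ (∑ i, (x i : ℝ)) / β + (∑ i, (y i : ℝ)) / β := add_le_add hx3 hy3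
    _ = (∑ i, (x i : ℝ) + ∑ i, (y i : ℝ)) / β := by rw [add_div]
    _ ≤ ((1 + 8 / R + 16 * R ^ 3 * η + 128 * R ^ 3 * Real.exp (-β / (2 * R))) * vol) / β := by
        apply div_le_div_of_nonneg_right _ hβ0.le
        linarith
    _ = _ := by ring

end Pool.Agent.W133
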