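import Mathlib
import Pool.Agent.W133.Sampling
import Pool.Agent.W133.LinAlg
import Pool.Agent.W133.Count

set_option autoImplicit false
set_option linter.unusedSectionVars false

/-! Selection of a cheap pair of bases for a balanced matrix. -/

namespace Pool.Agent.W133

open Finset Pool.Agent.H478R3.Borsuk Filter

variable {U : Type} [Fintype U] [DecidableEq U]

/-- zero pattern (positions of the nonzero entries) -/
noncomputable def nz (A : Matrix U U ℝ) : Finset (U × U) := univ.filter (fun p => A p.1 p.2 ≠ 0)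

theorem mem_nz (A : Matrix U U ℝ) (i j : U) : (i, j) ∈ nz A ↔ A i j ≠ 0 := by simp [nz]

theorem wt_ge (A : Matrix U U ℝ) (hd : ∀ i, A i i ≠ 0) (a : ℕ) (ha : A.rank = a) (ha1 : 1 ≤ a)
    (hbal : ∀ X : Finset U, X.card * a ≤ Fintype.card U *
      (A.submatrix (Subtype.val : X → U) (Subtype.val : X → U)).rank)
    (β : ℝ) (hβ : (Fintype.card U : ℝ) = β * a) (i : U) : β ≤ wt (nz A) i := by
  set X : Finset U := univ.filter (fun j => ¬ ((i, j) ∈ nz A ∨ (j, i) ∈ nz A)) with hX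
  have h1 := nbhd_rank A i X (hd i) (by
    intro j hj
    simp only [hX, mem_filter, mem_univ, true_and, not_or, mem_nz, not_not] at hj
    exact hj.1)
  have h2 := hbal X
  have h3 : wt (nz A) i + X.card = Fintype.card U := by
    unfold wt
    rw [hX, Finset.card_filter_add_card_filter_not, card_univ]
  have ha0 : (0 : ℝ) < a := by exact_mod_cast ha1
  have h4 : ((A.submatrix (Subtype.val : X → U) (Subtype.val : X → U)).rank : ℝ) + 1 ≤ a := by
    rw [ha] at h1
    exact_mod_cast h1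
  have h5 : (X.card : ℝ) * a ≤ Fintype.card U *
      (A.submatrix (Subtype.val : X → U) (Subtype.val : X → U)).rank := by exact_mod_cast h2
  have h6 : (wt (nz A) i : ℝ) + X.card = Fintype.card U := by exact_mod_cast h3
  have hβ0 : 0 ≤ β := by
    by_contra hc
    push Not at hc
    have := mul_neg_of_neg_of_pos hc ha0
    have h7 : (0 : ℝ) ≤ Fintype.card U := Nat.cast_nonneg _
    linarith
  rw [hβ] at h5
  have h8 : (X.card : ℝ) * a ≤ (β * (a - 1)) * a := by
    refine h5.trans ?_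
    have : (A.submatrix (Subtype.val : X → U) (Subtype.val : X → U)).rank ≤ (a : ℝ) - 1 := by linarith
    have := mul_le_mul_of_nonneg_left this (mul_nonneg hβ0 ha0.le)
    linarith
  have h9 := le_of_mul_le_mul_right h8 ha0
  rw [hβ] at h6
  linarith

theorem balanced_lr (A : Matrix U U ℝ) (a : ℕ) (ha1 : 1 ≤ a)
    (hbal : ∀ X : Finset U, X.card * a ≤ Fintype.card U *
      (A.submatrix (Subtype.val : X → U) (Subtype.val : X → U)).rank)
    (β : ℝ) (_hβ0 : 0 ≤ β) (hβ : (Fintype.card U : ℝ) = β * a) (r : Finset U → ℕ)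
    (hr : ∀ X : Finset U, (A.submatrix (Subtype.val : X → U) (Subtype.val : X → U)).rank ≤ r X)
    (X : Finset U) : (X.card : ℝ) ≤ β * r X := by
  have ha0 : (0 : ℝ) < a := by exact_mod_cast ha1
  have h5 : (X.card : ℝ) * a ≤ Fintype.card U *
      (A.submatrix (Subtype.val : X → U) (Subtype.val : X → U)).rank := by exact_mod_cast hbal X
  have h6 : ((A.submatrix (Subtype.val : X → U) (Subtype.val : X → U)).rank : ℝ) ≤ r X := by
    exact_mod_cast hr X
  have h7 := mul_le_mul_of_nonneg_left h6 (Nat.cast_nonneg (α := ℝ) (Fintype.card U))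
  have h8 : (X.card : ℝ) * a ≤ (β * r X) * a := by
    refine (h5.trans h7).trans (le_of_eq ?_)
    rw [hβ]
    ring
  exact le_of_mul_le_mul_right h8 ha0

theorem select_param (ε1 : ℝ) (hε : 0 < ε1) : ∃ (R : ℕ) (β0 : ℝ), 1 ≤ R ∧ 2 ≤ β0 ∧ 24 * R ≤ β0 ∧
    ∀ β : ℝ, β0 ≤ β → 1 + 8 / R + 16 * R ^ 3 * (32 * R * (1 + Real.log β) / β) +
          128 * R ^ 3 * Real.exp (-β / (2 * R)) ≤ 1 + ε1 := by
  obtain ⟨R, hR⟩ := exists_nat_gt (16 / ε1 + 1)
  have hR1 : (1 : ℝ) < R := by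
    have : 0 < 16 / ε1 := by positivity
    linarith
  have hR0 : (0 : ℝ) < R := by linarith
  have h8 : 8 / (R : ℝ) ≤ ε1 / 2 := by
    rw [div_le_div_iff₀ hR0 (by norm_num)]
    have h1 : 16 / ε1 < R := by linarith
    rw [div_lt_iff₀ hε] at h1
    linarith
  have t1 : Tendsto (fun β : ℝ => Real.log β / β) atTop (nhds 0) :=
    Real.isLittleO_log_id_atTop.tendsto_div_nhds_zero
  have t2 : Tendsto (fun β : ℝ => 1 / β) atTop (nhds 0) := by
    simpa using tendsto_inv_atTop_zero (𝕜 := ℝ)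
  have t3 : Tendsto (fun β : ℝ => Real.exp (-β / (2 * R))) atTop (nhds 0) := by
    apply Real.tendsto_exp_atBot.comp
    have : (fun β : ℝ => -β / (2 * R)) = fun β : ℝ => -(1 / (2 * R) * β) := by
      funext β
      ring
    rw [this]
    apply tendsto_neg_atTop_atBot.comp
    exact Tendsto.const_mul_atTop (by positivity) tendsto_id
  have t4 : Tendsto (fun β : ℝ => 16 * (R : ℝ) ^ 3 * (32 * R) * (1 / β + Real.log β / β) +
      128 * R ^ 3 * Real.exp (-β / (2 * R))) atTop (nhds 0) := by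
    have := ((t2.add t1).const_mul (16 * (R : ℝ) ^ 3 * (32 * R))).add
      (t3.const_mul (128 * (R : ℝ) ^ 3))
    simpa using this
  have t5 := (t4.eventually (ge_mem_nhds (show (0 : ℝ) < ε1 / 2 by positivity)))
  obtain ⟨β1, hβ1⟩ := eventually_atTop.1 t5
  refine ⟨R, max 2 (max (24 * R) β1), by exact_mod_cast hR1.le, le_max_left _ _,
    (le_max_left _ _).trans (le_max_right _ _), ?_⟩
  intro β hβ
  have hb : β1 ≤ β := ((le_max_right _ _).trans (le_max_right _ _)).trans hβ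
  have := hβ1 β hb
  have e : 16 * (R : ℝ) ^ 3 * (32 * R * (1 + Real.log β) / β) =
      16 * (R : ℝ) ^ 3 * (32 * R) * (1 / β + Real.log β / β) := by
    ring
  rw [e]
  linarith

/-- **Selection of a cheap pair of bases.** -/
theorem select (ε1 : ℝ) (hε : 0 < ε1) : ∃ β0 : ℝ, 2 ≤ β0 ∧ ∀ (U : Type) [Fintype U]
    [DecidableEq U] (e : U → ℕ), Function.Injective e → ∀ (A : Matrix U U ℝ),
    (∀ i, A i i ≠ 0) → ∀ a : ℕ, A.rank = a → 1 ≤ a →
    (∀ X : Finset U, X.card * a ≤ Fintype.card U *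
      (A.submatrix (Subtype.val : X → U) (Subtype.val : X → U)).rank) →
    ∀ β : ℝ, (Fintype.card U : ℝ) = β * a → β0 ≤ β → (Fintype.card U : ℝ) ≤ Real.exp β →
    ∃ B1 B2 : Finset U, B1.card = a ∧ B2.card = a ∧ lr (fun i => A i) B1 = a ∧
      lr (fun i => A.transpose i) B2 = a ∧
      (((dl e (tch B1 B2 (nz A))).card + (kor B1 B2 (nz A)).card : ℕ) : ℝ) ≤
        (1 + ε1) * ((∑ i, (wt (nz A) i : ℝ)) / β) := by
  obtain ⟨R, β0, hR, hβ02, hβ0R, hpar⟩ := select_param ε1 hε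
  refine ⟨β0, hβ02, ?_⟩
  intro U _ _ e he A hd a ha ha1 hbal β hβ hβ0 hm
  have hβ2 : 2 ≤ β := hβ02.trans hβ0
  have hβpos : 0 < β := by linarith
  have ha0 : (0 : ℝ) < a := by exact_mod_cast ha1
  have hUpos : 0 < Fintype.card U := by
    have : (0 : ℝ) < Fintype.card U := by
      rw [hβ]
      positivity
    exact_mod_cast this
  have hne : Nonempty U := Fintype.card_pos_iff.1 hUpos
  have hw := wt_ge A hd a ha ha1 hbal β hβ
  have hR' : (1 : ℝ) ≤ R := by exact_mod_cast hR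
  have hwm : ∀ i, wt (nz A) i ≤ Fintype.card U := fun i => by
    unfold wt
    exact card_le_univ _
  -- number of levels
  have hΛ : ∃ Λ : ℕ, 8 * R * (Λ : ℝ) ≤ β ^ 2 ∧ ∀ i l, R * 2 ^ l ≤ wt (nz A) i → l < Λ := by
    refine ⟨⌊2 * β⌋₊ + 1, ?_, ?_⟩
    · have h1 : ((⌊2 * β⌋₊ : ℕ) : ℝ) ≤ 2 * β := Nat.floor_le (by positivity)
      push_cast
      have h2 : (⌊2 * β⌋₊ : ℝ) + 1 ≤ 3 * β := by linarith
      have h3 : 24 * R ≤ β := hβ0R.trans hβ0
      calc 8 * (R : ℝ) * (⌊2 * β⌋₊ + 1) ≤ 8 * R * (3 * β) :=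
            mul_le_mul_of_nonneg_left h2 (by positivity)
        _ = (24 * R) * β := by ring
        _ ≤ β * β := mul_le_mul_of_nonneg_right h3 hβpos.le
        _ = β ^ 2 := by ring
    · intro i l hl
      rw [Nat.lt_add_one_iff]
      apply Nat.le_floor
      have h1 : 2 ^ l ≤ Fintype.card U := by
        calc 2 ^ l ≤ R * 2 ^ l := Nat.le_mul_of_pos_left _ hR
          _ ≤ wt (nz A) i := hl
          _ ≤ _ := hwm i
      have h2 : ((2 : ℝ) ^ l) ≤ Real.exp β := by
        refine le_trans ?_ hm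
        exact_mod_cast h1
      have h3 : (l : ℝ) * Real.log 2 ≤ β := by
        have := Real.log_le_log (by positivity) h2
        rwa [Real.log_pow, Real.log_exp] at this
      have h4 : (1 / 2 : ℝ) ≤ Real.log 2 := by
        have := Real.log_two_gt_d9
        linarith
      have h5 : (l : ℝ) * (1 / 2) ≤ l * Real.log 2 :=
        mul_le_mul_of_nonneg_left h4 (Nat.cast_nonneg _)
      linarith
  obtain ⟨Λ, hΛ1, hΛ2⟩ := hΛ
  have hN1 : ∀ i, (i, i) ∈ nz A := fun i => by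
    rw [mem_nz]
    exact hd i
  obtain ⟨Z, hZ⟩ := sampling R hR (β := β) (by linarith [hβ0R.trans hβ0]) Λ hΛ1
    (lr_isRF (fun i => A i)) (lr_isRF (fun i => A.transpose i)) (a := a)
    ((lr_univ A).trans ha) ((lr_col_univ A).trans ha)
    (balanced_lr A a ha1 hbal β hβpos.le hβ _ (lr_row_ge A))
    (balanced_lr A a ha1 hbal β hβpos.le hβ _ (lr_col_ge A)) hβ (wt (nz A)) hw (nb (nz A))
    (fun i => by rw [wt_eq _ _ (hN1 i)]; omega) hΛ2 (Fintype.card U) hwm
  obtain ⟨C, B1, B2, A1, A2, hCZ, hC1, hC2, hB1c, hB2c, hB1, hB2, hA1, hA2, hZA, hm1, hm2, hcost⟩ :=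
    pair_bases (lr_isRF (fun i => A i)) (lr_isRF (fun i => A.transpose i)) (a := a)
    ((lr_univ A).trans ha) ((lr_col_univ A).trans ha) (wt (nz A))
    (fun i => wt (nz A) i + (Z ∩ nb (nz A) i).card) Z (Fintype.card U) hwm
  refine ⟨B1, B2, hB1c, hB2c, hB1, hB2, ?_⟩
  have h1 := hZ A1 A2 hm1 hm2 hA1 hA2 hZA
  have h2 := count_ineq e he (nz A) hN1 Z C B1 B2 hCZ hC1 hC2
  have h3 : (((dl e (tch B1 B2 (nz A))).card + (kor B1 B2 (nz A)).card : ℕ) : ℝ) ≤
      ((∑ i ∈ C, (wt (nz A) i + (Z ∩ nb (nz A) i).card) + ∑ i ∈ B1 \ C, wt (nz A) i +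
        ∑ i ∈ B2 \ C, wt (nz A) i : ℕ) : ℝ) := by exact_mod_cast h2
  refine h3.trans ?_
  have h4 : ((∑ i ∈ C, (wt (nz A) i + (Z ∩ nb (nz A) i).card) + ∑ i ∈ B1 \ C, wt (nz A) i +
        ∑ i ∈ B2 \ C, wt (nz A) i : ℕ) : ℝ) ≤
      ∑ s ∈ range (Fintype.card U), ((a : ℝ) - lr (fun i => A i) (A1 s)) +
      ∑ s ∈ range (Fintype.card U), ((a : ℝ) - lr (fun i => A.transpose i) (A2 s)) := by
    exact_mod_cast hcost
  refine h4.trans (h1.trans ?_)
  apply mul_le_mul_of_nonneg_right (hpar β hβ0)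
  apply div_nonneg _ hβpos.le
  exact Finset.sum_nonneg (fun i _ => Nat.cast_nonneg _)

end Pool.Agent.W133
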