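import Mathlib
import Pool.Agent.W133.Poly
import Pool.Agent.W133.Select

set_option autoImplicit false
set_option linter.unusedSectionVars false

/-! Patterns with a given touched part. -/

namespace Pool.Agent.W133

open Finset Module

variable {U : Type} [Fintype U] [DecidableEq U]

/-- coordinate function of an entry -/
def ent (T : Finset (U × U)) (x y : U) : (T → ℝ) → ℝ :=
  if h : (x, y) ∈ T then fun t => t ⟨(x, y), h⟩ else 0

/-- core entries -/
def kap (T : Finset (U × U)) (B1 B2 : Finset U) (v : T) : Prop := v.1.1 ∈ B1 ∧ v.1.2 ∈ B2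

instance (T : Finset (U × U)) (B1 B2 : Finset U) : DecidablePred (kap T B1 B2) :=
  fun v => inferInstanceAs (Decidable (v.1.1 ∈ B1 ∧ v.1.2 ∈ B2))

/-- bordered matrix of coordinate functions -/
def bordF (T : Finset (U × U)) {a : ℕ} (b1 b2 : Fin a → U) (i j : U) :
    Matrix (Fin a ⊕ Unit) (Fin a ⊕ Unit) ((T → ℝ) → ℝ) :=
  Matrix.fromBlocks (Matrix.of fun p q => ent T (b1 p) (b2 q)) (Matrix.of fun p _ => ent T (b1 p) j)
    (Matrix.of fun _ q => ent T i (b2 q)) 0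

theorem ent_mem (T : Finset (U × U)) (B1 B2 : Finset U) (x y : U) :
    ent T x y ∈ PS (kap T B1 B2) 1 1 := by
  unfold ent
  split_ifs with h
  · by_cases hk : kap T B1 B2 ⟨(x, y), h⟩
    · exact PS_mono _ le_rfl (Nat.zero_le _) (PS_coord1 _ _ hk)
    · exact PS_mono _ (Nat.zero_le _) le_rfl (PS_coord2 _ _ hk)
  · exact Submodule.zero_mem _

theorem ent_mem' (T : Finset (U × U)) (B1 B2 : Finset U) (x y : U) (hx : x ∈ B1) (hy : y ∈ B2) :
    ent T x y ∈ PS (kap T B1 B2) 1 0 := by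
  unfold ent
  split_ifs with h
  · exact PS_coord1 _ _ ⟨hx, hy⟩
  · exact Submodule.zero_mem _

/-- outer degree of a position -/
def ld {a : ℕ} (x y : Fin a ⊕ Unit) : ℕ :=
  (if x.isRight then 1 else 0) + (if y.isRight then 1 else 0)

theorem bordF_entry (T : Finset (U × U)) (B1 B2 : Finset U) {a : ℕ} (b1 b2 : Fin a → U)
    (hb1 : ∀ p, b1 p ∈ B1) (hb2 : ∀ p, b2 p ∈ B2) (i j : U) (x y : Fin a ⊕ Unit) :
    bordF T b1 b2 i j x y ∈ PS (kap T B1 B2) 1 (ld x y) := by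
  rcases x with p | u <;> rcases y with q | u'
  · exact ent_mem' T B1 B2 _ _ (hb1 p) (hb2 q)
  · exact ent_mem T B1 B2 _ _
  · exact ent_mem T B1 B2 _ _
  · exact Submodule.zero_mem _

theorem bordF_det_mem (T : Finset (U × U)) (B1 B2 : Finset U) {a : ℕ} (b1 b2 : Fin a → U)
    (hb1 : ∀ p, b1 p ∈ B1) (hb2 : ∀ p, b2 p ∈ B2) (i j : U) :
    (bordF T b1 b2 i j).det ∈ PS (kap T B1 B2) (a + 1) 2 := by
  rw [Matrix.det_apply]
  apply Submodule.sum_mem
  intro σ _
  have h1 := PS_prod (kap T B1 B2) (univ : Finset (Fin a ⊕ Unit))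
    (fun x => bordF T b1 b2 i j (σ x) x) (fun _ => 1) (fun x => ld (σ x) x)
    (fun x _ => bordF_entry T B1 B2 b1 b2 hb1 hb2 i j (σ x) x)
  have h2 : ∑ _x : Fin a ⊕ Unit, 1 = a + 1 := by simp
  have h3 : ∑ x : Fin a ⊕ Unit, ld (σ x) x = 2 := by
    unfold ld
    rw [Finset.sum_add_distrib]
    have h4 : ∑ x : Fin a ⊕ Unit, (if (σ x).isRight then 1 else 0) =
        ∑ x : Fin a ⊕ Unit, (if x.isRight then 1 else 0) :=
      Equiv.sum_comp σ (fun x => if x.isRight then 1 else 0)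
    rw [h4, Fintype.sum_sum_type]
    simp
  rw [h2, h3] at h1
  rcases Int.units_eq_one_or (Equiv.Perm.sign σ) with hs | hs
  · rw [hs, one_smul]
    exact h1
  · rw [hs, Units.neg_smul, one_smul]
    exact Submodule.neg_mem _ h1

theorem bordF_eval (T : Finset (U × U)) {a : ℕ} (b1 b2 : Fin a → U) (i j : U) (A : Matrix U U ℝ)
    (h0 : ∀ p q, A (b1 p) (b2 q) ≠ 0 → (b1 p, b2 q) ∈ T)
    (h1 : ∀ p, A (b1 p) j ≠ 0 → (b1 p, j) ∈ T) (h2 : ∀ q, A i (b2 q) ≠ 0 → (i, b2 q) ∈ T) :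
    (bordF T b1 b2 i j).det (fun v => A v.1.1 v.1.2) = (bord A b1 b2 i j).det := by
  have e1 : (bordF T b1 b2 i j).det (fun v => A v.1.1 v.1.2) =
      (Pi.evalRingHom (fun _ : (T → ℝ) => ℝ) (fun v => A v.1.1 v.1.2)) (bordF T b1 b2 i j).det := rfl
  rw [e1, RingHom.map_det]
  congr 1
  have key : ∀ x y, (A x y ≠ 0 → (x, y) ∈ T) → ent T x y (fun v => A v.1.1 v.1.2) = A x y := by
    intro x y h
    unfold ent
    split_ifs with hT
    · rfl
    · by_contra hc
      exact hT (h (fun h0 => hc (by rw [h0]; rfl)))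
  ext x y
  rcases x with p | u <;> rcases y with q | u'
  · exact key _ _ (h0 p q)
  · exact key _ _ (h1 p)
  · exact key _ _ (h2 q)
  · rfl

theorem card_kap (T : Finset (U × U)) (P : U × U → Prop) [DecidablePred P] :
    (univ.filter (fun v : T => P v.1)).card = (T.filter P).card := by
  rw [← Finset.card_map (Function.Embedding.subtype (· ∈ T))]
  congr 1
  ext p
  simp only [mem_map, mem_filter, mem_univ, true_and, Function.Embedding.coe_subtype,
    Subtype.exists, exists_and_left, exists_prop, exists_eq_right_right]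
  tauto

theorem pat_T (T : Finset (U × U)) (B1 B2 : Finset U) (a S : ℕ) (ha : 1 ≤ a) (hB1 : B1.card = a)
    (hB2 : B2.card = a) (𝒩 : Finset (Finset (U × U)))
    (h𝒩 : ∀ N ∈ 𝒩, N.card ≤ S ∧ tch B1 B2 N = T ∧ ∃ A : Matrix U U ℝ, nz A = N ∧ A.rank = a ∧
      lr (fun i => A i) B1 = a ∧ lr (fun i => A.transpose i) B2 = a) (m β : ℝ) (hm : 2 ≤ m)
    (hβ : 2 ≤ β) (hma : m = β * a) :
    (𝒩.card : ℝ) ≤ m ^ (kor B1 B2 T).card * β ^ (T.card - (kor B1 B2 T).card) *
      Real.exp (8 * (S / β)) := by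
  classical
  have ha0 : (1 : ℝ) ≤ a := by exact_mod_cast ha
  have hβ0 : 0 < β := by linarith
  set b1 : Fin a → U := fun p => ((B1.equivFinOfCardEq hB1).symm p).1 with hb1
  set b2 : Fin a → U := fun p => ((B2.equivFinOfCardEq hB2).symm p).1 with hb2
  have hb1m : ∀ p, b1 p ∈ B1 := fun p => ((B1.equivFinOfCardEq hB1).symm p).2
  have hb2m : ∀ p, b2 p ∈ B2 := fun p => ((B2.equivFinOfCardEq hB2).symm p).2
  have hb1r : Set.range b1 = (B1 : Set U) := by
    ext x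
    constructor
    · rintro ⟨p, rfl⟩
      exact hb1m p
    · intro hx
      refine ⟨B1.equivFinOfCardEq hB1 ⟨x, hx⟩, ?_⟩
      simp [hb1]
  have hb2r : Set.range b2 = (B2 : Set U) := by
    ext x
    constructor
    · rintro ⟨p, rfl⟩
      exact hb2m p
    · intro hx
      refine ⟨B2.equivFinOfCardEq hB2 ⟨x, hx⟩, ?_⟩
      simp [hb2]
  have hpt : ∀ N : Finset (U × U), ∃ t : T → ℝ, N ∈ 𝒩 → ∀ p : U × U,
      (bordF T b1 b2 p.1 p.2).det t ≠ 0 ↔ p ∈ N := by
    intro N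
    by_cases hN : N ∈ 𝒩
    · obtain ⟨_, hT, A, hA, hrk, hl1, hl2⟩ := h𝒩 N hN
      refine ⟨fun v => A v.1.1 v.1.2, fun _ p => ?_⟩
      have hTm : ∀ x y, (x ∈ B1 ∨ y ∈ B2) → A x y ≠ 0 → (x, y) ∈ T := by
        intro x y hxy hne
        rw [← hT]
        unfold tch
        rw [mem_filter, ← hA, mem_nz]
        exact ⟨hne, hxy⟩
      rw [bordF_eval T b1 b2 p.1 p.2 A (fun q r h => hTm _ _ (Or.inl (hb1m q)) h)
        (fun q h => hTm _ _ (Or.inl (hb1m q)) h) (fun q h => hTm _ _ (Or.inr (hb2m q)) h),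
        bord_det A b1 b2 B1 B2 hb1r hb2r hrk hl1 hl2, ← hA]
      exact (mem_nz A p.1 p.2).symm
    · exact ⟨0, fun h => absurd h hN⟩
  choose pt hpt using hpt
  have h1 := pattern_count (kap T B1 B2) 𝒩 pt (fun p => (bordF T b1 b2 p.1 p.2).det)
    (fun N hN p => hpt N hN p) (a + 1) 2 S (fun p => bordF_det_mem T B1 B2 b1 b2 hb1m hb2m p.1 p.2)
    (fun N hN => (h𝒩 N hN).1)
  have h2 := ExpF_card (kap T B1 B2) (S * (a + 1)) (S * 2) m β hm hβ
  have h3 : (𝒩.card : ℝ) ≤ (ExpF (kap T B1 B2) (S * (a + 1)) (S * 2)).card := by exact_mod_cast h1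
  refine h3.trans (h2.trans ?_)
  have e1 : (univ.filter (kap T B1 B2)).card = (kor B1 B2 T).card :=
    card_kap T (fun p => p.1 ∈ B1 ∧ p.2 ∈ B2)
  have e2 : (univ.filter (fun v => ¬ kap T B1 B2 v)).card = T.card - (kor B1 B2 T).card := by
    have := card_kap T (fun p => ¬ (p.1 ∈ B1 ∧ p.2 ∈ B2))
    have h4 := Finset.card_filter_add_card_filter_not (s := T) (fun p => p.1 ∈ B1 ∧ p.2 ∈ B2)
    have h5 : (univ.filter (fun v => ¬ kap T B1 B2 v)).card =
      (T.filter (fun p => ¬ (p.1 ∈ B1 ∧ p.2 ∈ B2))).card := this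
    rw [h5]
    unfold kor
    omega
  rw [e1, e2]
  apply mul_le_mul_of_nonneg_left _ (by positivity)
  apply Real.exp_le_exp.2
  push_cast
  have hS0 : (0 : ℝ) ≤ S / β := by positivity
  have h6 : 2 * ((S : ℝ) * (a + 1)) / m = 2 * (S / β) * ((a + 1) / a) := by
    rw [hma]
    field_simp
  have h7 : ((a : ℝ) + 1) / a ≤ 2 := by
    rw [div_le_iff₀ (by linarith)]
    linarith
  have h8 : 2 * ((S : ℝ) / β) * ((a + 1) / a) ≤ 2 * (S / β) * 2 :=
    mul_le_mul_of_nonneg_left h7 (by positivity)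
  rw [h6]
  have h9 : 2 * ((S : ℝ) * 2) / β = 4 * (S / β) := by ring
  rw [h9]
  linarith

end Pool.Agent.W133
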