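import Mathlib
import Pool.Agent.W133.PatT

set_option autoImplicit false
set_option linter.unusedSectionVars false

/-! The number of patterns of balanced matrices. -/

namespace Pool.Agent.W133

open Finset Module

variable {U : Type} [Fintype U] [DecidableEq U]

/-- positions touched by a pair of sets -/
def RgS (B1 B2 : Finset U) : Finset (U × U) := univ.filter (fun p => p.1 ∈ B1 ∨ p.2 ∈ B2)

theorem card_RgS (B1 B2 : Finset U) :
    (RgS B1 B2).card ≤ B1.card * Fintype.card U + Fintype.card U * B2.card := by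
  have h : RgS B1 B2 ⊆ (B1 ×ˢ univ) ∪ (univ ×ˢ B2) := by
    intro p hp
    simp only [RgS, mem_filter, mem_univ, true_and] at hp
    simp only [mem_union, mem_product, mem_univ, and_true, true_and]
    exact hp
  refine (card_le_card h).trans ((card_union_le _ _).trans ?_)
  rw [card_product, card_product, card_univ]

theorem card_dl (e : U → ℕ) (T : Finset (U × U)) : (dl e T).card ≤ 2 * T.card := by
  have h : dl e T ⊆ T ∪ T.image Prod.swap := by
    intro p hp
    simp only [dl, mem_filter, mem_univ, true_and] at hp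
    rcases hp.2 with h | h
    · exact mem_union_left _ h
    · exact mem_union_right _ (mem_image.2 ⟨_, h, rfl⟩)
  have h2 : (T.image Prod.swap).card ≤ T.card := card_image_le
  have h3 := (card_le_card h).trans (card_union_le _ _)
  omega

theorem T_sub (e : U → ℕ) (he : Function.Injective e) (B1 B2 : Finset U) (T : Finset (U × U))
    (hT : T ⊆ RgS B1 B2) :
    T ⊆ (dl e T ∪ (dl e T).image Prod.swap) ∪ (B1 ∪ B2).image (fun x => (x, x)) := by
  rintro ⟨x, y⟩ hp
  rcases lt_trichotomy (e x) (e y) with h | h | h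
  · apply mem_union_left
    apply mem_union_left
    simp only [dl, mem_filter, mem_univ, true_and]
    exact ⟨h, Or.inl hp⟩
  · have hxy := he h
    subst hxy
    apply mem_union_right
    have := hT hp
    simp only [RgS, mem_filter, mem_univ, true_and] at this
    exact mem_image.2 ⟨x, mem_union.2 this, rfl⟩
  · apply mem_union_left
    apply mem_union_right
    refine mem_image.2 ⟨(y, x), ?_, rfl⟩
    simp only [dl, mem_filter, mem_univ, true_and]
    exact ⟨h, Or.inr hp⟩

theorem T_sub_card (_e : U → ℕ) (B1 B2 : Finset U) (E : Finset (U × U)) (a : ℕ)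
    (h1 : B1.card = a) (h2 : B2.card = a) :
    ((E ∪ E.image Prod.swap) ∪ (B1 ∪ B2).image (fun x => (x, x))).card ≤ 2 * E.card + 2 * a := by
  have g1 : (E.image Prod.swap).card ≤ E.card := card_image_le
  have g2 : ((B1 ∪ B2).image (fun x => (x, x))).card ≤ (B1 ∪ B2).card := card_image_le
  have g3 := card_union_le B1 B2
  have g4 := card_union_le E (E.image Prod.swap)
  have g5 := card_union_le (E ∪ E.image Prod.swap) ((B1 ∪ B2).image (fun x => (x, x)))
  omega

theorem T_card (e : U → ℕ) (he : Function.Injective e) (B1 B2 : Finset U) (T : Finset (U × U))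
    (hT : T ⊆ RgS B1 B2) (a : ℕ) (h1 : B1.card = a) (h2 : B2.card = a) :
    T.card ≤ 2 * (dl e T).card + 2 * a :=
  (card_le_card (T_sub e he B1 B2 T hT)).trans (T_sub_card e B1 B2 _ a h1 h2)

theorem sum_T (e : U → ℕ) (he : Function.Injective e) (B1 B2 : Finset U) (a : ℕ)
    (h1 : B1.card = a) (h2 : B2.card = a) (hU : 0 < Fintype.card U) :
    ∑ T ∈ (RgS B1 B2).powerset, ((Fintype.card U : ℝ)⁻¹) ^ (dl e T).card ≤
      Real.exp (18 * a) := by
  set m : ℝ := (Fintype.card U : ℝ) with hm
  have hm0 : 0 < m := by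
    rw [hm]
    exact_mod_cast hU
  have hmap : ∀ T ∈ (RgS B1 B2).powerset, dl e T ∈ (dl e (RgS B1 B2)).powerset := by
    intro T hT
    rw [mem_powerset] at hT ⊢
    intro p hp
    simp only [dl, mem_filter, mem_univ, true_and] at hp ⊢
    refine ⟨hp.1, ?_⟩
    rcases hp.2 with h | h
    · exact Or.inl (hT h)
    · exact Or.inr (hT h)
  rw [← Finset.sum_fiberwise_of_maps_to hmap]
  have hfib : ∀ E ∈ (dl e (RgS B1 B2)).powerset,
      ∑ T ∈ (RgS B1 B2).powerset.filter (fun T => dl e T = E), (m⁻¹) ^ (dl e T).card ≤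
        (4 : ℝ) ^ a * (4 / m) ^ E.card := by
    intro E _
    have e1 : ∑ T ∈ (RgS B1 B2).powerset.filter (fun T => dl e T = E), (m⁻¹) ^ (dl e T).card =
        (((RgS B1 B2).powerset.filter (fun T => dl e T = E)).card : ℝ) * (m⁻¹) ^ E.card := by
      rw [Finset.sum_congr rfl (g := fun _ => (m⁻¹) ^ E.card), Finset.sum_const, nsmul_eq_mul]
      intro T hT
      rw [(mem_filter.1 hT).2]
    have e2 : ((RgS B1 B2).powerset.filter (fun T => dl e T = E)).card ≤ 2 ^ (2 * E.card + 2 * a) := by
      have h3 : (RgS B1 B2).powerset.filter (fun T => dl e T = E) ⊆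
          ((E ∪ E.image Prod.swap) ∪ (B1 ∪ B2).image (fun x => (x, x))).powerset := by
        intro T hT
        rw [mem_filter, mem_powerset] at hT
        rw [mem_powerset, ← hT.2]
        exact T_sub e he B1 B2 T hT.1
      refine (card_le_card h3).trans ?_
      rw [card_powerset]
      exact Nat.pow_le_pow_right (by norm_num) (T_sub_card e B1 B2 E a h1 h2)
    have e3 : (((RgS B1 B2).powerset.filter (fun T => dl e T = E)).card : ℝ) ≤
        (4 : ℝ) ^ E.card * (4 : ℝ) ^ a := by
      have : ((2 : ℝ)) ^ (2 * E.card + 2 * a) = (4 : ℝ) ^ E.card * (4 : ℝ) ^ a := by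
        rw [pow_add, pow_mul, pow_mul]
        norm_num
      rw [← this]
      exact_mod_cast e2
    rw [e1]
    calc _ ≤ (4 : ℝ) ^ E.card * (4 : ℝ) ^ a * (m⁻¹) ^ E.card :=
          mul_le_mul_of_nonneg_right e3 (by positivity)
      _ = (4 : ℝ) ^ a * (4 / m) ^ E.card := by
          rw [div_eq_mul_inv, mul_pow]
          ring
  refine (Finset.sum_le_sum hfib).trans ?_
  rw [← Finset.mul_sum]
  have h3 := Finset.sum_pow_mul_eq_add_pow (4 / m) 1 (dl e (RgS B1 B2))
  simp only [one_pow, mul_one] at h3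
  rw [h3]
  have h4 : ((dl e (RgS B1 B2)).card : ℝ) ≤ 4 * a * m := by
    have g1 := card_dl e (RgS B1 B2)
    have g2 := card_RgS B1 B2
    rw [h1, h2] at g2
    have g3 : (dl e (RgS B1 B2)).card ≤ 4 * a * Fintype.card U := by
      calc _ ≤ 2 * (a * Fintype.card U + Fintype.card U * a) := by omega
        _ = 4 * a * Fintype.card U := by ring
    rw [hm]
    exact_mod_cast g3
  have h5 : (4 / m + 1) ^ (dl e (RgS B1 B2)).card ≤ Real.exp (16 * a) := by
    calc (4 / m + 1) ^ (dl e (RgS B1 B2)).card ≤ (Real.exp (4 / m)) ^ (dl e (RgS B1 B2)).card := by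
          apply pow_le_pow_left₀ (by positivity)
          exact Real.add_one_le_exp _
      _ = Real.exp ((dl e (RgS B1 B2)).card * (4 / m)) := by rw [← Real.exp_nat_mul]
      _ ≤ Real.exp (16 * a) := by
          apply Real.exp_le_exp.2
          calc ((dl e (RgS B1 B2)).card : ℝ) * (4 / m) ≤ (4 * a * m) * (4 / m) :=
                mul_le_mul_of_nonneg_right h4 (by positivity)
            _ = 16 * a := by
                field_simp
                ring
  have h6 : (4 : ℝ) ^ a ≤ Real.exp (2 * a) := by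
    have : (4 : ℝ) ≤ Real.exp 2 := by
      have h7 := Real.exp_one_gt_d9
      have h8 : Real.exp 2 = Real.exp 1 * Real.exp 1 := by
        rw [← Real.exp_add]
        norm_num
      rw [h8]
      nlinarith
    calc (4 : ℝ) ^ a ≤ (Real.exp 2) ^ a := pow_le_pow_left₀ (by norm_num) this _
      _ = Real.exp (2 * a) := by
          rw [← Real.exp_nat_mul]
          ring_nf
  calc (4 : ℝ) ^ a * (4 / m + 1) ^ (dl e (RgS B1 B2)).card ≤
      Real.exp (2 * a) * Real.exp (16 * a) := mul_le_mul h6 h5 (by positivity) (Real.exp_nonneg _)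
    _ = Real.exp (18 * a) := by
        rw [← Real.exp_add]
        ring_nf

/-- patterns of balanced matrices of rank `a` and volume `S` -/
def GP (U : Type) [Fintype U] [DecidableEq U] (a S : ℕ) (N : Finset (U × U)) : Prop :=
  ∃ A : Matrix U U ℝ, nz A = N ∧ (∀ i, A i i ≠ 0) ∧ A.rank = a ∧
    (∀ X : Finset U, X.card * a ≤ Fintype.card U *
      (A.submatrix (Subtype.val : X → U) (Subtype.val : X → U)).rank) ∧ ∑ i, wt N i = S

theorem card_le_vol (N : Finset (U × U)) : N.card ≤ ∑ i, wt N i := by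
  have h1 : N.card = ∑ i, (N.filter (fun p => p.1 = i)).card :=
    Finset.card_eq_sum_card_fiberwise (fun _ _ => mem_coe.2 (mem_univ _))
  rw [h1]
  apply Finset.sum_le_sum
  intro i _
  have h2 : (N.filter (fun p => p.1 = i)).card ≤ (univ.filter (fun j => (i, j) ∈ N ∨ (j, i) ∈ N)).card := by
    apply Finset.card_le_card_of_injOn (fun p => p.2)
    · intro p hp
      simp only [coe_filter, Set.mem_ofPred_eq] at hp
      simp only [coe_filter, mem_univ, true_and, Set.mem_ofPred_eq]
      left
      rw [← hp.2]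
      exact hp.1
    · intro p hp p' hp' h
      simp only [coe_filter, Set.mem_ofPred_eq] at hp hp'
      exact Prod.ext (hp.2.trans hp'.2.symm) h
  exact h2

theorem kor_tch (B1 B2 : Finset U) (N : Finset (U × U)) : kor B1 B2 (tch B1 B2 N) = kor B1 B2 N := by
  unfold kor tch
  rw [Finset.filter_filter]
  congr 1
  ext p
  simp only [and_iff_right_iff_imp]
  intro h
  exact Or.inl h.1

open scoped Classical in
/-- **The number of patterns.** -/
theorem pat_count (ε1 : ℝ) (hε : 0 < ε1) (hε1 : ε1 ≤ 1) : ∃ β0 : ℝ, 2 ≤ β0 ∧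
    ∀ (U : Type) [Fintype U] [DecidableEq U] (e : U → ℕ), Function.Injective e →
    ∀ a S : ℕ, 1 ≤ a → ∀ β : ℝ, (Fintype.card U : ℝ) = β * a → β0 ≤ β →
    (Fintype.card U : ℝ) ≤ Real.exp β →
    (((univ : Finset (Finset (U × U))).filter (fun N => GP U a S N)).card : ℝ) ≤
      Real.exp ((S / β) * ((1 + ε1) * Real.log (Fintype.card U) + 6 * Real.log β + 20)) := by
  obtain ⟨β0, hβ02, hsel⟩ := select ε1 hε
  refine ⟨β0, hβ02, ?_⟩
  intro U _ _ e he a S ha β hβ hβ0 hm
  have hβ2 : 2 ≤ β := hβ02.trans hβ0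
  have hβpos : 0 < β := by linarith
  have ha1 : (1 : ℝ) ≤ a := by exact_mod_cast ha
  set m : ℝ := (Fintype.card U : ℝ) with hmdef
  have hm2 : 2 ≤ m := by
    rw [hβ]
    nlinarith
  have hm0 : 0 < m := by linarith
  have hU : 0 < Fintype.card U := by
    have : (0 : ℝ) < Fintype.card U := hm0
    exact_mod_cast this
  have hlogm : 0 ≤ Real.log m := Real.log_nonneg (by linarith)
  have hlogβ : 0 ≤ Real.log β := Real.log_nonneg (by linarith)
  set Pat := (univ : Finset (Finset (U × U))).filter (fun N => GP U a S N) with hPat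
  set Q : ℝ := S / β with hQ
  have hQ0 : 0 ≤ Q := by positivity
  rcases Pat.eq_empty_or_nonempty with hemp | hnem
  · rw [hemp, card_empty, Nat.cast_zero]
    exact Real.exp_nonneg _
  -- the volume is big
  have hQm : m ≤ Q := by
    obtain ⟨N, hN⟩ := hnem
    obtain ⟨A, hA, hd, hrk, hbal, hS⟩ := (mem_filter.1 hN).2
    have h1 : ∀ i, β ≤ wt N i := by
      intro i
      rw [← hA]
      exact wt_ge A hd a hrk ha hbal β hβ i
    have h2 : ∑ _i : U, β ≤ ∑ i, (wt N i : ℝ) := Finset.sum_le_sum (fun i _ => h1 i)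
    rw [Finset.sum_const, nsmul_eq_mul, card_univ] at h2
    have h3 : (∑ i, (wt N i : ℝ)) = S := by exact_mod_cast hS
    rw [h3] at h2
    rw [hQ, le_div_iff₀ hβpos]
    exact h2
  set Q' : ℝ := (1 + ε1) * Q with hQ'
  set 𝒩 : Finset U × Finset U → Finset (U × U) → Finset (Finset (U × U)) := fun b T =>
    Pat.filter (fun N => tch b.1 b.2 N = T ∧
      (((dl e (tch b.1 b.2 N)).card + (kor b.1 b.2 N).card : ℕ) : ℝ) ≤ Q' ∧
      ∃ A : Matrix U U ℝ, nz A = N ∧ A.rank = a ∧
      lr (fun i => A i) b.1 = a ∧ lr (fun i => A.transpose i) b.2 = a) with h𝒩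
  set 𝓑 : Finset (Finset U × Finset U) := univ.filter (fun b => b.1.card = a ∧ b.2.card = a)
    with h𝓑
  have hcov : Pat ⊆ 𝓑.biUnion (fun b => (RgS b.1 b.2).powerset.biUnion (fun T => 𝒩 b T)) := by
    intro N hN
    obtain ⟨A, hA, hd, hrk, hbal, hS⟩ := (mem_filter.1 hN).2
    obtain ⟨B1, B2, hB1, hB2, hl1, hl2, hle⟩ := hsel U e he A hd a hrk ha hbal β hβ hβ0 hm
    refine mem_biUnion.2 ⟨(B1, B2), ?_, mem_biUnion.2 ⟨tch B1 B2 N, ?_, ?_⟩⟩
    · simp [h𝓑, hB1, hB2]
    · rw [mem_powerset]
      intro p hp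
      simp only [tch, mem_filter] at hp
      simp only [RgS, mem_filter, mem_univ, true_and]
      exact hp.2
    · simp only [h𝒩, mem_filter]
      refine ⟨hN, trivial, ?_, A, hA, hrk, hl1, hl2⟩
      rw [hA] at hle
      have h3 : (∑ i, (wt N i : ℝ)) = S := by exact_mod_cast hS
      rw [h3] at hle
      exact hle
  have hG : ∀ b ∈ 𝓑, ∀ T ∈ (RgS b.1 b.2).powerset, ((𝒩 b T).card : ℝ) ≤
      Real.exp (Q' * Real.log m + (2 * Q' + 2 * a) * Real.log β + 8 * Q) *
        (m⁻¹) ^ (dl e T).card := by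
    intro b hb T hT
    rw [mem_powerset] at hT
    simp only [h𝓑, mem_filter, mem_univ, true_and] at hb
    rcases (𝒩 b T).eq_empty_or_nonempty with h0 | ⟨N, hN⟩
    · rw [h0, card_empty, Nat.cast_zero]
      positivity
    · have hc : ((dl e T).card : ℝ) + (kor b.1 b.2 T).card ≤ Q' := by
        simp only [h𝒩, mem_filter] at hN
        have h1 := hN.2.2.1
        rw [← kor_tch b.1 b.2 N, hN.2.1] at h1
        push_cast at h1
        exact h1
      have h2 := pat_T T b.1 b.2 a S ha hb.1 hb.2 (𝒩 b T) (by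
        intro N' hN'
        simp only [h𝒩, mem_filter] at hN'
        refine ⟨?_, hN'.2.1, hN'.2.2.2⟩
        obtain ⟨A, hA, hd, hrk, hbal, hS⟩ := (mem_filter.1 hN'.1).2
        rw [← hS]
        exact card_le_vol N') m β hm2 hβ2 hβ
      refine h2.trans ?_
      have e1 : m ^ (kor b.1 b.2 T).card = Real.exp ((kor b.1 b.2 T).card * Real.log m) := by
        rw [mul_comm, Real.exp_mul, Real.exp_log hm0, Real.rpow_natCast]
      have e2 : β ^ (T.card - (kor b.1 b.2 T).card) ≤ Real.exp ((2 * Q' + 2 * a) * Real.log β) := by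
        have g1 : β ^ (T.card - (kor b.1 b.2 T).card) ≤ β ^ T.card :=
          pow_le_pow_right₀ (by linarith) (Nat.sub_le _ _)
        have g2 : β ^ T.card = Real.exp (T.card * Real.log β) := by
          rw [mul_comm, Real.exp_mul, Real.exp_log hβpos, Real.rpow_natCast]
        refine g1.trans ?_
        rw [g2]
        apply Real.exp_le_exp.2
        apply mul_le_mul_of_nonneg_right _ hlogβ
        have g3 : (T.card : ℝ) ≤ 2 * (dl e T).card + 2 * a := by
          exact_mod_cast T_card e he b.1 b.2 T hT a hb.1 hb.2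
        have g4 : (0 : ℝ) ≤ (kor b.1 b.2 T).card := Nat.cast_nonneg _
        linarith
      have e3 : (m⁻¹) ^ (dl e T).card = Real.exp (-((dl e T).card * Real.log m)) := by
        rw [Real.exp_neg, mul_comm, Real.exp_mul, Real.exp_log hm0, Real.rpow_natCast, inv_pow]
      rw [e1, e3]
      calc Real.exp ((kor b.1 b.2 T).card * Real.log m) * β ^ (T.card - (kor b.1 b.2 T).card) *
            Real.exp (8 * Q)
          ≤ Real.exp ((Q' - (dl e T).card) * Real.log m) *
            Real.exp ((2 * Q' + 2 * a) * Real.log β) * Real.exp (8 * Q) := by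
            apply mul_le_mul_of_nonneg_right _ (Real.exp_nonneg _)
            apply mul_le_mul _ e2 (by positivity) (Real.exp_nonneg _)
            apply Real.exp_le_exp.2
            apply mul_le_mul_of_nonneg_right _ hlogm
            linarith
        _ = _ := by
            rw [← Real.exp_add, ← Real.exp_add, ← Real.exp_add]
            ring_nf
  have h𝓑c : (𝓑.card : ℝ) ≤ Real.exp (2 * m) := by
    have h1 : 𝓑.card ≤ 2 ^ Fintype.card U * 2 ^ Fintype.card U := by
      refine (card_filter_le _ _).trans ?_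
      rw [card_univ, Fintype.card_prod, Fintype.card_finset]
    have h2 : ((2 : ℝ) ^ Fintype.card U * 2 ^ Fintype.card U) = Real.exp (2 * m * Real.log 2) := by
      rw [← pow_add, ← Real.rpow_natCast, Real.rpow_def_of_pos (by norm_num)]
      congr 1
      push_cast
      rw [hmdef]
      ring
    have h3 : (𝓑.card : ℝ) ≤ (2 : ℝ) ^ Fintype.card U * 2 ^ Fintype.card U := by exact_mod_cast h1
    rw [h2] at h3
    refine h3.trans ?_
    apply Real.exp_le_exp.2
    have h4 : Real.log 2 ≤ 1 := by
      have := Real.log_two_lt_d9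
      linarith
    have := mul_le_mul_of_nonneg_left h4 (by positivity : 0 ≤ 2 * m)
    linarith
  have h1 : (Pat.card : ℝ) ≤ ∑ b ∈ 𝓑, ∑ T ∈ (RgS b.1 b.2).powerset, ((𝒩 b T).card : ℝ) := by
    have g1 := (card_le_card hcov).trans card_biUnion_le
    have g2 : ∑ b ∈ 𝓑, ((RgS b.1 b.2).powerset.biUnion (fun T => 𝒩 b T)).card ≤
        ∑ b ∈ 𝓑, ∑ T ∈ (RgS b.1 b.2).powerset, (𝒩 b T).card :=
      Finset.sum_le_sum (fun b _ => card_biUnion_le)
    exact_mod_cast g1.trans g2
  set G := Real.exp (Q' * Real.log m + (2 * Q' + 2 * a) * Real.log β + 8 * Q) with hGdef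
  have h2 : ∑ b ∈ 𝓑, ∑ T ∈ (RgS b.1 b.2).powerset, ((𝒩 b T).card : ℝ) ≤
      ∑ b ∈ 𝓑, G * Real.exp (18 * a) := by
    apply Finset.sum_le_sum
    intro b hb
    refine (Finset.sum_le_sum (hG b hb)).trans ?_
    rw [← Finset.mul_sum]
    apply mul_le_mul_of_nonneg_left _ (Real.exp_nonneg _)
    simp only [h𝓑, mem_filter, mem_univ, true_and] at hb
    exact sum_T e he b.1 b.2 a hb.1 hb.2 hU
  refine (h1.trans h2).trans ?_
  rw [Finset.sum_const, nsmul_eq_mul]
  calc (𝓑.card : ℝ) * (G * Real.exp (18 * a)) ≤ Real.exp (2 * m) * (G * Real.exp (18 * a)) :=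
        mul_le_mul_of_nonneg_right h𝓑c (by positivity)
    _ = Real.exp (2 * m + (Q' * Real.log m + (2 * Q' + 2 * a) * Real.log β + 8 * Q + 18 * a)) := by
        rw [hGdef, ← Real.exp_add, ← Real.exp_add]
    _ ≤ _ := by
        apply Real.exp_le_exp.2
        have g1 : (a : ℝ) ≤ Q / 2 := by
          have : 2 * (a : ℝ) ≤ m := by
            rw [hβ]
            exact mul_le_mul_of_nonneg_right hβ2 (by linarith)
          linarith
        have g2 : Q' ≤ 2 * Q := by
          rw [hQ']
          nlinarith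
        have g3 : (2 * Q' + 2 * a) * Real.log β ≤ (6 * Q) * Real.log β :=
          mul_le_mul_of_nonneg_right (by linarith) hlogβ
        have g4 : Q * ((1 + ε1) * Real.log m + 6 * Real.log β + 20) =
            Q' * Real.log m + 6 * Q * Real.log β + 20 * Q := by
          rw [hQ']
          ring
        rw [g4]
        linarith

end Pool.Agent.W133
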