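import Mathlib
import Pool.Agent.W133.PatCount

set_option autoImplicit false
set_option linter.unusedSectionVars false

/-! Bad graphs contain the graph of a pattern of a balanced matrix. -/

namespace Pool.Agent.W133

open Finset Module

/-- graph of a pattern -/
def HG {n : ℕ} (U0 : Finset (Fin n)) (N : Finset (U0 × U0)) : SimpleGraph (Fin n) where
  Adj x y := x ≠ y ∧ ∃ (hx : x ∈ U0) (hy : y ∈ U0),
    ((⟨x, hx⟩, ⟨y, hy⟩) ∈ N ∨ (⟨y, hy⟩, ⟨x, hx⟩) ∈ N)
  symm := ⟨by
    rintro x y ⟨hne, hx, hy, h⟩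
    exact ⟨hne.symm, hy, hx, h.symm⟩⟩
  loopless := ⟨by
    rintro x ⟨hne, _⟩
    exact hne rfl⟩

/-- graph of a set of pairs -/
def grS {n : ℕ} (S : Finset (Fin n × Fin n)) : SimpleGraph (Fin n) where
  Adj x y := x ≠ y ∧ ((x, y) ∈ S ∨ (y, x) ∈ S)
  symm := ⟨by
    rintro x y ⟨hne, h⟩
    exact ⟨hne.symm, h.symm⟩⟩
  loopless := ⟨by
    rintro x ⟨hne, _⟩
    exact hne rfl⟩

open scoped Classical in
theorem graph_count {n : ℕ} (H : SimpleGraph (Fin n)) (D : Finset (Fin n × Fin n))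
    (hD : ∀ p ∈ D, p.1 < p.2 ∧ H.Adj p.1 p.2) :
    (univ.filter (fun G : SimpleGraph (Fin n) => H ≤ G)).card * 2 ^ D.card ≤
      Fintype.card (SimpleGraph (Fin n)) := by
  rw [← card_powerset, ← card_product, ← card_univ]
  have hle : ∀ S ⊆ D, grS S ≤ H := by
    intro S hS x y hxy
    rcases hxy with ⟨_, h | h⟩
    · exact (hD _ (hS h)).2
    · exact (hD _ (hS h)).2.symm
  apply Finset.card_le_card_of_injOn (fun q => q.1 \ grS q.2)
  · intro q _
    exact mem_coe.2 (mem_univ _)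
  · rintro ⟨G, S⟩ hq ⟨G', S'⟩ hq' heq
    simp only [coe_product, Set.mem_prod, mem_coe, mem_filter, mem_univ, true_and,
      mem_powerset] at hq hq' heq
    have r1 : ∀ (G : SimpleGraph (Fin n)) (S : Finset (Fin n × Fin n)), H ≤ G → grS S ≤ H →
        (G \ grS S) ⊔ H = G := by
      intro G S h1 h2
      ext x y
      simp only [SimpleGraph.sup_adj, SimpleGraph.sdiff_adj]
      constructor
      · rintro (h | h)
        · exact h.1
        · exact h1 h
      · intro h
        by_cases hH : H.Adj x y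
        · exact Or.inr hH
        · exact Or.inl ⟨h, fun hc => hH (h2 hc)⟩
    have hG : G = G' := by
      rw [← r1 G S hq.1 (hle S hq.2), ← r1 G' S' hq'.1 (hle S' hq'.2), heq]
    subst hG
    have r2 : ∀ (S : Finset (Fin n × Fin n)), S ⊆ D → G \ (G \ grS S) = grS S := by
      intro S h2
      ext x y
      simp only [SimpleGraph.sdiff_adj]
      constructor
      · rintro ⟨h3, h4⟩
        by_contra hc
        exact h4 ⟨h3, hc⟩
      · intro h
        exact ⟨hq.1 (hle S h2 h), fun hc => hc.2 h⟩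
    have hgr : grS S = grS S' := by
      rw [← r2 S hq.2, ← r2 S' hq'.2, heq]
    have r3 : ∀ S S' : Finset (Fin n × Fin n), S ⊆ D → S' ⊆ D → grS S = grS S' → S ⊆ S' := by
      intro S S' h1 h2 h3 p hp
      have h4 := (hD p (h1 hp)).1
      have h5 : (grS S).Adj p.1 p.2 := ⟨h4.ne, Or.inl hp⟩
      rw [h3] at h5
      rcases h5.2 with h6 | h6
      · exact h6
      · exact absurd (hD _ (h2 h6)).1 h4.not_gt
    have hS : S = S' := Subset.antisymm (r3 S S' hq.2 hq'.2 hgr) (r3 S' S hq'.2 hq.2 hgr.symm)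
    rw [hS]

/-- the numbering of a subset -/
def ev {n : ℕ} (U0 : Finset (Fin n)) (x : U0) : ℕ := x.1.val

theorem ev_inj {n : ℕ} (U0 : Finset (Fin n)) : Function.Injective (ev U0) := by
  intro x y h
  exact Subtype.ext (Fin.ext h)

open scoped Classical in
theorem HG_count {n : ℕ} (U0 : Finset (Fin n)) (N : Finset (U0 × U0)) :
    (univ.filter (fun G : SimpleGraph (Fin n) => HG U0 N ≤ G)).card * 2 ^ (dl (ev U0) N).card ≤
      Fintype.card (SimpleGraph (Fin n)) := by
  have h := graph_count (HG U0 N) ((dl (ev U0) N).image (fun p => (p.1.1, p.2.1))) (by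
    intro p hp
    obtain ⟨q, hq, rfl⟩ := mem_image.1 hp
    simp only [dl, mem_filter, mem_univ, true_and] at hq
    refine ⟨hq.1, ?_, q.1.2, q.2.2, hq.2⟩
    intro hc
    have hc' : q.1.1 = q.2.1 := hc
    have h2 := hq.1
    unfold ev at h2
    rw [hc'] at h2
    exact lt_irrefl _ h2)
  rw [card_image_of_injective] at h
  · exact h
  · intro p q hpq
    simp only [Prod.mk.injEq] at hpq
    exact Prod.ext (Subtype.ext hpq.1) (Subtype.ext hpq.2)

theorem vol_eq {U : Type} [Fintype U] [DecidableEq U] (e : U → ℕ) (he : Function.Injective e)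
    (N : Finset (U × U)) (hN : ∀ i, (i, i) ∈ N) :
    ∑ i, wt N i = Fintype.card U + 2 * (dl e N).card := by
  have h1 : ∀ i, wt N i = ∑ j, (if (i, j) ∈ N ∨ (j, i) ∈ N then 1 else 0) := by
    intro i
    unfold wt
    rw [card_eq_sum_ones, Finset.sum_filter]
  rw [Finset.sum_congr rfl (fun i _ => h1 i),
    sum_tri e he (fun i j => if (i, j) ∈ N ∨ (j, i) ∈ N then 1 else 0)]
  congr 1
  · simp [hN, card_univ]
  · have h2 : (dl e N).card = ∑ x, ∑ y, (if e x < e y ∧ ((x, y) ∈ N ∨ (y, x) ∈ N) then 1 else 0) := by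
      rw [← Finset.sum_product', card_eq_sum_ones]
      unfold dl
      rw [Finset.sum_filter, ← Finset.univ_product_univ]
    rw [h2, Finset.mul_sum]
    apply Finset.sum_congr rfl
    intro x _
    rw [Finset.mul_sum]
    apply Finset.sum_congr rfl
    intro y _
    by_cases h3 : e x < e y
    · by_cases h4 : (x, y) ∈ N ∨ (y, x) ∈ N
      · have h5 : (y, x) ∈ N ∨ (x, y) ∈ N := h4.symm
        simp [h3, h4, h5]
      · have h5 : ¬ ((y, x) ∈ N ∨ (x, y) ∈ N) := fun hc => h4 hc.symm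
        simp [h4, h5]
    · simp [h3]

/-- graphs with a low rank matrix -/
def BadG (n : ℕ) (κ : ℝ) (G : SimpleGraph (Fin n)) : Prop :=
  ∃ M : Matrix (Fin n) (Fin n) ℝ, (∀ i, M i i ≠ 0) ∧
    (∀ i j, i ≠ j → ¬ G.Adj i j → M i j = 0) ∧ (M.rank : ℝ) ≤ κ

theorem bad_cover {n : ℕ} (hn : 0 < n) (κ : ℝ) (G : SimpleGraph (Fin n)) (hG : BadG n κ G) :
    ∃ (U0 : Finset (Fin n)) (a S : ℕ) (N : Finset (U0 × U0)), 0 < U0.card ∧ 1 ≤ a ∧ a ≤ n ∧
      S ≤ n ^ 2 ∧ GP U0 a S N ∧ (n : ℝ) * a ≤ U0.card * κ ∧ HG U0 N ≤ G := by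
  classical
  obtain ⟨M, hd, hsup, hrk⟩ := hG
  obtain ⟨U0, hU0, hbal, hn2⟩ := core_exists n hn M
  set A := M.submatrix (Subtype.val : U0 → Fin n) (Subtype.val : U0 → Fin n) with hA
  refine ⟨U0, A.rank, ∑ i, wt (nz A) i, nz A, hU0.card_pos, ?_, ?_, ?_, ?_, ?_, ?_⟩
  · obtain ⟨x, hx⟩ := hU0
    have := nbhd_rank A ⟨x, hx⟩ ∅ (hd x) (by simp)
    omega
  · refine (Matrix.rank_le_card_width A).trans ?_
    rw [Fintype.card_coe]
    exact (card_le_univ U0).trans (by simp)
  · have h1 : ∀ i, wt (nz A) i ≤ n := by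
      intro i
      unfold wt
      refine (card_le_univ _).trans ?_
      rw [Fintype.card_coe]
      exact (card_le_univ U0).trans (by simp)
    calc ∑ i, wt (nz A) i ≤ ∑ _i : U0, n := Finset.sum_le_sum (fun i _ => h1 i)
      _ = U0.card * n := by rw [Finset.sum_const, smul_eq_mul, card_univ, Fintype.card_coe]
      _ ≤ n * n := Nat.mul_le_mul_right _ ((card_le_univ U0).trans (by simp))
      _ = n ^ 2 := by ring
  · refine ⟨A, rfl, fun i => hd i.1, rfl, ?_, rfl⟩
    intro X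
    rw [Fintype.card_coe]
    exact hbal X
  · have h1 : ((n : ℝ) * A.rank) ≤ U0.card * M.rank := by exact_mod_cast hn2
    exact h1.trans (mul_le_mul_of_nonneg_left hrk (Nat.cast_nonneg _))
  · rintro x y ⟨hne, hx, hy, h⟩
    by_contra hc
    rcases h with h | h
    · rw [mem_nz] at h
      exact h (hsup x y hne hc)
    · rw [mem_nz] at h
      exact h (hsup y x hne.symm (fun h' => hc h'.symm))

end Pool.Agent.W133
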