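import Mathlib
import Pool.Agent.W133.Cover

set_option autoImplicit false
set_option linter.unusedSectionVars false

/-! The union bound: few graphs have a matrix of low rank. -/

namespace Pool.Agent.W133

open Finset Module Filter

/-- weight of a set size -/
noncomputable def wU (n m : ℕ) : ℝ := Real.exp (-(m * (Real.log n - Real.log m + 1)))

theorem choose_wU {n : ℕ} (hn : 0 < n) (m : ℕ) : (n.choose m : ℝ) * wU n m ≤ 1 := by
  rcases Nat.eq_zero_or_pos m with rfl | hm
  · simp [wU]
  · have hn0 : (0 : ℝ) < n := by exact_mod_cast hn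
    have hm0 : (0 : ℝ) < m := by exact_mod_cast hm
    have h1 : (n.choose m : ℝ) ≤ (n : ℝ) ^ m / m.factorial := Nat.choose_le_pow_div m n
    have h2 := Real.pow_div_factorial_le_exp (m : ℝ) hm0.le m
    have h3 : wU n m = (m : ℝ) ^ m / (n : ℝ) ^ m * Real.exp (-m) := by
      unfold wU
      have e1 : (m : ℝ) ^ m = Real.exp (m * Real.log m) := by
        rw [mul_comm, Real.exp_mul, Real.exp_log hm0, Real.rpow_natCast]
      have e2 : (n : ℝ) ^ m = Real.exp (m * Real.log n) := by
        rw [mul_comm, Real.exp_mul, Real.exp_log hn0, Real.rpow_natCast]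
      rw [e1, e2, ← Real.exp_sub, ← Real.exp_add]
      ring_nf
    rw [h3]
    have hf : (0 : ℝ) < m.factorial := by exact_mod_cast Nat.factorial_pos m
    calc (n.choose m : ℝ) * ((m : ℝ) ^ m / (n : ℝ) ^ m * Real.exp (-m))
        ≤ ((n : ℝ) ^ m / m.factorial) * ((m : ℝ) ^ m / (n : ℝ) ^ m * Real.exp (-m)) :=
          mul_le_mul_of_nonneg_right h1 (by positivity)
      _ = ((m : ℝ) ^ m / m.factorial) * Real.exp (-m) := by
          field_simp
      _ ≤ Real.exp m * Real.exp (-m) := mul_le_mul_of_nonneg_right h2 (Real.exp_nonneg _)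
      _ = 1 := by
          rw [← Real.exp_add]
          simp

theorem sum_wU {n : ℕ} (hn : 0 < n) :
    ∑ U0 : Finset (Fin n), wU n U0.card ≤ n + 1 := by
  have h := Finset.sum_powerset_apply_card (x := (univ : Finset (Fin n))) (fun m => wU n m)
  rw [Finset.powerset_univ] at h
  rw [h, card_univ, Fintype.card_fin]
  calc ∑ m ∈ range (n + 1), n.choose m • wU n m ≤ ∑ m ∈ range (n + 1), (1 : ℝ) := by
        apply Finset.sum_le_sum
        intro m _
        rw [nsmul_eq_mul]
        exact choose_wU hn m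
    _ = n + 1 := by simp

/-- the main numerical inequality -/
theorem num_ineq (ε x y m β S : ℝ) (hε0 : 0 < ε) (hε1 : ε < 1) (hx : 1 ≤ x)
    (hyx : y ≤ x) (hβ0 : 0 < β) (hmβ : β ≤ m) (hS : β * m ≤ S) (hβx : 2 * x ≤ β)
    (hb : 6 * Real.log β + 22 ≤ (ε / 2) * (Real.log 2 / 2 * β))
    (hk : x ≤ (1 - ε) * (Real.log 2 / 2 * β)) :
    (S / β) * ((1 + ε / 4) * y + 6 * Real.log β + 20) - Real.log 2 / 2 * (S - m) ≤
      -(m * (x - y + 1)) - (ε / 2) * x ^ 2 := by
  set Q : ℝ := S / β with hQ
  have hSQ : S = Q * β := by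
    rw [hQ]
    field_simp
  have hQm : m ≤ Q := by
    rw [hQ, le_div_iff₀ hβ0]
    linarith
  have hm0 : 0 < m := by linarith
  have hl2 : Real.log 2 ≤ 1 := by
    have := Real.log_two_lt_d9
    linarith
  have h1 : Real.log 2 / 2 * m ≤ Q / 2 := by
    have : Real.log 2 / 2 * m ≤ 1 / 2 * m := mul_le_mul_of_nonneg_right (by linarith) hm0.le
    linarith
  have h2 : m * (x - y + 1) ≤ Q * (x - y + 1) := mul_le_mul_of_nonneg_right hQm (by linarith)
  set B : ℝ := Real.log 2 / 2 * β with hB
  have hB0 : 0 ≤ B := by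
    have : 0 ≤ Real.log 2 := Real.log_nonneg (by norm_num)
    positivity
  have h3 : (1 + ε / 2) * x ≤ (1 - ε / 2) * B := by
    have g1 : (1 + ε / 2) * x ≤ (1 + ε / 2) * ((1 - ε) * B) :=
      mul_le_mul_of_nonneg_left hk (by linarith)
    have g2 : (1 + ε / 2) * ((1 - ε) * B) = (1 - ε / 2 - ε ^ 2 / 2) * B := by ring
    have g3 : (1 - ε / 2 - ε ^ 2 / 2) * B ≤ (1 - ε / 2) * B := by
      apply mul_le_mul_of_nonneg_right _ hB0
      have : 0 ≤ ε ^ 2 := by positivity
      linarith
    linarith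
  have h4 : (1 + ε / 4) * y + 6 * Real.log β + 20 + 1 / 2 + (x - y + 1) - B ≤ -(ε / 4) * x := by
    have g1 : ε / 4 * y ≤ ε / 4 * x := mul_le_mul_of_nonneg_left hyx (by linarith)
    linarith
  have h5 : Q * ((1 + ε / 4) * y + 6 * Real.log β + 20 + 1 / 2 + (x - y + 1) - B) ≤
      Q * (-(ε / 4) * x) := mul_le_mul_of_nonneg_left h4 (by linarith)
  have h6 : Q * (-(ε / 4) * x) ≤ -(ε / 2) * x ^ 2 := by
    have g1 : 2 * x ≤ Q := by linarith
    have g2 : (2 * x) * (ε / 4 * x) ≤ Q * (ε / 4 * x) :=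
      mul_le_mul_of_nonneg_right g1 (by positivity)
    nlinarith
  have h7 : Real.log 2 / 2 * (S - m) = Q * B - Real.log 2 / 2 * m := by
    rw [hSQ, hB]
    ring
  rw [h7]
  nlinarith

open scoped Classical in
theorem F_bound {n : ℕ} (U0 : Finset (Fin n)) (a S : ℕ) :
    ((univ.filter (fun G : SimpleGraph (Fin n) => ∃ N : Finset (U0 × U0),
      GP U0 a S N ∧ HG U0 N ≤ G)).card : ℝ) ≤
      (((univ : Finset (Finset (U0 × U0))).filter (fun N => GP U0 a S N)).card : ℝ) *
        Real.exp (-(Real.log 2 / 2 * (S - U0.card))) * Fintype.card (SimpleGraph (Fin n)) := by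
  have hcov : univ.filter (fun G : SimpleGraph (Fin n) => ∃ N : Finset (U0 × U0),
      GP U0 a S N ∧ HG U0 N ≤ G) ⊆
      ((univ : Finset (Finset (U0 × U0))).filter (fun N => GP U0 a S N)).biUnion
        (fun N => univ.filter (fun G : SimpleGraph (Fin n) => HG U0 N ≤ G)) := by
    intro G hG
    obtain ⟨N, h1, h2⟩ := (mem_filter.1 hG).2
    exact mem_biUnion.2 ⟨N, by simp [h1], by simp [h2]⟩
  have h1 : ((univ.filter (fun G : SimpleGraph (Fin n) => ∃ N : Finset (U0 × U0),
      GP U0 a S N ∧ HG U0 N ≤ G)).card : ℝ) ≤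
      ∑ N ∈ (univ : Finset (Finset (U0 × U0))).filter (fun N => GP U0 a S N),
        ((univ.filter (fun G : SimpleGraph (Fin n) => HG U0 N ≤ G)).card : ℝ) := by
    exact_mod_cast (card_le_card hcov).trans card_biUnion_le
  have h2 : ∀ N ∈ (univ : Finset (Finset (U0 × U0))).filter (fun N => GP U0 a S N),
      ((univ.filter (fun G : SimpleGraph (Fin n) => HG U0 N ≤ G)).card : ℝ) ≤
      Real.exp (-(Real.log 2 / 2 * (S - U0.card))) * Fintype.card (SimpleGraph (Fin n)) := by
    intro N hN
    obtain ⟨A, hA, hd, hrk, hbal, hS⟩ := (mem_filter.1 hN).2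
    have hdiag : ∀ i, (i, i) ∈ N := by
      intro i
      rw [← hA, mem_nz]
      exact hd i
    have h3 := HG_count U0 N
    have h4 := vol_eq (ev U0) (ev_inj U0) N hdiag
    rw [hS, Fintype.card_coe] at h4
    have h5 : (S : ℝ) = U0.card + 2 * (dl (ev U0) N).card := by exact_mod_cast h4
    have h6 : Real.log 2 / 2 * (S - U0.card) = (dl (ev U0) N).card * Real.log 2 := by
      rw [h5]
      ring
    have h7 : Real.exp (-(Real.log 2 / 2 * (S - U0.card))) = ((2 : ℝ) ^ (dl (ev U0) N).card)⁻¹ := by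
      rw [h6, Real.exp_neg, mul_comm, Real.exp_mul, Real.exp_log (by norm_num), Real.rpow_natCast]
    rw [h7, inv_mul_eq_div, le_div_iff₀ (by positivity)]
    exact_mod_cast h3
  refine (h1.trans (Finset.sum_le_sum h2)).trans (le_of_eq ?_)
  rw [Finset.sum_const, nsmul_eq_mul]
  ring

open scoped Classical in
/-- **Few graphs have a matrix of low rank.** -/
theorem lower_main (ε : ℝ) (hε0 : 0 < ε) (hε1 : ε < 1) : ∀ᶠ n : ℕ in atTop,
    ((univ.filter (fun G : SimpleGraph (Fin n) =>
      BadG n ((1 - ε) * Real.log 2 * n / (2 * Real.log n)) G)).card : ℝ) ≤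
      ((n + 1) * ((n + 1) * (n ^ 2 + 1)) * Real.exp (-(ε / 2) * (Real.log n) ^ 2)) *
        Fintype.card (SimpleGraph (Fin n)) := by
  obtain ⟨β0, hβ02, hpc⟩ := pat_count (ε / 4) (by linarith) (by linarith)
  have hlog2 : 0 < Real.log 2 := Real.log_pos (by norm_num)
  have hl2 : Real.log 2 ≤ 1 := by
    have := Real.log_two_lt_d9
    linarith
  -- the growth condition
  have hβ1 : ∃ β1 : ℝ, ∀ β : ℝ, β1 ≤ β →
      6 * Real.log β + 22 ≤ (ε / 2) * (Real.log 2 / 2 * β) := by
    have t1 : Tendsto (fun β : ℝ => Real.log β / β) atTop (nhds 0) :=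
      Real.isLittleO_log_id_atTop.tendsto_div_nhds_zero
    have t2 : Tendsto (fun β : ℝ => 1 / β) atTop (nhds 0) := by
      simpa using tendsto_inv_atTop_zero (𝕜 := ℝ)
    have t3 : Tendsto (fun β : ℝ => 6 * (Real.log β / β) + 22 * (1 / β)) atTop (nhds 0) := by
      simpa using (t1.const_mul 6).add (t2.const_mul 22)
    have hc : 0 < (ε / 2) * (Real.log 2 / 2) := by positivity
    obtain ⟨β1, hβ1⟩ := eventually_atTop.1 (t3.eventually (ge_mem_nhds hc))
    refine ⟨max 1 β1, ?_⟩
    intro β hβ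
    have h1 : 1 ≤ β := (le_max_left _ _).trans hβ
    have h2 := hβ1 β ((le_max_right _ _).trans hβ)
    have hβp : 0 < β := by linarith
    have h3 := mul_le_mul_of_nonneg_right h2 hβp.le
    have h4 : (6 * (Real.log β / β) + 22 * (1 / β)) * β = 6 * Real.log β + 22 := by
      field_simp
    rw [h4] at h3
    linarith
  obtain ⟨β1, hβ1⟩ := hβ1
  have hlogn : Tendsto (fun n : ℕ => Real.log n) atTop atTop :=
    Real.tendsto_log_atTop.comp tendsto_natCast_atTop_atTop
  filter_upwards [hlogn.eventually_ge_atTop (max 1 (max β0 β1)), eventually_ge_atTop 2]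
    with n hn hn2
  have hx1 : 1 ≤ Real.log n := (le_max_left _ _).trans hn
  have hxβ0 : β0 ≤ Real.log n := ((le_max_left _ _).trans (le_max_right _ _)).trans hn
  have hxβ1 : β1 ≤ Real.log n := ((le_max_right _ _).trans (le_max_right _ _)).trans hn
  set x := Real.log n with hx
  have hnpos : 0 < n := by omega
  have hn0 : (0 : ℝ) < n := by exact_mod_cast hnpos
  set κ : ℝ := (1 - ε) * Real.log 2 * n / (2 * x) with hκ
  set E : ℝ := Real.exp (-(ε / 2) * x ^ 2) with hE
  set F : Finset (Fin n) → ℕ → ℕ → Finset (SimpleGraph (Fin n)) := fun U0 a S =>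
    if 0 < U0.card ∧ 1 ≤ a ∧ (n : ℝ) * a ≤ U0.card * κ then
      univ.filter (fun G : SimpleGraph (Fin n) => ∃ N : Finset (U0 × U0),
      GP U0 a S N ∧ HG U0 N ≤ G) else ∅ with hF
  have hcov : univ.filter (fun G : SimpleGraph (Fin n) => BadG n κ G) ⊆
      univ.biUnion (fun U0 => (range (n + 1)).biUnion (fun a =>
        (range (n ^ 2 + 1)).biUnion (fun S => F U0 a S))) := by
    intro G hG
    obtain ⟨U0, a, S, N, h1, h2, h3, h4, h5, h6, h7⟩ := bad_cover hnpos κ G (mem_filter.1 hG).2
    refine mem_biUnion.2 ⟨U0, mem_univ _, mem_biUnion.2 ⟨a, mem_range.2 (by omega),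
      mem_biUnion.2 ⟨S, mem_range.2 (by omega), ?_⟩⟩⟩
    simp only [hF]
    rw [if_pos ⟨h1, h2, h6⟩]
    simp only [mem_filter, mem_univ, true_and]
    exact ⟨N, h5, h7⟩
  have hFb : ∀ U0 a S, ((F U0 a S).card : ℝ) ≤ wU n U0.card * E *
      Fintype.card (SimpleGraph (Fin n)) := by
    intro U0 a S
    have hw0 : 0 ≤ wU n U0.card := Real.exp_nonneg _
    simp only [hF]
    split_ifs with hc
    · obtain ⟨hc1, hc2, hc3⟩ := hc
      have ha0 : (1 : ℝ) ≤ a := by exact_mod_cast hc2
      have hU0 : (0 : ℝ) < U0.card := by exact_mod_cast hc1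
      set β : ℝ := (U0.card : ℝ) / a with hβ
      have hβa : (U0.card : ℝ) = β * a := by
        rw [hβ]
        field_simp
      have hβ0' : 0 < β := div_pos hU0 (by linarith)
      -- lower bound on β
      have hk : x ≤ (1 - ε) * (Real.log 2 / 2 * β) := by
        rw [hκ, hβa] at hc3
        have h1 : (n : ℝ) * a ≤ ((1 - ε) * (Real.log 2 / 2 * β) / x) * (n * a) := by
          refine hc3.trans (le_of_eq ?_)
          field_simp
        have h2 : 1 ≤ (1 - ε) * (Real.log 2 / 2 * β) / x := by
          by_contra hcon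
          push Not at hcon
          have := mul_lt_mul_of_pos_right hcon (by positivity : (0 : ℝ) < n * a)
          linarith
        rw [le_div_iff₀ (by linarith)] at h2
        linarith
      have hβx : 2 * x ≤ β := by
        have h1 : (1 - ε) * (Real.log 2 / 2 * β) ≤ 1 * (1 / 2 * β) := by
          apply mul_le_mul (by linarith) _ (mul_nonneg (by linarith) hβ0'.le) (by norm_num)
          exact mul_le_mul_of_nonneg_right (by linarith) hβ0'.le
        linarith
      have hUn : U0.card ≤ n := (card_le_univ U0).trans (by simp)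
      have hUn' : (U0.card : ℝ) ≤ n := by exact_mod_cast hUn
      have hexp : (Fintype.card U0 : ℝ) ≤ Real.exp β := by
        rw [Fintype.card_coe]
        calc (U0.card : ℝ) ≤ n := hUn'
          _ = Real.exp x := by rw [hx, Real.exp_log hn0]
          _ ≤ Real.exp β := Real.exp_le_exp.2 (by linarith)
      have hpat := hpc U0 (ev U0) (ev_inj U0) a S hc2 β (by rw [Fintype.card_coe]; exact hβa)
        (by linarith) hexp
      rw [Fintype.card_coe] at hpat
      refine (F_bound U0 a S).trans ?_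
      apply mul_le_mul_of_nonneg_right _ (Nat.cast_nonneg _)
      rcases ((univ : Finset (Finset (U0 × U0))).filter (fun N => GP U0 a S N)).eq_empty_or_nonempty
        with h0 | ⟨N, hN⟩
      · rw [h0, card_empty, Nat.cast_zero, zero_mul]
        exact mul_nonneg hw0 (Real.exp_nonneg _)
      · -- the volume
        have hSv : β * U0.card ≤ S := by
          obtain ⟨A, hA, hd, hrk, hbal, hS⟩ := (mem_filter.1 hN).2
          have h1 : ∀ i, β ≤ wt N i := by
            intro i
            rw [← hA]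
            exact wt_ge A hd a hrk hc2 hbal β (by rw [Fintype.card_coe]; exact hβa) i
          have h2 : ∑ _i : U0, β ≤ ∑ i, (wt N i : ℝ) := Finset.sum_le_sum (fun i _ => h1 i)
          rw [Finset.sum_const, nsmul_eq_mul, card_univ, Fintype.card_coe] at h2
          have h3 : (∑ i, (wt N i : ℝ)) = S := by exact_mod_cast hS
          rw [h3] at h2
          linarith
        have hyx : Real.log U0.card ≤ x := Real.log_le_log hU0 hUn'
        have hmβ : β ≤ U0.card := by
          rw [hβa]
          exact le_mul_of_one_le_right hβ0'.le ha0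
        have hnum := num_ineq ε x (Real.log U0.card) U0.card β S hε0 hε1 hx1 hyx hβ0' hmβ hSv hβx
          (hβ1 β (by linarith)) hk
        calc _ ≤ Real.exp ((S / β) * ((1 + ε / 4) * Real.log U0.card + 6 * Real.log β + 20)) *
              Real.exp (-(Real.log 2 / 2 * (S - U0.card))) :=
              mul_le_mul_of_nonneg_right hpat (Real.exp_nonneg _)
          _ = Real.exp ((S / β) * ((1 + ε / 4) * Real.log U0.card + 6 * Real.log β + 20) -
              Real.log 2 / 2 * (S - U0.card)) := by
              rw [← Real.exp_add]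
              ring_nf
          _ ≤ Real.exp (-(U0.card * (x - Real.log U0.card + 1)) - (ε / 2) * x ^ 2) :=
              Real.exp_le_exp.2 hnum
          _ = wU n U0.card * E := by
              unfold wU
              rw [hE, ← Real.exp_add, ← hx]
              ring_nf
    · rw [card_empty, Nat.cast_zero]
      exact mul_nonneg (mul_nonneg hw0 (Real.exp_nonneg _)) (Nat.cast_nonneg _)
  have h1 : ((univ.filter (fun G : SimpleGraph (Fin n) => BadG n κ G)).card : ℝ) ≤
      ∑ U0 : Finset (Fin n), ∑ a ∈ range (n + 1), ∑ S ∈ range (n ^ 2 + 1), ((F U0 a S).card : ℝ) := by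
    have g1 := (card_le_card hcov).trans card_biUnion_le
    have g2 : ∑ U0 : Finset (Fin n), ((range (n + 1)).biUnion (fun a =>
        (range (n ^ 2 + 1)).biUnion (fun S => F U0 a S))).card ≤
        ∑ U0 : Finset (Fin n), ∑ a ∈ range (n + 1), ∑ S ∈ range (n ^ 2 + 1), (F U0 a S).card := by
      apply Finset.sum_le_sum
      intro U0 _
      refine card_biUnion_le.trans ?_
      apply Finset.sum_le_sum
      intro a _
      exact card_biUnion_le
    exact_mod_cast g1.trans g2
  have h2 : ∑ U0 : Finset (Fin n), ∑ a ∈ range (n + 1), ∑ S ∈ range (n ^ 2 + 1),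
      ((F U0 a S).card : ℝ) ≤ ∑ U0 : Finset (Fin n), (n + 1) * ((n ^ 2 + 1) *
        (wU n U0.card * E * Fintype.card (SimpleGraph (Fin n)))) := by
    apply Finset.sum_le_sum
    intro U0 _
    calc ∑ a ∈ range (n + 1), ∑ S ∈ range (n ^ 2 + 1), ((F U0 a S).card : ℝ) ≤
        ∑ a ∈ range (n + 1), ∑ S ∈ range (n ^ 2 + 1), (wU n U0.card * E *
          Fintype.card (SimpleGraph (Fin n)) : ℝ) :=
          Finset.sum_le_sum (fun a _ => Finset.sum_le_sum (fun S _ => hFb U0 a S))
      _ = _ := by
          rw [Finset.sum_const, Finset.sum_const, card_range, card_range, nsmul_eq_mul, nsmul_eq_mul]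
          push_cast
          ring
  refine (h1.trans h2).trans ?_
  have h3 : ∑ U0 : Finset (Fin n), ((n : ℝ) + 1) * ((n ^ 2 + 1) *
        (wU n U0.card * E * Fintype.card (SimpleGraph (Fin n)))) =
        (∑ U0 : Finset (Fin n), wU n U0.card) * (((n : ℝ) + 1) * ((n ^ 2 + 1) * (E *
          Fintype.card (SimpleGraph (Fin n))))) := by
    rw [Finset.sum_mul]
    apply Finset.sum_congr rfl
    intro U0 _
    ring
  rw [h3]
  have h4 := mul_le_mul_of_nonneg_right (sum_wU hnpos) (by positivity :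
    (0 : ℝ) ≤ ((n : ℝ) + 1) * ((n ^ 2 + 1) * (E * Fintype.card (SimpleGraph (Fin n)))))
  refine h4.trans (le_of_eq ?_)
  ring

end Pool.Agent.W133
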