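import Mathlib
import Pool.Agent.W133.Union
import Pool.Agent.W133.Chi

set_option autoImplicit false
set_option linter.unusedSectionVars false

/-! The real minrank of the uniform random graph. -/

namespace Pool.Agent.W133

open Finset Filter Topology

/-- possible ranks -/
def Rk {n : ℕ} (G : SimpleGraph (Fin n)) : Set ℕ :=
  {r : ℕ | ∃ M : Matrix (Fin n) (Fin n) ℝ,
                  (∀ i, M i i ≠ 0) ∧
                  (∀ i j, i ≠ j → ¬ G.Adj i j → M i j = 0) ∧
                  M.rank = r}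

theorem Rk_le {n : ℕ} (G : SimpleGraph (Fin n)) :
    (Rk G).Nonempty ∧ sInf (Rk G) ≤ Gᶜ.chromaticNumber.toNat := by
  classical
  have hcol : Gᶜ.Colorable (Gᶜ.chromaticNumber.toNat) :=
    SimpleGraph.colorable_chromaticNumber_of_fintype Gᶜ
  obtain ⟨c⟩ := hcol
  set k := Gᶜ.chromaticNumber.toNat with hk
  set B : Matrix (Fin n) (Fin k) ℝ := Matrix.of (fun i a => if c i = a then 1 else 0) with hB
  have hM : ∀ i j, (B * B.transpose) i j = if c i = c j then 1 else 0 := by
    intro i j
    rw [Matrix.mul_apply]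
    simp only [hB, Matrix.of_apply, Matrix.transpose_apply]
    rw [Finset.sum_eq_single (c i)]
    · by_cases h : c j = c i
      · simp [h]
      · have h' : ¬ c i = c j := fun hc => h hc.symm
        simp [h, h']
    · intro a _ ha
      rw [if_neg (Ne.symm ha), zero_mul]
    · intro h
      exact absurd (mem_univ _) h
  have hmem : (B * B.transpose).rank ∈ Rk G := by
    refine ⟨B * B.transpose, ?_, ?_, rfl⟩
    · intro i
      rw [hM]
      simp
    · intro i j hij hadj
      rw [hM, if_neg]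
      have : Gᶜ.Adj i j := by
        rw [SimpleGraph.compl_adj]
        exact ⟨hij, hadj⟩
      exact c.valid this
  refine ⟨⟨_, hmem⟩, (Nat.sInf_le hmem).trans ?_⟩
  refine (Matrix.rank_mul_le_left _ _).trans ?_
  have := Matrix.rank_le_card_width B
  simpa using this

open scoped Classical in
theorem lower_tendsto (ε θ : ℝ) (hε0 : 0 < ε) (hε1 : ε < 1) (hθ : 0 < θ) : ∀ᶠ n : ℕ in atTop,
    ((univ.filter (fun G : SimpleGraph (Fin n) =>
      BadG n ((1 - ε) * Real.log 2 * n / (2 * Real.log n)) G)).card : ℝ) /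
        Fintype.card (SimpleGraph (Fin n)) ≤ θ := by
  have hlogn : Tendsto (fun n : ℕ => Real.log n) atTop atTop :=
    Real.tendsto_log_atTop.comp tendsto_natCast_atTop_atTop
  have hlim : Tendsto (fun n : ℕ => 8 * Real.exp (-Real.log n)) atTop (𝓝 0) := by
    have h1 : Tendsto (fun n : ℕ => Real.exp (-Real.log n)) atTop (𝓝 0) :=
      Real.tendsto_exp_atBot.comp (tendsto_neg_atTop_atBot.comp hlogn)
    simpa using h1.const_mul 8
  filter_upwards [lower_main ε hε0 hε1, hlogn.eventually_ge_atTop (10 / ε),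
    hlim.eventually (ge_mem_nhds hθ), eventually_ge_atTop 1] with n h1 h2 h3 h4
  have hN : (0 : ℝ) < Fintype.card (SimpleGraph (Fin n)) := by
    exact_mod_cast Fintype.card_pos
  rw [div_le_iff₀ hN]
  refine h1.trans (mul_le_mul_of_nonneg_right ?_ hN.le)
  refine le_trans ?_ h3
  have hn0 : (0 : ℝ) < n := by exact_mod_cast h4
  have hn1 : (1 : ℝ) ≤ n := by exact_mod_cast h4
  set x := Real.log n with hx
  have hnx : (n : ℝ) = Real.exp x := by rw [hx, Real.exp_log hn0]
  have hx0 : 0 ≤ x := Real.log_nonneg hn1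
  have g1 : ((n : ℝ) + 1) * ((n + 1) * (n ^ 2 + 1)) ≤ 8 * Real.exp (4 * x) := by
    have e1 : (n : ℝ) + 1 ≤ 2 * n := by linarith
    have e2 : (n : ℝ) ^ 2 + 1 ≤ 2 * n ^ 2 := by nlinarith
    have e3 : Real.exp (4 * x) = (n : ℝ) ^ 4 := by
      rw [hnx, ← Real.exp_nat_mul]
      norm_num
    rw [e3]
    calc ((n : ℝ) + 1) * ((n + 1) * (n ^ 2 + 1)) ≤ (2 * n) * ((2 * n) * (2 * n ^ 2)) := by
          apply mul_le_mul e1 _ (by positivity) (by positivity)
          exact mul_le_mul e1 e2 (by positivity) (by positivity)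
      _ = 8 * (n : ℝ) ^ 4 := by ring
  calc ((n : ℝ) + 1) * ((n + 1) * (n ^ 2 + 1)) * Real.exp (-(ε / 2) * x ^ 2)
      ≤ 8 * Real.exp (4 * x) * Real.exp (-(ε / 2) * x ^ 2) :=
        mul_le_mul_of_nonneg_right g1 (Real.exp_nonneg _)
    _ = 8 * Real.exp (4 * x + -(ε / 2) * x ^ 2) := by rw [mul_assoc, ← Real.exp_add]
    _ ≤ 8 * Real.exp (-x) := by
        apply mul_le_mul_of_nonneg_left _ (by norm_num)
        apply Real.exp_le_exp.2
        have h5 : 10 ≤ ε * x := by
          rw [div_le_iff₀ hε0] at h2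
          linarith
        have h6 : 10 * x ≤ ε * x * x := mul_le_mul_of_nonneg_right h5 hx0
        nlinarith

open scoped Classical in
theorem main_thm (ε : ℝ) (hε : 0 < ε) :
    Tendsto (fun n : ℕ =>
        ((univ.filter (fun G : SimpleGraph (Fin n) =>
            (1 - ε) * ((Gᶜ.chromaticNumber.toNat : ℕ) : ℝ) ≤ ((sInf (Rk G) : ℕ) : ℝ) ∧
            ((sInf (Rk G) : ℕ) : ℝ) ≤ (1 + ε) * ((Gᶜ.chromaticNumber.toNat : ℕ) : ℝ))).card : ℝ) /
          (Fintype.card (SimpleGraph (Fin n)) : ℝ)) atTop (𝓝 1) := by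
  have hup : ∀ (n : ℕ) (G : SimpleGraph (Fin n)),
      ((sInf (Rk G) : ℕ) : ℝ) ≤ (1 + ε) * ((Gᶜ.chromaticNumber.toNat : ℕ) : ℝ) := by
    intro n G
    have h1 : ((sInf (Rk G) : ℕ) : ℝ) ≤ ((Gᶜ.chromaticNumber.toNat : ℕ) : ℝ) := by
      exact_mod_cast (Rk_le G).2
    have h2 : (0 : ℝ) ≤ ((Gᶜ.chromaticNumber.toNat : ℕ) : ℝ) := Nat.cast_nonneg _
    nlinarith
  by_cases hε1 : 1 ≤ ε
  · refine tendsto_const_nhds.congr (fun n => ?_)
    have hN : (Fintype.card (SimpleGraph (Fin n)) : ℝ) ≠ 0 := by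
      have : (0 : ℝ) < Fintype.card (SimpleGraph (Fin n)) := by exact_mod_cast Fintype.card_pos
      exact this.ne'
    rw [Finset.filter_true_of_mem, card_univ, div_self hN]
    intro G _
    refine ⟨?_, hup n G⟩
    have h2 : (0 : ℝ) ≤ ((Gᶜ.chromaticNumber.toNat : ℕ) : ℝ) := Nat.cast_nonneg _
    have h3 : (0 : ℝ) ≤ ((sInf (Rk G) : ℕ) : ℝ) := Nat.cast_nonneg _
    nlinarith
  · push Not at hε1
    rw [Metric.tendsto_atTop]
    intro θ hθ
    have hE := (lower_tendsto (ε / 2) (θ / 4) (by linarith) (by linarith) (by linarith)).and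
      ((chi_upper (ε / 2) (θ / 4) (by linarith) (by linarith)).and (eventually_ge_atTop 2))
    obtain ⟨N0, hN0⟩ := eventually_atTop.1 hE
    refine ⟨N0, fun n hn => ?_⟩
    obtain ⟨k1, k2, k3⟩ := hN0 n hn
    have hN : (0 : ℝ) < Fintype.card (SimpleGraph (Fin n)) := by
      exact_mod_cast Fintype.card_pos
    have hn2 : (2 : ℝ) ≤ n := by exact_mod_cast k3
    have hlog : 0 < Real.log n := Real.log_pos (by linarith)
    have hlog2 : 0 < Real.log 2 := Real.log_pos (by norm_num)
    set T : ℝ := Real.log 2 * n / (2 * Real.log n) with hT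
    have hT0 : 0 ≤ T := by positivity
    -- complement is a bijection
    have hcompl : ((univ.filter (fun G : SimpleGraph (Fin n) =>
        (1 + ε / 2) * T < (Gᶜ.chromaticNumber.toNat : ℝ))).card : ℝ) =
        ((univ.filter (fun G : SimpleGraph (Fin n) =>
        (1 + ε / 2) * T < (G.chromaticNumber.toNat : ℝ))).card : ℝ) := by
      congr 1
      apply Finset.card_bij (fun G _ => Gᶜ)
      · intro G hG
        simpa using hG
      · intro G _ G' _ h
        exact compl_injective h
      · intro G hG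
        refine ⟨Gᶜ, ?_, compl_compl G⟩
        simp only [mem_filter, mem_univ, true_and] at hG ⊢
        rw [compl_compl]
        exact hG
    set good := univ.filter (fun G : SimpleGraph (Fin n) =>
            (1 - ε) * ((Gᶜ.chromaticNumber.toNat : ℕ) : ℝ) ≤ ((sInf (Rk G) : ℕ) : ℝ) ∧
            ((sInf (Rk G) : ℕ) : ℝ) ≤ (1 + ε) * ((Gᶜ.chromaticNumber.toNat : ℕ) : ℝ)) with hgood
    set bad1 := univ.filter (fun G : SimpleGraph (Fin n) =>
      BadG n ((1 - ε / 2) * Real.log 2 * n / (2 * Real.log n)) G) with hbad1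
    set bad2 := univ.filter (fun G : SimpleGraph (Fin n) =>
        (1 + ε / 2) * T < (Gᶜ.chromaticNumber.toNat : ℝ)) with hbad2
    have hcov : (univ : Finset (SimpleGraph (Fin n))) ⊆ good ∪ (bad1 ∪ bad2) := by
      intro G _
      by_contra hc
      simp only [mem_union, not_or] at hc
      obtain ⟨c1, c2, c3⟩ := hc
      apply c1
      simp only [hgood, mem_filter, mem_univ, true_and]
      refine ⟨?_, hup n G⟩
      simp only [hbad1, mem_filter, mem_univ, true_and] at c2
      simp only [hbad2, mem_filter, mem_univ, true_and, not_lt] at c3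
      obtain ⟨M, hM1, hM2, hM3⟩ := Nat.sInf_mem (Rk_le G).1
      have h1 : (1 - ε / 2) * Real.log 2 * n / (2 * Real.log n) < ((sInf (Rk G) : ℕ) : ℝ) := by
        by_contra hcon
        push Not at hcon
        apply c2
        refine ⟨M, hM1, hM2, ?_⟩
        rw [hM3]
        exact hcon
      have h2 : (1 - ε / 2) * Real.log 2 * n / (2 * Real.log n) = (1 - ε / 2) * T := by
        rw [hT]
        ring
      rw [h2] at h1
      have h3 : (1 - ε) * ((Gᶜ.chromaticNumber.toNat : ℕ) : ℝ) ≤ (1 - ε) * ((1 + ε / 2) * T) :=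
        mul_le_mul_of_nonneg_left c3 (by linarith)
      have h4 : (1 - ε) * ((1 + ε / 2) * T) ≤ (1 - ε / 2) * T := by
        have : (1 - ε) * ((1 + ε / 2) * T) = (1 - ε / 2 - ε ^ 2 / 2) * T := by ring
        rw [this]
        apply mul_le_mul_of_nonneg_right _ hT0
        have : 0 ≤ ε ^ 2 := by positivity
        linarith
      linarith
    have h1 : (Fintype.card (SimpleGraph (Fin n)) : ℝ) ≤ good.card + (bad1.card + bad2.card) := by
      have g1 := (card_le_card hcov).trans (card_union_le _ _)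
      rw [card_univ] at g1
      have g2 := card_union_le bad1 bad2
      have g3 : Fintype.card (SimpleGraph (Fin n)) ≤ good.card + (bad1.card + bad2.card) := by omega
      exact_mod_cast g3
    have h2 : (1 : ℝ) ≤ good.card / Fintype.card (SimpleGraph (Fin n)) +
        (bad1.card / Fintype.card (SimpleGraph (Fin n)) +
          bad2.card / Fintype.card (SimpleGraph (Fin n))) := by
      rw [← add_div, ← add_div, le_div_iff₀ hN, one_mul]
      exact h1
    rw [hcompl] at h2
    have h3 : (good.card : ℝ) / Fintype.card (SimpleGraph (Fin n)) ≤ 1 := by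
      rw [div_le_one hN]
      exact_mod_cast card_le_univ good
    rw [Real.dist_eq, abs_lt]
    constructor
    · linarith
    · linarith

end Pool.Agent.W133
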