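import Pool.Agent.W960.HC.Defs

/-! The half turn fixed point gives an isolated closed orbit. -/

open Set Topology Filter MeasureTheory

namespace Pool.Agent.W133.HC

open Pool.Agent.W960.HC

lemma fld_smooth (a c ε : ℝ) : ContDiff ℝ 1 (fld a c ε) := by
  unfold fld
  fun_prop

lemma fld_odd (a c ε : ℝ) (p : ℝ × ℝ) : fld a c ε (-p) = -fld a c ε p := by
  unfold fld
  ext
  · simp
  · simp only [Prod.fst_neg, Prod.snd_neg]; ring

section gen

variable {F : ℝ × ℝ → ℝ × ℝ}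

lemma uniqR (hF : ContDiff ℝ 1 F) {f g : ℝ → ℝ × ℝ} {p q : ℝ}
    (hf : ∀ t ∈ Icc p q, HasDerivAt f (F (f t)) t) (hg : ∀ t ∈ Icc p q, HasDerivAt g (F (g t)) t)
    (h : f p = g p) : EqOn f g (Icc p q) := by
  have hcf : ContinuousOn f (Icc p q) := fun t ht => (hf t ht).continuousAt.continuousWithinAt
  have hcg : ContinuousOn g (Icc p q) := fun t ht => (hg t ht).continuousAt.continuousWithinAt
  have hK : IsCompact (f '' Icc p q ∪ g '' Icc p q) :=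
    (isCompact_Icc.image_of_continuousOn hcf).union (isCompact_Icc.image_of_continuousOn hcg)
  obtain ⟨K, hL⟩ := LocallyLipschitzOn.exists_lipschitzOnWith_of_compact hK
    (hF.locallyLipschitz.locallyLipschitzOn)
  exact ODE_solution_unique_of_mem_Icc_right (v := fun _ => F)
    (s := fun _ => f '' Icc p q ∪ g '' Icc p q) (K := K) (fun t _ => hL) hcf
    (fun t ht => (hf t (Ico_subset_Icc_self ht)).hasDerivWithinAt)
    (fun t ht => Or.inl ⟨t, Ico_subset_Icc_self ht, rfl⟩) hcg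
    (fun t ht => (hg t (Ico_subset_Icc_self ht)).hasDerivWithinAt)
    (fun t ht => Or.inr ⟨t, Ico_subset_Icc_self ht, rfl⟩) h

lemma uniqL (hF : ContDiff ℝ 1 F) {f g : ℝ → ℝ × ℝ} {p q : ℝ}
    (hf : ∀ t ∈ Icc p q, HasDerivAt f (F (f t)) t) (hg : ∀ t ∈ Icc p q, HasDerivAt g (F (g t)) t)
    (h : f q = g q) : EqOn f g (Icc p q) := by
  have hcf : ContinuousOn f (Icc p q) := fun t ht => (hf t ht).continuousAt.continuousWithinAt
  have hcg : ContinuousOn g (Icc p q) := fun t ht => (hg t ht).continuousAt.continuousWithinAt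
  have hK : IsCompact (f '' Icc p q ∪ g '' Icc p q) :=
    (isCompact_Icc.image_of_continuousOn hcf).union (isCompact_Icc.image_of_continuousOn hcg)
  obtain ⟨K, hL⟩ := LocallyLipschitzOn.exists_lipschitzOnWith_of_compact hK
    (hF.locallyLipschitz.locallyLipschitzOn)
  exact ODE_solution_unique_of_mem_Icc_left (v := fun _ => F)
    (s := fun _ => f '' Icc p q ∪ g '' Icc p q) (K := K) (fun t _ => hL) hcf
    (fun t ht => (hf t (Ioc_subset_Icc_self ht)).hasDerivWithinAt)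
    (fun t ht => Or.inl ⟨t, Ioc_subset_Icc_self ht, rfl⟩) hcg
    (fun t ht => (hg t (Ioc_subset_Icc_self ht)).hasDerivWithinAt)
    (fun t ht => Or.inr ⟨t, Ioc_subset_Icc_self ht, rfl⟩) h

lemma uniq (hF : ContDiff ℝ 1 F) {f g : ℝ → ℝ × ℝ} {p q : ℝ}
    (hf : ∀ t ∈ Icc p q, HasDerivAt f (F (f t)) t) (hg : ∀ t ∈ Icc p q, HasDerivAt g (F (g t)) t)
    {s s' : ℝ} (hs : s ∈ Icc p q) (hs' : s' ∈ Icc p q) (h : f s = g s) : f s' = g s' := by
  rcases le_total s s' with hle | hle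
  · exact uniqR hF (p := s) (q := s') (fun t ht => hf t ⟨hs.1.trans ht.1, ht.2.trans hs'.2⟩)
      (fun t ht => hg t ⟨hs.1.trans ht.1, ht.2.trans hs'.2⟩) h ⟨hle, le_rfl⟩
  · exact uniqL hF (p := s') (q := s) (fun t ht => hf t ⟨hs'.1.trans ht.1, ht.2.trans hs.2⟩)
      (fun t ht => hg t ⟨hs'.1.trans ht.1, ht.2.trans hs.2⟩) h ⟨le_rfl, hle⟩

/-- `z` or `-z` lies on the orbit -/
def Sy (γ : ℝ → ℝ × ℝ) (z : ℝ × ℝ) : Prop := ∃ u : ℝ, γ u = z ∨ -γ u = z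

lemma Sy_neg {γ : ℝ → ℝ × ℝ} {z : ℝ × ℝ} (h : Sy γ z) : Sy γ (-z) := by
  obtain ⟨u, hu | hu⟩ := h
  · exact ⟨u, Or.inr (by rw [hu])⟩
  · exact ⟨u, Or.inl (by rw [← hu, neg_neg])⟩

lemma neg_sol (hodd : ∀ p, F (-p) = -F p) {f : ℝ → ℝ × ℝ} {t : ℝ}
    (h : HasDerivAt f (F (f t)) t) : HasDerivAt (fun t => -f t) (F (-f t)) t := by
  rw [hodd]
  exact h.neg

lemma Sy_prop (hF : ContDiff ℝ 1 F) (hodd : ∀ p, F (-p) = -F p) {γ : ℝ → ℝ × ℝ}
    (hγ : ∀ t, HasDerivAt γ (F (γ t)) t) {f : ℝ → ℝ × ℝ} {p q : ℝ}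
    (hf : ∀ t ∈ Icc p q, HasDerivAt f (F (f t)) t) {s s' : ℝ} (hs : s ∈ Icc p q)
    (hs' : s' ∈ Icc p q) (h : Sy γ (f s)) : Sy γ (f s') := by
  obtain ⟨u, hu | hu⟩ := h
  · have hg : ∀ t, HasDerivAt (fun t => γ (t + (u - s))) (F (γ (t + (u - s)))) t :=
      fun t => (hγ _).comp_add_const t (u - s)
    have := uniq hF hf (fun t _ => hg t) hs hs' (by rw [← hu]; congr 1; ring)
    exact ⟨s' + (u - s), Or.inl this.symm⟩
  · have hg : ∀ t, HasDerivAt (fun t => -γ (t + (u - s))) (F (-γ (t + (u - s)))) t :=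
      fun t => neg_sol hodd (f := fun t => γ (t + (u - s))) ((hγ _).comp_add_const t (u - s))
    have := uniq hF hf (fun t _ => hg t) hs hs' (by rw [← hu]; congr 2; ring)
    exact ⟨s' + (u - s), Or.inr this.symm⟩

lemma range_eq (hF : ContDiff ℝ 1 F) {f g : ℝ → ℝ × ℝ}
    (hf : ∀ t, HasDerivAt f (F (f t)) t) (hg : ∀ t, HasDerivAt g (F (g t)) t)
    {u w : ℝ} (h : f u = g w) : range f ⊆ range g := by
  rintro _ ⟨t, rfl⟩
  refine ⟨t + (w - u), ?_⟩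
  have hg' : ∀ t, HasDerivAt (fun t => g (t + (w - u))) (F (g (t + (w - u)))) t :=
    fun t => (hg _).comp_add_const t (w - u)
  have := uniq hF (p := min u t) (q := max u t) (fun t _ => hf t) (fun t _ => hg' t)
    (s := u) (s' := t) ⟨min_le_left _ _, le_max_left _ _⟩ ⟨min_le_right _ _, le_max_right _ _⟩
    (by rw [h]; congr 1; ring)
  exact this.symm

end gen

/-! Monotonicity of `et`. -/

lemma aux_mono {u w : ℝ} (hu : 0 ≤ u) (h : u < w) :
    Real.exp (-w) * (1 + w) < Real.exp (-u) * (1 + u) := by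
  have h1 : w - u + 1 < Real.exp (w - u) := Real.add_one_lt_exp (by linarith)
  have h2 : Real.exp (-u) = Real.exp (-w) * Real.exp (w - u) := by
    rw [← Real.exp_add]; congr 1; ring
  rw [h2, mul_assoc]
  apply mul_lt_mul_of_pos_left _ (Real.exp_pos _)
  nlinarith [mul_nonneg hu (sub_nonneg.2 h.le), mul_lt_mul_of_pos_right h1 (by linarith : 0 < 1 + u)]

lemma kp_lt {x y : ℝ} (hx : 0 ≤ x) (h : x < y) : kp y < kp x := by
  unfold kp
  exact aux_mono (sq_nonneg x) (by nlinarith)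

lemma kp_zero : kp 0 = 1 := by simp [kp]

lemma et_lt {x y : ℝ} (hx : 0 ≤ x) (h : x < y) : et x < et y := by
  unfold et
  apply Real.sqrt_lt_sqrt
  · rcases hx.eq_or_lt with h0 | h0
    · rw [← h0, kp_zero]; norm_num
    · have := kp_lt le_rfl h0
      rw [kp_zero] at this
      linarith
  · linarith [kp_lt hx h]

lemma et_cont : Continuous et := by
  unfold et kp
  fun_prop

lemma et_pos {x : ℝ} (hx : 0 < x) : 0 < et x :=
  lt_of_le_of_lt (Real.sqrt_nonneg _) (et_lt le_rfl hx)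

/-! The one dimensional argument. -/

lemma right_case {f g : ℝ → ℝ} {X x : ℝ} (hX : X ≤ x) (hf : ContinuousOn f (Icc X x))
    (hg : ContinuousOn g (Icc X x)) (mf : StrictMonoOn f (Icc X x)) (mg : StrictMonoOn g (Icc X x))
    (h0 : f X = g X) (hne : ∀ t ∈ Icc X x, t ≠ X → f t ≠ g t) {A : Set ℝ} (hA : IsClosed A)
    (hrel : ∀ t ∈ Icc X x, ∀ t' ∈ Icc X x, f t = g t' → (t ∈ A ↔ t' ∈ A)) (hx : x ∈ A) :
    X ∈ A := by
  by_contra hXA
  have hcomp : IsCompact (Icc X x ∩ A) := isCompact_Icc.inter_right hA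
  obtain ⟨m, hm⟩ := hcomp.exists_isLeast ⟨x, ⟨hX, le_rfl⟩, hx⟩
  have hmX : X ≠ m := by
    rintro rfl
    exact hXA hm.1.2
  have hXm : X < m := lt_of_le_of_ne hm.1.1.1 hmX
  have hmI : m ∈ Icc X x := hm.1.1
  have hXI : X ∈ Icc X x := ⟨le_rfl, hX⟩
  rcases lt_or_gt_of_ne (hne m hmI hmX.symm) with hlt | hlt
  · have h1 : g X < f m := by rw [← h0]; exact mf hXI hmI hXm
    obtain ⟨t, ht, hft⟩ := intermediate_value_Ioo hXm.le
      (hg.mono (Icc_subset_Icc_right hmI.2)) ⟨h1, hlt⟩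
    have htI : t ∈ Icc X x := ⟨ht.1.le, ht.2.le.trans hmI.2⟩
    have : t ∈ A := (hrel m hmI t htI hft.symm).1 hm.1.2
    exact absurd (hm.2 ⟨htI, this⟩) (not_le.2 ht.2)
  · have h1 : f X < g m := by rw [h0]; exact mg hXI hmI hXm
    obtain ⟨t, ht, hft⟩ := intermediate_value_Ioo hXm.le
      (hf.mono (Icc_subset_Icc_right hmI.2)) ⟨h1, hlt⟩
    have htI : t ∈ Icc X x := ⟨ht.1.le, ht.2.le.trans hmI.2⟩
    have : t ∈ A := (hrel t htI m hmI hft).2 hm.1.2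
    exact absurd (hm.2 ⟨htI, this⟩) (not_le.2 ht.2)

lemma left_case {f g : ℝ → ℝ} {X x : ℝ} (hX : x ≤ X) (hf : ContinuousOn f (Icc x X))
    (hg : ContinuousOn g (Icc x X)) (mf : StrictMonoOn f (Icc x X)) (mg : StrictMonoOn g (Icc x X))
    (h0 : f X = g X) (hne : ∀ t ∈ Icc x X, t ≠ X → f t ≠ g t) {A : Set ℝ} (hA : IsClosed A)
    (hrel : ∀ t ∈ Icc x X, ∀ t' ∈ Icc x X, f t = g t' → (t ∈ A ↔ t' ∈ A)) (hx : x ∈ A) :
    X ∈ A := by
  by_contra hXA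
  have hcomp : IsCompact (Icc x X ∩ A) := isCompact_Icc.inter_right hA
  obtain ⟨m, hm⟩ := hcomp.exists_isGreatest ⟨x, ⟨le_rfl, hX⟩, hx⟩
  have hmX : m ≠ X := by
    rintro rfl
    exact hXA hm.1.2
  have hXm : m < X := lt_of_le_of_ne hm.1.1.2 hmX
  have hmI : m ∈ Icc x X := hm.1.1
  have hXI : X ∈ Icc x X := ⟨hX, le_rfl⟩
  rcases lt_or_gt_of_ne (hne m hmI hmX) with hlt | hlt
  · have h1 : g m < f X := by rw [h0]; exact mg hmI hXI hXm
    obtain ⟨t, ht, hft⟩ := intermediate_value_Ioo hXm.le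
      (hf.mono (Icc_subset_Icc_left hmI.1)) ⟨hlt, h1⟩
    have htI : t ∈ Icc x X := ⟨hmI.1.trans ht.1.le, ht.2.le⟩
    have : t ∈ A := (hrel t htI m hmI hft).2 hm.1.2
    exact absurd (hm.2 ⟨htI, this⟩) (not_le.2 ht.1)
  · have h1 : f m < g X := by rw [← h0]; exact mf hmI hXI hXm
    obtain ⟨t, ht, hft⟩ := intermediate_value_Ioo hXm.le
      (hg.mono (Icc_subset_Icc_left hmI.1)) ⟨hlt, h1⟩
    have htI : t ∈ Icc x X := ⟨hmI.1.trans ht.1.le, ht.2.le⟩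
    have : t ∈ A := (hrel m hmI t htI hft.symm).1 hm.1.2
    exact absurd (hm.2 ⟨htI, this⟩) (not_le.2 ht.1)

section flow

variable {a c R ε : ℝ} {Z : ℝ → ℝ × ℝ → ℝ → ℝ × ℝ} {W : ℝ → ℝ × ℝ → ℝ → ℝ}

lemma Zcont (h : Flw a c R Z W) (ε : ℝ) : Continuous (fun q : ℝ × (ℝ × ℝ) => Z q.1 q.2 ε) :=
  h.smZ.continuous.comp (by fun_prop : Continuous (fun q : ℝ × (ℝ × ℝ) => (q.1, q.2, ε)))

lemma Zcont1 (h : Flw a c R Z W) (ε : ℝ) (p : ℝ × ℝ) : Continuous (fun t : ℝ => Z t p ε) :=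
  (Zcont h ε).comp (by fun_prop : Continuous (fun t : ℝ => (t, p)))

lemma Zcont2 (h : Flw a c R Z W) (ε : ℝ) (t : ℝ) : Continuous (fun p : ℝ × ℝ => Z t p ε) :=
  (Zcont h ε).comp (by fun_prop : Continuous (fun p : ℝ × ℝ => (t, p)))

lemma Zinv (h : Flw a c R Z W) (t : ℝ) (p : ℝ × ℝ) : Z (-t) (Z t p ε) ε = p := by
  rw [← h.add, neg_add_cancel, h.zero]

lemma Zinv' (h : Flw a c R Z W) (t : ℝ) (p : ℝ × ℝ) : Z t (Z (-t) p ε) ε = p := by
  rw [← h.add, add_neg_cancel, h.zero]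

lemma Z_odd (h : Flw a c R Z W) (hε : |ε| < 1) {p : ℝ × ℝ} {T : ℝ}
    (hb : ∀ t ∈ Icc 0 T, ‖Z t p ε‖ < R) : ∀ t ∈ Icc 0 T, Z t (-p) ε = -Z t p ε := by
  have hc1 := Zcont1 h ε (-p)
  have hc2 := Zcont1 h ε p
  have hcl : IsClosed {t : ℝ | Z t (-p) ε = -Z t p ε} := isClosed_eq hc1 hc2.neg
  have : Icc 0 T ⊆ {t : ℝ | Z t (-p) ε = -Z t p ε} := by
    apply IsClosed.Icc_subset_of_forall_mem_nhdsWithin (hcl.inter isClosed_Icc)
    · show Z 0 (-p) ε = -Z 0 p ε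
      rw [h.zero, h.zero]
    · rintro x ⟨hx, hxI⟩
      have hx' : Z x (-p) ε = -Z x p ε := hx
      have hnx : ‖Z x p ε‖ < R := hb x (Ico_subset_Icc_self hxI)
      have hnx' : ‖Z x (-p) ε‖ < R := by rw [hx', norm_neg]; exact hnx
      obtain ⟨K, hL⟩ := LocallyLipschitzOn.exists_lipschitzOnWith_of_compact
        (isCompact_closedBall (0 : ℝ × ℝ) R) ((fld_smooth a c ε).locallyLipschitz.locallyLipschitzOn)
      have e1 : ∀ᶠ t in 𝓝 x, ‖Z t p ε‖ < R := (hc2.norm.tendsto x).eventually_lt_const hnx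
      have e2 : ∀ᶠ t in 𝓝 x, ‖Z t (-p) ε‖ < R := (hc1.norm.tendsto x).eventually_lt_const hnx'
      have := ODE_solution_unique_of_eventually (v := fun _ => fld a c ε)
        (s := fun _ => Metric.closedBall 0 R) (K := K) (f := fun t => Z t (-p) ε)
        (g := fun t => -Z t p ε) (t₀ := x) (Eventually.of_forall fun _ => hL)
        (e2.mono fun t ht => ⟨h.der (-p) ε t ht hε, by simpa using ht.le⟩)
        (e1.mono fun t ht => ⟨neg_sol (fld_odd a c ε) (h.der p ε t ht hε), by simpa using ht.le⟩) hx'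
      exact mem_nhdsWithin_of_mem_nhds this
  exact this

lemma orbit (h : Flw a c R Z W) (hε : |ε| < 1) {p : ℝ × ℝ} {T : ℝ} (hT : 0 < T)
    (hb : ∀ t ∈ Icc 0 T, ‖Z t p ε‖ < R) (hfix : Z T p ε = -p) :
    (∀ t, Z (t + T) p ε = -Z t p ε) ∧
      (∀ t, ∃ s ∈ Icc 0 T, Z t p ε = Z s p ε ∨ Z t p ε = -Z s p ε) ∧ (∀ t, ‖Z t p ε‖ < R) := by
  have hodd := Z_odd h hε hb
  have h1 : ∀ t ∈ Icc 0 T, Z (t + T) p ε = -Z t p ε := fun t ht => by
    rw [h.add, hfix, hodd t ht]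
  have h2 : ∀ t, Z (t + 2 * T) p ε = Z t p ε := by
    have h2T : Z (2 * T) p ε = p := by
      rw [two_mul, h1 T ⟨hT.le, le_rfl⟩, hfix, neg_neg]
    intro t
    rw [h.add, h2T]
  have key : ∀ t, ∃ y ∈ Ico 0 (2 * T), ∀ s, Z (s + t) p ε = Z (s + y) p ε := by
    intro t
    have hper : Function.Periodic (fun t => Z t p ε) (2 * T) := h2
    obtain ⟨y, hy, hty⟩ := hper.exists_mem_Ico₀ (by positivity) t
    refine ⟨y, hy, fun s => ?_⟩
    have hty' : Z t p ε = Z y p ε := hty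
    rw [h.add, hty', ← h.add]
  have cases' : ∀ y ∈ Ico 0 (2 * T), y ∈ Icc 0 T ∨ y - T ∈ Icc 0 T := by
    intro y hy
    rcases le_total y T with hyT | hyT
    · exact Or.inl ⟨hy.1, hyT⟩
    · exact Or.inr ⟨by linarith, by linarith [hy.2]⟩
  have h3 : ∀ t, Z (t + T) p ε = -Z t p ε := by
    intro t
    obtain ⟨y, hy, hty⟩ := key t
    have e0 : Z t p ε = Z y p ε := by have := hty 0; simpa using this
    have e1 : Z (t + T) p ε = Z (y + T) p ε := by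
      have := hty T
      rwa [add_comm T t, add_comm T y] at this
    rw [e0, e1]
    rcases cases' y hy with hc | hc
    · exact h1 y hc
    · have e2 : Z y p ε = -Z (y - T) p ε := by
        have := h1 (y - T) hc
        rwa [sub_add_cancel] at this
      have e3 : Z (y + T) p ε = Z (y - T) p ε := by
        have := h2 (y - T)
        rw [← this]
        congr 1
        ring
      rw [e2, e3, neg_neg]
  have h4 : ∀ t, ∃ s ∈ Icc 0 T, Z t p ε = Z s p ε ∨ Z t p ε = -Z s p ε := by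
    intro t
    obtain ⟨y, hy, hty⟩ := key t
    have e0 : Z t p ε = Z y p ε := by have := hty 0; simpa using this
    rcases cases' y hy with hc | hc
    · exact ⟨y, hc, Or.inl e0⟩
    · refine ⟨y - T, hc, Or.inr ?_⟩
      rw [e0]
      have := h1 (y - T) hc
      rwa [sub_add_cancel] at this
  refine ⟨h3, h4, fun t => ?_⟩
  obtain ⟨s, hs, hs' | hs'⟩ := h4 t
  · rw [hs']; exact hb s hs
  · rw [hs', norm_neg]; exact hb s hs

lemma ev_nhds (h : Flw a c R Z W) {K : Set ℝ} (hK : IsCompact K) {O : Set (ℝ × ℝ)}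
    (hO : IsOpen O) {p : ℝ × ℝ} (hp : ∀ u ∈ K, Z u p ε ∈ O) :
    ∀ᶠ v in 𝓝 p, ∀ u ∈ K, Z u v ε ∈ O := by
  apply hK.eventually_forall_of_forall_eventually
  intro u hu
  have : ContinuousAt (fun z : (ℝ × ℝ) × ℝ => Z z.2 z.1 ε) (p, u) :=
    ((Zcont h ε).comp (by fun_prop : Continuous fun z : (ℝ × ℝ) × ℝ => (z.2, z.1))).continuousAt
  exact this.eventually (hO.mem_nhds (hp u hu))

end flow

lemma Sy_closed {γ : ℝ → ℝ × ℝ} {T : ℝ} (hT : 0 < T) (hper : ∀ t, γ (t + T) = γ t)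
    (hc : Continuous γ) : IsClosed {z | Sy γ z} := by
  have h1 : IsCompact (range γ) :=
    Function.Periodic.compact_of_continuous (f := γ) (c := T) hper hT.ne' hc
  have h2 : {z | Sy γ z} = range γ ∪ (fun z => -z) '' range γ := by
    ext z
    constructor
    · rintro ⟨u, hu | hu⟩
      · exact Or.inl ⟨u, hu⟩
      · exact Or.inr ⟨γ u, ⟨u, rfl⟩, hu⟩
    · rintro (⟨u, hu⟩ | ⟨_, ⟨u, rfl⟩, hu⟩)
      · exact ⟨u, Or.inl hu⟩
      · exact ⟨u, Or.inr hu⟩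
  rw [h2]
  exact (h1.union (h1.image continuous_neg)).isClosed

/-- Step A: if one point of the transversal near `X` lies on `D` (up to sign) then so does `p`. -/
lemma stepA {a c R X₀ : ℝ} {Z : ℝ → ℝ × ℝ → ℝ → ℝ × ℝ} {W : ℝ → ℝ × ℝ → ℝ → ℝ}
    (h : Flw a c R Z W) {τ : ℝ × ℝ → ℝ} {δ : ℝ} (hh : Half a c R X₀ Z W τ δ)
    {ε X r : ℝ} (hε : 0 < ε) (hεδ : ε < δ) (h1 : X₀ - δ < X - r)
    (h2 : X + r < X₀ + δ) (hfix : Z (τ (X, ε)) (0, et X) ε = (0, -et X))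
    (huniq : ∀ X' ∈ Ioo (X - r) (X + r), X' ≠ X → Z (τ (X', ε)) (0, et X') ε ≠ (0, -et X'))
    (hmono : ∀ X' ∈ Ioo (X - r) (X + r), ∀ X'' ∈ Ioo (X - r) (X + r), X' < X'' →
        (Z (τ (X'', ε)) (0, et X'') ε).2 < (Z (τ (X', ε)) (0, et X') ε).2)
    {γ : ℝ → ℝ × ℝ} {TD : ℝ} (hTD : 0 < TD) (hγ : ∀ t, HasDerivAt γ (fld a c ε (γ t)) t)
    (hper : ∀ t, γ (t + TD) = γ t) {x : ℝ} (hx : x ∈ Ioo (X - r) (X + r))
    (hxS : Sy γ (0, et x)) : Sy γ (0, et X) := by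
  have hε1 : |ε| < 1 := by rw [abs_of_pos hε]; exact hεδ.trans hh.hδ1
  have hεI : ε ∈ Ioo (-δ) δ := ⟨by linarith, hεδ⟩
  have hI : ∀ x ∈ Ioo (X - r) (X + r), x ∈ Ioo (X₀ - δ) (X₀ + δ) :=
    fun x hx => ⟨h1.trans hx.1, hx.2.trans h2⟩
  have hposI : ∀ x ∈ Ioo (X - r) (X + r), 0 < x := fun x hx => by
    linarith [(hI x hx).1, hh.hδ0]
  have hXI : X ∈ Ioo (X - r) (X + r) := ⟨by linarith [hx.1, hx.2], by linarith [hx.1, hx.2]⟩
  have hF := fld_smooth a c ε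
  have hodd := fld_odd a c ε
  obtain ⟨y, hy⟩ : ∃ y : ℝ → ℝ, ∀ x, y x = -(Z (τ (x, ε)) (0, et x) ε).2 := ⟨_, fun _ => rfl⟩
  have hZ : ∀ x ∈ Ioo (X - r) (X + r), Z (τ (x, ε)) (0, et x) ε = (0, -y x) := by
    intro x hx
    refine Prod.ext (hh.hit x (hI x hx) ε hεI) ?_
    simp [hy]
  have hsolx : ∀ x ∈ Ioo (X - r) (X + r), ∀ t ∈ Icc 0 (τ (x, ε)),
      HasDerivAt (fun t => Z t (0, et x) ε) (fld a c ε (Z t (0, et x) ε)) t :=
    fun x hx t ht => h.der _ ε t (hh.ball x (hI x hx) ε hεI t ht) hε1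
  have hrel1 : ∀ x ∈ Ioo (X - r) (X + r), (Sy γ (0, et x) ↔ Sy γ (0, y x)) := by
    intro x hx
    have hτ : 0 < τ (x, ε) := hh.pos x (hI x hx) ε hεI
    constructor
    · intro hS
      have := Sy_prop hF hodd hγ (hsolx x hx) (s := 0) (s' := τ (x, ε)) ⟨le_rfl, hτ.le⟩
        ⟨hτ.le, le_rfl⟩ (by simpa only [h.zero] using hS)
      simp only [hZ x hx] at this
      simpa using Sy_neg this
    · intro hS
      have hS' : Sy γ (0, -y x) := by simpa using Sy_neg hS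
      have := Sy_prop hF hodd hγ (hsolx x hx) (s := τ (x, ε)) (s' := 0)
        ⟨hτ.le, le_rfl⟩ ⟨le_rfl, hτ.le⟩ (by simpa only [hZ x hx] using hS')
      simpa only [h.zero] using this
  have hcy : ContinuousOn y (Ioo (X - r) (X + r)) := by
    have hτc : ContinuousOn (fun x => τ (x, ε)) (Ioo (X - r) (X + r)) :=
      hh.smooth.continuousOn.comp (by fun_prop : Continuous fun x : ℝ => (x, ε)).continuousOn
        (fun x hx => ⟨hI x hx, hεI⟩)
    have h3 : ContinuousOn (fun x => (τ (x, ε), ((0 : ℝ), et x))) (Ioo (X - r) (X + r)) :=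
      hτc.prodMk (continuousOn_const.prodMk et_cont.continuousOn)
    have h4 : ContinuousOn (fun x => Z (τ (x, ε)) (0, et x) ε) (Ioo (X - r) (X + r)) :=
      (Zcont h ε).comp_continuousOn h3
    have h5 : ContinuousOn (fun x => -(Z (τ (x, ε)) (0, et x) ε).2) (Ioo (X - r) (X + r)) :=
      (continuous_snd.comp_continuousOn h4).neg
    exact h5.congr (fun x _ => hy x)
  have hmy : StrictMonoOn y (Ioo (X - r) (X + r)) := by
    intro u hu w hw huw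
    rw [hy, hy]
    linarith [hmono u hu w hw huw]
  have hme : StrictMonoOn et (Ioo (X - r) (X + r)) :=
    fun u hu w hw huw => et_lt (hposI u hu).le huw
  have hX0 : et X = y X := by
    rw [hy, hfix]; simp
  have hne : ∀ t ∈ Ioo (X - r) (X + r), t ≠ X → et t ≠ y t := by
    intro t ht htX he
    apply huniq t ht htX
    rw [hZ t ht, he]
  have hA : IsClosed {x : ℝ | Sy γ (0, et x)} := by
    have hc : Continuous γ := continuous_iff_continuousAt.2 fun t => (hγ t).continuousAt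
    exact (Sy_closed hTD hper hc).preimage (continuous_const.prodMk et_cont)
  have hrel : ∀ t ∈ Ioo (X - r) (X + r), ∀ t' ∈ Ioo (X - r) (X + r), et t = y t' →
      (t ∈ {x : ℝ | Sy γ (0, et x)} ↔ t' ∈ {x : ℝ | Sy γ (0, et x)}) := by
    intro t _ t' ht' he
    simp only [mem_setOf_eq]
    rw [hrel1 t' ht', he]
  rcases le_total X x with hle | hle
  · have hsub : Icc X x ⊆ Ioo (X - r) (X + r) := fun t ht => ⟨hXI.1.trans_le ht.1, ht.2.trans_lt hx.2⟩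
    exact right_case hle et_cont.continuousOn (hcy.mono hsub) (hme.mono hsub) (hmy.mono hsub) hX0
      (fun t ht => hne t (hsub ht)) hA (fun t ht t' ht' => hrel t (hsub ht) t' (hsub ht')) hxS
  · have hsub : Icc x X ⊆ Ioo (X - r) (X + r) := fun t ht => ⟨hx.1.trans_le ht.1, ht.2.trans_lt hXI.2⟩
    exact left_case hle et_cont.continuousOn (hcy.mono hsub) (hme.mono hsub) (hmy.mono hsub) hX0
      (fun t ht => hne t (hsub ht)) hA (fun t ht t' ht' => hrel t (hsub ht) t' (hsub ht')) hxS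

theorem isolated {a c R X₀ : ℝ} {Z : ℝ → ℝ × ℝ → ℝ → ℝ × ℝ} {W : ℝ → ℝ × ℝ → ℝ → ℝ}
    (h : Flw a c R Z W) {τ : ℝ × ℝ → ℝ} {δ : ℝ} (hh : Half a c R X₀ Z W τ δ)
    {ε X r : ℝ} (hε : 0 < ε) (hεδ : ε < δ) (hr : 0 < r) (h1 : X₀ - δ < X - r)
    (h2 : X + r < X₀ + δ) (hfix : Z (τ (X, ε)) (0, et X) ε = (0, -et X))
    (huniq : ∀ X' ∈ Ioo (X - r) (X + r), X' ≠ X → Z (τ (X', ε)) (0, et X') ε ≠ (0, -et X'))
    (hmono : ∀ X' ∈ Ioo (X - r) (X + r), ∀ X'' ∈ Ioo (X - r) (X + r), X' < X'' →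
        (Z (τ (X'', ε)) (0, et X'') ε).2 < (Z (τ (X', ε)) (0, et X') ε).2) :
    ∃ C ∈ Cyc (fld a c ε), (0, et X) ∈ C ∧ ∀ z ∈ C, ∃ t ∈ Icc 0 (τ (X, ε)),
      z = Z t (0, et X) ε ∨ z = -Z t (0, et X) ε := by
  have hε1 : |ε| < 1 := by rw [abs_of_pos hε]; exact hεδ.trans hh.hδ1
  have hεI : ε ∈ Ioo (-δ) δ := ⟨by linarith, hεδ⟩
  have hI : ∀ x ∈ Ioo (X - r) (X + r), x ∈ Ioo (X₀ - δ) (X₀ + δ) :=
    fun x hx => ⟨h1.trans hx.1, hx.2.trans h2⟩
  have hposI : ∀ x ∈ Ioo (X - r) (X + r), 0 < x := fun x hx => by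
    linarith [(hI x hx).1, hh.hδ0]
  have hXI : X ∈ Ioo (X - r) (X + r) := ⟨by linarith, by linarith⟩
  have hX0 := hI X hXI
  have hF := fld_smooth a c ε
  have hodd := fld_odd a c ε
  obtain ⟨T, hTdef⟩ : ∃ T, T = τ (X, ε) := ⟨_, rfl⟩
  have hT : 0 < T := by rw [hTdef]; exact hh.pos X hX0 ε hεI
  have hb : ∀ t ∈ Icc 0 T, ‖Z t (0, et X) ε‖ < R := by rw [hTdef]; exact hh.ball X hX0 ε hεI
  have hfix' : Z T (0, et X) ε = -(0, et X) := by rw [hTdef, hfix]; simp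
  obtain ⟨o1, o2, o3⟩ := orbit h hε1 hT hb hfix'
  have etX : 0 < et X := et_pos (hposI X hXI)
  have hsol : ∀ t, HasDerivAt (fun t => Z t (0, et X) ε) (fld a c ε (Z t (0, et X) ε)) t :=
    fun t => h.der (0, et X) ε t (o3 t) hε1
  have hcl : range (fun t => Z t (0, et X) ε) ∈ Closed (fld a c ε) := by
    refine ⟨fun t => Z t (0, et X) ε, 2 * T, by positivity, hsol, ?_, ⟨T, ?_⟩, rfl⟩
    · intro t
      show Z (t + 2 * T) (0, et X) ε = Z t (0, et X) ε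
      rw [two_mul, ← add_assoc, o1, o1, neg_neg]
    · show Z T (0, et X) ε ≠ Z 0 (0, et X) ε
      rw [hfix', h.zero]
      intro he
      have := congrArg Prod.snd he
      simp at this
      linarith
  -- small time
  have hlow : et (X - r / 2) < et X := by
    have : X - r / 2 ∈ Ioo (X - r) (X + r) := ⟨by linarith, by linarith⟩
    exact et_lt (hposI _ this).le (by linarith)
  have hup : et X < et (X + r / 2) := et_lt (hposI _ hXI).le (by linarith)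
  obtain ⟨ρ, hρ, hρT, hρI⟩ : ∃ ρ, 0 < ρ ∧ ρ < T ∧ ∀ u ∈ Icc (-ρ) ρ,
      (Z u (0, et X) ε).2 ∈ Ioo (et (X - r / 2)) (et (X + r / 2)) := by
    have hc : Continuous (fun u => (Z u (0, et X) ε).2) := continuous_snd.comp (Zcont1 h ε _)
    have h0 : (Z 0 (0, et X) ε).2 ∈ Ioo (et (X - r / 2)) (et (X + r / 2)) := by
      rw [h.zero]; exact ⟨hlow, hup⟩
    have hev : ∀ᶠ u in 𝓝 (0 : ℝ), (Z u (0, et X) ε).2 ∈ Ioo (et (X - r / 2)) (et (X + r / 2)) :=
      (hc.tendsto 0).eventually (isOpen_Ioo.mem_nhds h0)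
    obtain ⟨ρ', hρ', hball⟩ := Metric.eventually_nhds_iff.1 hev
    refine ⟨min (ρ' / 2) (T / 2), lt_min (by positivity) (by positivity),
      (min_le_right _ _).trans_lt (by linarith), fun u hu => hball ?_⟩
    rw [Real.dist_eq, sub_zero]
    have := abs_le.2 hu
    exact (this.trans (min_le_left _ _)).trans_lt (by linarith)
  have hsideρ : ∀ t ∈ Ioo 0 T, 0 < (Z t (0, et X) ε).1 := by
    rw [hTdef]; exact hh.side X hX0 ε hεI
  have hV : {v : ℝ × ℝ | (∀ u ∈ Icc (-ρ) ρ, (Z u v ε).2 ∈ Ioo (et (X - r / 2)) (et (X + r / 2))) ∧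
      (∀ u ∈ Icc (-ρ) T, ‖Z u v ε‖ < R) ∧ 0 < (Z ρ v ε).1 ∧ (Z (-ρ) v ε).1 < 0} ∈
      𝓝 ((0 : ℝ), et X) := by
    have e1 := ev_nhds h (K := Icc (-ρ) ρ) isCompact_Icc
      (O := {q : ℝ × ℝ | q.2 ∈ Ioo (et (X - r / 2)) (et (X + r / 2))})
      (isOpen_Ioo.preimage continuous_snd) (p := (0, et X)) hρI
    have e2 := ev_nhds h (K := Icc (-ρ) T) isCompact_Icc
      (O := {q : ℝ × ℝ | ‖q‖ < R})
      (isOpen_lt continuous_norm continuous_const) (p := (0, et X)) (fun u _ => o3 u)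
    have e3 : ∀ᶠ v in 𝓝 ((0 : ℝ), et X), 0 < (Z ρ v ε).1 :=
      ((continuous_fst.comp (Zcont2 h ε ρ)).tendsto (0, et X)).eventually_const_lt
        (hsideρ ρ ⟨hρ, hρT⟩)
    have e4 : ∀ᶠ v in 𝓝 ((0 : ℝ), et X), (Z (-ρ) v ε).1 < 0 := by
      have : (Z (-ρ) (0, et X) ε).1 < 0 := by
        have e5 := o1 (-ρ)
        have e6 := hsideρ (-ρ + T) ⟨by linarith, by linarith⟩
        rw [e5] at e6
        simpa using e6
      exact ((continuous_fst.comp (Zcont2 h ε (-ρ))).tendsto (0, et X)).eventually_lt_const this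
    filter_upwards [e1, e2, e3, e4] with v v1 v2 v3 v4
    exact ⟨v1, v2, v3, v4⟩
  obtain ⟨V, hVsub, hVopen, hpV⟩ := mem_nhds_iff.1 hV
  refine ⟨range (fun t => Z t (0, et X) ε), ⟨hcl,
    ⋃ t ∈ Icc (0 : ℝ) T, ((fun z => Z (-t) z ε) ⁻¹' V ∪ (fun z => Z (-t) (-z) ε) ⁻¹' V), ?_, ?_, ?_⟩,
    ⟨0, h.zero _ _⟩, ?_⟩
  · refine isOpen_biUnion fun t _ => ?_
    exact (hVopen.preimage (Zcont2 h ε (-t))).union
      (hVopen.preimage ((Zcont2 h ε (-t)).comp continuous_neg))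
  · rintro _ ⟨t, rfl⟩
    obtain ⟨s, hs, hs' | hs'⟩ := o2 t
    · refine mem_biUnion hs (Or.inl ?_)
      show Z (-s) (Z t (0, et X) ε) ε ∈ V
      rw [hs', Zinv h]
      exact hpV
    · refine mem_biUnion hs (Or.inr ?_)
      show Z (-s) (-Z t (0, et X) ε) ε ∈ V
      rw [hs', neg_neg, Zinv h]
      exact hpV
  · rintro D ⟨γ, TD, hTD, hγ, hper, -, rfl⟩ ⟨z, ⟨u, rfl⟩, hzU⟩
    -- find a good point
    have hSp : Sy γ (0, et X) := by
      obtain ⟨t, ht, hV'⟩ := mem_iUnion₂.1 hzU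
      obtain ⟨v, hv, hSv⟩ : ∃ v ∈ V, Sy γ (Z t v ε) := by
        rcases hV' with hV' | hV'
        · exact ⟨Z (-t) (γ u) ε, hV', by rw [Zinv' h]; exact ⟨u, Or.inl rfl⟩⟩
        · exact ⟨Z (-t) (-γ u) ε, hV', by rw [Zinv' h]; exact ⟨u, Or.inr rfl⟩⟩
      obtain ⟨v1, v2, v3, v4⟩ := hVsub hv
      have hprop : ∀ w ∈ Icc (-ρ) T, Sy γ (Z w v ε) := by
        intro w hw
        exact Sy_prop hF hodd hγ (f := fun s => Z s v ε) (p := -ρ) (q := T)
          (fun s hs => h.der v ε s (v2 s hs) hε1) (s := t) (s' := w)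
          ⟨by linarith [ht.1], ht.2⟩ hw hSv
      have hc1 : ContinuousOn (fun w => (Z w v ε).1) (Icc (-ρ) ρ) :=
        (continuous_fst.comp (Zcont1 h ε v)).continuousOn
      obtain ⟨w, hw, hw0⟩ := intermediate_value_Icc (by linarith : -ρ ≤ ρ) hc1
        (⟨v4.le, v3.le⟩ : (0 : ℝ) ∈ Icc (Z (-ρ) v ε).1 (Z ρ v ε).1)
      obtain ⟨x, hx, hx0⟩ := intermediate_value_Ioo (by linarith : X - r / 2 ≤ X + r / 2)
        et_cont.continuousOn (v1 w hw)
      have hSx : Sy γ (0, et x) := by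
        have := hprop w ⟨hw.1, hw.2.trans hρT.le⟩
        have he : Z w v ε = (0, et x) := Prod.ext hw0 hx0.symm
        rwa [he] at this
      exact stepA h hh hε hεδ h1 h2 hfix huniq hmono hTD hγ hper
        (x := x) ⟨by linarith [hx.1], by linarith [hx.2]⟩ hSx
    obtain ⟨w, hw | hw⟩ := hSp
    · have he : γ w = (fun t => Z t (0, et X) ε) 0 := by
        show γ w = Z 0 (0, et X) ε
        rw [h.zero]; exact hw
      exact Subset.antisymm (range_eq hF hγ hsol he) (range_eq hF hsol hγ he.symm)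
    · have hγn : ∀ t, HasDerivAt (fun t => -γ t) (fld a c ε (-γ t)) t := fun t => neg_sol hodd (hγ t)
      have he : (fun t => -γ t) w = (fun t => Z t (0, et X) ε) 0 := by
        show -γ w = Z 0 (0, et X) ε
        rw [h.zero]; exact hw
      have hr1 := range_eq hF hγn hsol he
      have hr2 := range_eq hF hsol hγn he.symm
      apply Subset.antisymm
      · rintro _ ⟨t, rfl⟩
        obtain ⟨s, hs⟩ := hr1 ⟨t, rfl⟩
        refine ⟨s + T, ?_⟩
        show Z (s + T) (0, et X) ε = γ t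
        have hs' : Z s (0, et X) ε = -γ t := hs
        rw [o1, hs', neg_neg]
      · rintro _ ⟨t, rfl⟩
        obtain ⟨s, hs⟩ := hr2 ⟨t + T, rfl⟩
        refine ⟨s, ?_⟩
        have hs' : -γ s = Z (t + T) (0, et X) ε := hs
        rw [o1] at hs'
        exact neg_injective hs'
  · rintro _ ⟨t, rfl⟩
    rw [← hTdef]
    exact o2 t

end Pool.Agent.W133.HC
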